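import Pool.Agent.helper24.PV.A1
/-! PV-A2: the word of a combination is primitive recursive. -/
set_option autoImplicit false
namespace Pool.Agent.helper24.PV
open Pool.Agent.helper4.PV Pool.Agent.helper50.BW Pool.Agent.helper47.PV
variable {P : Par} {T : RM} {d : ℕ}

section
open Primrec
variable {α : Type} [Primcodable α]

private theorem A2a_wt (P : Par) {a b x : α → W} (ha : Primrec a) (hb : Primrec b) (hx : Primrec x) :
    Primrec fun t => wWt P (a t) (b t) (x t) := by
  have h1 := (prim_wWt P).comp (ha.pair (hb.pair hx))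
  exact h1

private theorem A2a_nd (P : Par) {a b x y : α → W} (ha : Primrec a) (hb : Primrec b) (hx : Primrec x)
    (hy : Primrec y) : Primrec fun t => (opsW P (a t) (b t)).nd (x t) (y t) := by
  exact A2a_wt P ha (A2a_wt P ha hb hx) hy

private theorem A2a_zip (P : Par) {a b L x R y : α → W} (ha : Primrec a) (hb : Primrec b)
    (hL : Primrec L) (hx : Primrec x) (hR : Primrec R) (hy : Primrec y) :
    Primrec fun t => (opsW P (a t) (b t)).zip (L t) (x t) (R t) (y t) :=
  A2a_nd P ha hb (A2a_nd P ha hb hL hx) (A2a_nd P ha hb hR hy)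

private theorem A2a_enc (P : Par) {a b e : α → W} {l : α → List W} (ha : Primrec a) (hb : Primrec b)
    (hl : Primrec l) (he : Primrec e) : Primrec fun t => (opsW P (a t) (b t)).enc (l t) (e t) := by
  have h : Primrec₂ fun (t : α) (p : W × W) => (opsW P (a t) (b t)).nd p.1 p.2 :=
    A2a_nd P (ha.comp fst) (hb.comp fst) (fst.comp snd) (snd.comp snd)
  refine (list_foldr hl he h).of_eq fun t => ?_
  induction l t with
  | nil => rfl
  | cons y l ih => rw [List.foldr_cons, ih]; rfl

private theorem A2a_marks (P : Par) {a b x : α → W} {n : α → ℕ} (ha : Primrec a) (hb : Primrec b)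
    (hn : Primrec n) (hx : Primrec x) : Primrec fun t => (opsW P (a t) (b t)).marks (n t) (x t) := by
  have h : Primrec₂ fun (t : α) (p : ℕ × W) => (opsW P (a t) (b t)).nd (opsW P (a t) (b t)).O p.2 :=
    A2a_nd P (ha.comp fst) (hb.comp fst) (ha.comp fst) (snd.comp snd)
  refine (nat_rec' hn hx h).of_eq fun t => ?_
  induction n t with
  | zero => rfl
  | succ n ih => simp only [ih]; rfl

private theorem A2a_kind : Primrec fun t : Dt => t.kind := fst
private theorem A2a_a : Primrec fun t : Dt => t.a := fst.comp (fst.comp snd)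
private theorem A2a_b : Primrec fun t : Dt => t.b := snd.comp (fst.comp snd)
private theorem A2a_L0 : Primrec fun t : Dt => t.L0 := fst.comp (fst.comp (snd.comp snd))
private theorem A2a_a0 : Primrec fun t : Dt => t.a0 := snd.comp (fst.comp (snd.comp snd))
private theorem A2a_R0 : Primrec fun t : Dt => t.R0 := fst.comp (fst.comp (snd.comp (snd.comp snd)))
private theorem A2a_b0 : Primrec fun t : Dt => t.b0 := snd.comp (fst.comp (snd.comp (snd.comp snd)))
private theorem A2a_l1 : Primrec fun t : Dt => t.l1 :=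
  fst.comp (fst.comp (snd.comp (snd.comp (snd.comp snd))))
private theorem A2a_l2 : Primrec fun t : Dt => t.l2 :=
  snd.comp (fst.comp (snd.comp (snd.comp (snd.comp snd))))
private theorem A2a_D : Primrec fun t : Dt => t.D :=
  snd.comp (snd.comp (snd.comp (snd.comp snd)))

private theorem A2a_N (P : Par) : Primrec fun t : Dt => t.N P :=
  A2a_zip P A2a_a A2a_b (A2a_enc P A2a_a A2a_b A2a_l1 A2a_L0)
    (A2a_marks P A2a_a A2a_b (list_length.comp A2a_l1) A2a_a0)
    (A2a_enc P A2a_a A2a_b A2a_l2 A2a_R0) (A2a_marks P A2a_a A2a_b (list_length.comp A2a_l2) A2a_b0)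

private theorem A2a_Y (P : Par) : Primrec fun t : Dt => t.Y P :=
  Primrec.ite (Primrec.eq.comp A2a_kind (Primrec.const 1)) A2a_D
    (Primrec.ite (Primrec.eq.comp A2a_kind (Primrec.const 2)) (A2a_nd P A2a_a A2a_b A2a_L0 A2a_D)
      (A2a_nd P A2a_a A2a_b (A2a_N P) A2a_D))

private theorem A2a_x (P : Par) : Primrec fun t : Dt => t.x P := by
  have h1 : Primrec fun t : Dt => wWt P t.a t.b (t.Y P) := A2a_wt P A2a_a A2a_b (A2a_Y P)
  have h2 : Primrec fun t : Dt => if t.kind = 0 then t.a else wWt P t.a t.b (t.Y P) :=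
    Primrec.ite (Primrec.eq.comp A2a_kind (Primrec.const 0)) A2a_a h1
  exact h2

end

/-- PV-A2a.  The word of a combination is primitive recursive.
PROOF. `list_flatMap`, `prim_npw`, and `Dt.x` is primitive recursive: `Dt.kind`, .., `Dt.D` are projections;
`opsW` by `prim_wWt`; `enc` by `list_foldr`, `marks` by `nat_rec`, `zip`; `ite`. -/
theorem prim_cW (P : Par) (d : ℕ) : Primrec (cW P d) := by
  have h1 : Primrec fun p : Dt × ℕ => npw (npw (p.1.x P) d) p.2 :=
    prim_npw.comp (prim_npw.comp ((A2a_x P).comp Primrec.fst) (Primrec.const d)) Primrec.snd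
  exact Primrec.list_flatMap Primrec.id (h1.comp Primrec.snd)

end Pool.Agent.helper24.PV
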