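import Pool.Agent.helper24.PV.D2
/-! PV-D3: the canonical states. -/
set_option autoImplicit false
namespace Pool.Agent.helper24.PV
variable {M : Type} {A : Ops M} {T : RM}
open Relation

/-- the machine state after `j` steps on the input `k`, as an element of `M` -/
def xs (A : Ops M) (T : RM) (k j : ℕ) : M := A.sc T (T.run k j).1 (fun i => A.num ((T.run k j).2 i))

/-- PV-D3a. PROOF. unfold, `num 0 = Z`. -/
theorem xs_zero (k : ℕ) : xs A T k 0 = A.init T (A.num k) := by
  have h : (fun i => A.num ((T.run k 0).2 i)) = fun i => if i = T.inp then A.num k else A.Z := by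
    funext i
    change A.num (if i = T.inp then k else 0) = _
    split <;> rfl
  unfold xs
  rw [h]
  rfl

/-- PV-D3b.  A simulation without halting.
PROOF. Induction on `j` with D2a (`Function.iterate_succ_apply'`). -/
theorem sim_run {p1 : Prop} {a2 : M → Prop} (k m : ℕ) (t : M) :
    ∀ j ≤ m, (∀ i < j, T.halt (T.run k i).1 = false) →
      ReflTransGen (A.DS T p1 a2) (A.st t (A.num m) (xs A T k 0)) (A.st t (A.num (m - j)) (xs A T k j)) := by
  intro j
  induction j with
  | zero => exact fun _ _ => ReflTransGen.refl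
  | succ j ih =>
    intro hj h
    have h1 := ih (by omega) fun i hi => h i (by omega)
    have h2 := sim_num (A := A) (T := T) (p1 := p1) (a2 := a2) (T.run k j).1 (T.run k j).2 t
      (A.num (m - (j + 1))) (h j (by omega))
    have h3 : T.step (T.run k j) = T.run k (j + 1) := (Function.iterate_succ_apply' _ _ _).symm
    have h4 : A.nd A.O (A.num (m - (j + 1))) = A.num (m - j) := by
      have h5 : m - j = (m - (j + 1)) + 1 := by omega
      rw [h5]
      rfl
    rw [h4] at h2
    refine h1.tail ?_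
    change A.DS T p1 a2 _ (A.st t _ (A.sc T (T.run k (j + 1)).1
      (fun i => A.num ((T.run k (j + 1)).2 i))))
    rw [← h3]
    exact h2

/-- the start of a round -/
theorem d3_start {p1 : Prop} {a2 : M → Prop} (h1 : p1) {k : ℕ} (h2 : a2 (A.num k)) (m : ℕ) :
    ReflTransGen (A.DS T p1 a2) (A.c1 (A.num m)) (A.st (A.num m) (A.num m) (xs A T k 0)) := by
  rw [xs_zero]
  exact ReflTransGen.head (Ops.DS.v1 h1 _) (ReflTransGen.single (Ops.DS.v2 _ h2 _))

/-- PV-D3c.  One round without halting: `c1 (num m) →* c1 (num (m+1))`.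
PROOF. `v1`, `v2` with `a = num k`, D3b with `j = m`, `rst`; `num (m+1) = nd O (num m)`. -/
theorem round {p1 : Prop} {a2 : M → Prop} (h1 : p1) {k : ℕ} (h2 : a2 (A.num k)) (m : ℕ)
    (h : ∀ i < m, T.halt (T.run k i).1 = false) :
    ReflTransGen (A.DS T p1 a2) (A.c1 (A.num m)) (A.c1 (A.num (m + 1))) := by
  have h3 := (d3_start (T := T) h1 h2 m).trans (sim_run (p1 := p1) (a2 := a2) k m (A.num m) m le_rfl h)
  rw [Nat.sub_self] at h3
  exact h3.tail (Ops.DS.rst _ _)

/-- PV-D3d.  If the machine halts then every canonical state is killed.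
PROOF. Let `j` be the first halting time (`Nat.find`).  If `j < m`: `v1`, `v2`, D3b up to `j`:
`st t (num (m - j)) (xs k j)` with `m - j ≥ 1` is killed (`DK.halt`).  If `m ≤ j`: D3c and induction on
`j + 1 - m`. -/
theorem canon_halts {p1 : Prop} {a2 : M → Prop} (h1 : p1) {k : ℕ} (h2 : a2 (A.num k))
    (hk : T.Halts k) (m : ℕ) : ∃ D', ReflTransGen (A.DS T p1 a2) (A.c1 (A.num m)) D' ∧ A.DK T D' := by
  classical
  have hj : T.halt (T.run k (Nat.find hk)).1 = true := Nat.find_spec hk
  have hlt : ∀ i < Nat.find hk, T.halt (T.run k i).1 = false := fun i hi => by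
    have h3 := Nat.find_min hk hi
    exact Bool.eq_false_iff.2 h3
  generalize Nat.find hk = j at hj hlt
  -- the case `j < m`
  have key : ∀ m, j < m → ∃ D', ReflTransGen (A.DS T p1 a2) (A.c1 (A.num m)) D' ∧ A.DK T D' := by
    intro m hm
    have h3 := (d3_start (T := T) h1 h2 m).trans
      (sim_run (p1 := p1) (a2 := a2) k m (A.num m) j hm.le hlt)
    refine ⟨_, h3, ?_⟩
    have h5 : m - j = (m - (j + 1)) + 1 := by omega
    rw [h5]
    exact Ops.DK.halt _ hj _ _ _
  -- the other case
  have key2 : ∀ d m, j + 1 - m = d →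
      ∃ D', ReflTransGen (A.DS T p1 a2) (A.c1 (A.num m)) D' ∧ A.DK T D' := by
    intro d
    induction d with
    | zero => exact fun m hm => key m (by omega)
    | succ d ih =>
      intro m hm
      obtain ⟨D', h3, h4⟩ := ih (m + 1) (by omega)
      exact ⟨D', (round h1 h2 m fun i hi => hlt i (by omega)).trans h3, h4⟩
  exact key2 _ m rfl

/-- PV-D3e.  If the machine does not halt then `c1 Z` reaches all canonical states.
PROOF. Induction on `m` with D3c. -/
theorem canon_reach {p1 : Prop} {a2 : M → Prop} (h1 : p1) {k : ℕ} (h2 : a2 (A.num k))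
    (hk : ¬ T.Halts k) (m : ℕ) : ReflTransGen (A.DS T p1 a2) (A.c1 A.Z) (A.c1 (A.num m)) := by
  have h : ∀ i, T.halt (T.run k i).1 = false := fun i => by
    by_contra h3
    exact hk ⟨i, Bool.not_eq_false _ ▸ h3⟩
  induction m with
  | zero => exact ReflTransGen.refl
  | succ m ih => exact ih.trans (round h1 h2 m fun i _ => h i)

/-- PV-D3f.  If the machine does not halt then a run from a canonical state neither stops nor is killed.
PROOF. Invariant of the run (all states `c1 (num m)`, `c2 (num m)`, `st (num m) (num s) (xs k j)` with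
`m, s, j` arbitrary): by determinism (D1f, with `ha`) the successor of such a state is again of this
form and exists; none of them is `DK` (its state is `halt`: `hk`; D1a for the tag). Induction on
`ReflTransGen`. -/
theorem canon_loop (hA : Free A) {p1 : Prop} {a2 : M → Prop} (h1 : p1) {k : ℕ}
    (ha : ∀ a, a2 a ↔ a = A.num k) (hk : ¬ T.Halts k) {m : ℕ} {D' : M}
    (h : ReflTransGen (A.DS T p1 a2) (A.c1 (A.num m)) D') :
    ¬ A.DK T D' ∧ ∃ D'', A.DS T p1 a2 D' D'' := by
  have hh : ∀ i, T.halt (T.run k i).1 = false := fun i => by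
    by_contra h3
    exact hk ⟨i, Bool.not_eq_false _ ▸ h3⟩
  have ha2 : a2 (A.num k) := (ha _).2 rfl
  have hdet : ∀ a a', a2 a → a2 a' → a = a' := fun a a' h3 h4 =>
    ((ha a).1 h3).trans ((ha a').1 h4).symm
  -- the successors
  have succ3 : ∀ m s j, ∃ D'', A.DS T p1 a2 (A.st (A.num m) (A.num s) (xs A T k j)) D'' ∧
      ((∃ m, D'' = A.c1 (A.num m)) ∨ (∃ m, D'' = A.c2 (A.num m)) ∨
        ∃ m s j, D'' = A.st (A.num m) (A.num s) (xs A T k j)) := by
    intro m s j
    cases s with
    | zero => exact ⟨_, Ops.DS.rst _ _, Or.inl ⟨m + 1, rfl⟩⟩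
    | succ s =>
      have h2 := sim_num (A := A) (T := T) (p1 := p1) (a2 := a2) (T.run k j).1 (T.run k j).2
        (A.num m) (A.num s) (hh j)
      have h3 : T.step (T.run k j) = T.run k (j + 1) := (Function.iterate_succ_apply' _ _ _).symm
      refine ⟨_, h2, Or.inr (Or.inr ⟨m, s, j + 1, ?_⟩)⟩
      unfold xs
      rw [← h3]
  have inv : (∃ m, D' = A.c1 (A.num m)) ∨ (∃ m, D' = A.c2 (A.num m)) ∨
      ∃ m s j, D' = A.st (A.num m) (A.num s) (xs A T k j) := by
    induction h with
    | refl => exact Or.inl ⟨m, rfl⟩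
    | tail _ hs ih =>
      rcases ih with ⟨m, rfl⟩ | ⟨m, rfl⟩ | ⟨m, s, j, rfl⟩
      · exact Or.inr (Or.inl ⟨m, (ds_c1_inv hA hs).2⟩)
      · obtain ⟨a, h3, h4⟩ := ds_c2_inv hA hs
        rw [(ha a).1 h3, ← xs_zero] at h4
        exact Or.inr (Or.inr ⟨m, m, 0, h4⟩)
      · obtain ⟨D'', h3, h4⟩ := succ3 m s j
        rw [ds_det hA hdet hs h3]
        exact h4
  rcases inv with ⟨m, rfl⟩ | ⟨m, rfl⟩ | ⟨m, s, j, rfl⟩
  · refine ⟨fun hd => ?_, _, Ops.DS.v1 h1 _⟩
    generalize hxx : A.c1 (A.num m) = X at hd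
    obtain ⟨q, hq, r, t, s⟩ := hd
    have := num_inj hA (hA.inj hxx).1
    omega
  · refine ⟨fun hd => ?_, _, Ops.DS.v2 _ ha2 _⟩
    generalize hxx : A.c2 (A.num m) = X at hd
    obtain ⟨q, hq, r, t, s⟩ := hd
    have := num_inj hA (hA.inj hxx).1
    omega
  · obtain ⟨D'', h3, -⟩ := succ3 m s j
    refine ⟨fun hd => ?_, D'', h3⟩
    generalize hxx : A.st (A.num m) (A.num s) (xs A T k j) = X at hd
    obtain ⟨q, hq, r, t, s'⟩ := hd
    have h4 := (hA.inj (hA.inj (hA.inj hxx).2).2).2
    have h5 : (T.run k j).1 = q := Fin.val_injective (num_inj hA (hA.inj h4).1)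
    have h6 := hh j
    rw [h5, hq] at h6
    cases h6

end Pool.Agent.helper24.PV
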