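import Pool.Agent.helper24.PV.C1
import Pool.Agent.helper24.PV.D3
/-! PV-C2: normal forms. -/
set_option autoImplicit false
namespace Pool.Agent.helper24.PV
variable {M V : Type} {A : Ops M} {T : RM}
open Relation

private theorem C2_marks {s : M → Prop} (hs : ∀ x y, s (A.nd x y) ↔ s x ∧ s y) (hO : s A.O)
    (k : ℕ) (a : M) : s (A.marks k a) ↔ s a := by
  induction k with
  | zero => exact Iff.rfl
  | succ k ih =>
    show s (A.nd A.O (A.marks k a)) ↔ s a
    rw [hs, ih]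
    exact ⟨fun h => h.2, fun h => ⟨hO, h⟩⟩

private theorem C2_run_mem (s : M → Prop) (hs : ∀ x y, s (A.nd x y) ↔ s x ∧ s y) (hZ : s A.Z)
    (hO : s A.O) {p1 : Prop} {a2 : M → Prop} (h2 : ∀ a, a2 a → s a) {x y : M}
    (h : ReflTransGen (A.DS T p1 a2) x y) (hx : s x) : s y := by
  induction h with
  | refl => exact hx
  | tail _ h ih => exact ds_mem s hs hZ hO h2 h ih

private theorem C2_stuck_eq {p1 : Prop} {a2 : M → Prop} {x y : M}
    (h : ReflTransGen (A.DS T p1 a2) x y) (hx : ∀ z, ¬ A.DS T p1 a2 x z) : x = y := by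
  rcases ReflTransGen.cases_head h with h | ⟨z, hz, -⟩
  · exact h
  · exact absurd hz (hx z)

private theorem C2_P1 (hA : Free A) {ab : M → V} {cm : M → M → Prop}
    (hcm : ∀ y y', cm y y' → ab y = ab y') {N : M} {W : Win M V} (hW : A.HasWin ab N W) :
    A.P1 cm N = (W.a0 = A.Z) := propext (P1_iff hA hcm hW)

private theorem C2_A2 (hA : Free A) {ab : M → V} {cm : M → M → Prop}
    (hcm : ∀ y y', cm y y' → ab y = ab y') {N : M} {W : Win M V} (hW : A.HasWin ab N W) :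
    A.A2 cm N = fun a => W.b0 = A.Z ∧ a = A.marks W.S.card W.a0 :=
  funext fun a => propext (A2_iff hA hcm hW a)

private theorem C2_P1' {cm : M → M → Prop} {N : M} (hN : ¬ A.IsZip N) : A.P1 cm N = False :=
  propext ⟨(P1_A2_of_not_isZip hN).1, False.elim⟩

private theorem C2_A2' {cm : M → M → Prop} {N : M} (hN : ¬ A.IsZip N) :
    A.A2 cm N = fun _ => False :=
  funext fun a => propext ⟨(P1_A2_of_not_isZip hN).2 a, False.elim⟩

/-- PV-C2a.  Completeness: every configuration is dead or equivalent to a normal form (inside a set `s`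
closed under pairs and components).
PROOF. `Y` not a pair: `n1`.  `Y = nd N D`.
(1) `N` no zipper: D2d for `DS False (fun _ => False)`: `D →* D'` without successor; `REq (nd N D) (nd N D')`
by C1e (D1h; `P1 N`, `A2 N` are false by N4c, so the two relations are the same).  If `DK D'` then dead,
otherwise `n2`.
(2) `N` a zipper: window `W` (N1a).  If `W.S` is not `Nodup`: N3d, C1c, `RK.nk`: dead.  Otherwise D2d for
`p1 := P1 N`, `a2 := A2 N`: `D →* D'`.  Stuck: if `DK D'` dead, otherwise `n3` with `Stuck` (translate with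
N4a, N4b and D1h).  Canonical: `D' = c1 (num m)`, `P1 N`, `A2 N a`; `a0 = Z`, `b0 = Z`, `a = num (card S)`
(N4a, N4b).  If `Halts (card S)`: D3d: dead.  Otherwise D3e: `REq (nd N (c1 Z)) (nd N D')`, `n3` canonical.
`s`: D1i (`a2 a → s a` because `a = marks .. a0` is built from components of `N`; use N4b and
`s N`). -/
theorem complete (hA : Free A) {ab : M → V} {cm : M → M → Prop}
    (hcm : ∀ y y', cm y y' → ab y = ab y') (hcm' : ∀ y y', ab y = ab y' → EqvGen cm y y')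
    (s : M → Prop) (hs : ∀ x y, s (A.nd x y) ↔ s x ∧ s y) (hZ : s A.Z) (hO : s A.O) (Y : M) (hY : s Y) :
    A.Dead T cm Y ∨ ∃ Y', s Y' ∧ A.REq T cm Y Y' ∧ A.Nrm T ab Y' := by
  by_cases hp : ∃ x y, Y = A.nd x y
  swap
  · exact Or.inr ⟨Y, hY, EqvGen.refl Y, Ops.Nrm.n1 Y fun x y e => hp ⟨x, y, e⟩⟩
  obtain ⟨N, D, rfl⟩ := hp
  obtain ⟨hN, hD⟩ := (hs N D).1 hY
  obtain ⟨D', hrun, halt⟩ := ds_term (T := T) hA (p1 := A.P1 cm N) (a2 := A.A2 cm N) D
  by_cases hz : A.IsZip N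
  swap
  · -- no zipper
    rw [C2_P1' hz, C2_A2' hz] at halt
    have hD' : s D' := by
      refine C2_run_mem s hs hZ hO (fun a ha => ?_) hrun hD
      exact absurd ha ((P1_A2_of_not_isZip hz).2 a)
    rcases halt with halt | ⟨h1, -⟩
    · by_cases hk : A.DK T D'
      · exact Or.inl ⟨A.nd N D', REq_run hrun, Ops.RK.dk N D' hk⟩
      · exact Or.inr ⟨A.nd N D', (hs _ _).2 ⟨hN, hD'⟩, REq_run hrun,
          Ops.Nrm.n2 N D' hz ⟨halt, hk⟩⟩
    · exact h1.elim
  obtain ⟨W, hW⟩ := exists_win hA ab hz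
  by_cases hS : W.S.Nodup
  swap
  · obtain ⟨N', hN', hk⟩ := killed_of_win hcm' hW hS
    exact Or.inl ⟨A.nd N' D, REq_names hN' D, Ops.RK.nk N' D hk⟩
  have h2 : ∀ a, A.A2 cm N a → s a := by
    intro a ha
    rw [C2_A2 hA hcm hW] at ha
    obtain ⟨-, rfl⟩ := ha
    rw [C2_marks hs hO]
    obtain ⟨l1, l2, e, -, -, -⟩ := hW
    rw [e] at hN
    have h3 := ((hs _ _).1 ((hs _ _).1 hN).1).2
    rwa [C2_marks hs hO] at h3
  have hD' : s D' := C2_run_mem s hs hZ hO h2 hrun hD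
  rcases halt with halt | ⟨h1, ⟨a, ha⟩, m, rfl⟩
  · by_cases hk : A.DK T D'
    · exact Or.inl ⟨A.nd N D', REq_run hrun, Ops.RK.dk N D' hk⟩
    · refine Or.inr ⟨A.nd N D', (hs _ _).2 ⟨hN, hD'⟩, REq_run hrun,
          Ops.Nrm.n3 N D' W hW hS (Or.inl ⟨?_, hk⟩)⟩
      rw [C2_P1 hA hcm hW, C2_A2 hA hcm hW] at halt
      exact halt
  · have ha0 : W.a0 = A.Z := by
      have h3 := h1
      rw [C2_P1 hA hcm hW] at h3
      exact h3
    have hab : W.b0 = A.Z ∧ a = A.marks W.S.card W.a0 := by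
      have h3 := ha
      rw [C2_A2 hA hcm hW] at h3
      exact h3
    have ha' : A.A2 cm N (A.num W.S.card) := by
      have h3 : a = A.num W.S.card := by
        rw [hab.2, ha0]
        rfl
      rwa [h3] at ha
    by_cases hk : T.Halts W.S.card
    · obtain ⟨D'', hr, hd⟩ := canon_halts (T := T) h1 ha' hk m
      exact Or.inl ⟨A.nd N D'', REq_run (hrun.trans hr), Ops.RK.dk N D'' hd⟩
    · refine Or.inr ⟨A.nd N (A.c1 A.Z), ?_, ?_,
        Ops.Nrm.n3 N _ W hW hS (Or.inr ⟨ha0, hab.1, rfl, hk⟩)⟩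
      · refine (hs _ _).2 ⟨hN, (hs _ _).2 ⟨?_, hZ⟩⟩
        exact hZ
      · exact (REq_run hrun).trans _ _ _ (REq_run (canon_reach (T := T) h1 ha' hk m)).symm

private theorem C2_pair (hA : Free A) {ab : M → V} {cm : M → M → Prop}
    (hcm : ∀ y y', cm y y' → ab y = ab y') {Y N' D' : M} (he : A.REq T cm Y (A.nd N' D')) :
    ∃ N D, Y = A.nd N D ∧ A.NEq cm N N' ∧
      ∃ E, ReflTransGen (A.DS T (A.P1 cm N) (A.A2 cm N)) D E ∧
        ReflTransGen (A.DS T (A.P1 cm N) (A.A2 cm N)) D' E := by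
  rcases (REq_iff hA hcm).1 he with rfl | ⟨N, D, N1, D1, rfl, e, hN, E, hE, hE'⟩
  · exact ⟨N', D', rfl, EqvGen.refl _, D', ReflTransGen.refl, ReflTransGen.refl⟩
  · obtain ⟨rfl, rfl⟩ := hA.inj e
    exact ⟨N, D, rfl, hN, E, hE, hE'⟩

private theorem C2_inv (hA : Free A) {ab : M → V} {N D : M} (h : A.Nrm T ab (A.nd N D)) :
    (¬ A.IsZip N ∧ A.Stuck T False (fun _ => False) D) ∨ ∃ W, A.HasWin ab N W ∧ W.S.Nodup ∧
      (A.Stuck T (W.a0 = A.Z) (fun a => W.b0 = A.Z ∧ a = A.marks W.S.card W.a0) D ∨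
        (W.a0 = A.Z ∧ W.b0 = A.Z ∧ D = A.c1 A.Z ∧ ¬ T.Halts W.S.card)) := by
  generalize hY : A.nd N D = Y at h
  cases h with
  | n1 _ h => exact absurd hY.symm (h N D)
  | n2 N1 D1 hz hD =>
    obtain ⟨rfl, rfl⟩ := hA.inj hY
    exact Or.inl ⟨hz, hD⟩
  | n3 N1 D1 W hW hS hD =>
    obtain ⟨rfl, rfl⟩ := hA.inj hY
    exact Or.inr ⟨W, hW, hS, hD⟩

private theorem C2_isZip {ab : M → V} {N : M} {W : Win M V} (h : A.HasWin ab N W) :
    A.IsZip N := by
  obtain ⟨l1, l2, e, -⟩ := h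
  exact ⟨_, _, _, _, e⟩

private theorem C2_canon (hA : Free A) {W : Win M V} (ha : W.a0 = A.Z) (hb : W.b0 = A.Z)
    (hh : ¬ T.Halts W.S.card) {E : M}
    (h : ReflTransGen (A.DS T (W.a0 = A.Z) (fun a => W.b0 = A.Z ∧ a = A.marks W.S.card W.a0))
      (A.c1 A.Z) E) : ¬ A.DK T E ∧
      ∃ D'', A.DS T (W.a0 = A.Z) (fun a => W.b0 = A.Z ∧ a = A.marks W.S.card W.a0) E D'' := by
  refine canon_loop (T := T) hA (k := W.S.card) (m := 0) ha ?_ hh h
  intro a
  rw [ha]
  exact ⟨fun h => h.2, fun h => ⟨hb, h⟩⟩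

/-- PV-C2b.  Normal forms are alive.
PROOF. Suppose `REq Y Y'` and `RK Y'`; by C1f (`Y = Y'` or pairs).  `n1`: `Y = Y'` is not a pair, but `RK` is.
`Y = nd N D`, `Y' = nd N' D'`, `NEq N N'`, `D, D'` have a common descendant.  `RK Y'` by `nk`: `NK N'`:
`N'` is a zipper (N2f), hence `N` is (N2e), so we are in `n3` and `N'` has the window `W` (N2b): contradiction to
N2c.  `RK Y'` by `dk`: `DK D'`: no successor (D1g), so `D →* D'`; `D` stuck: `D = D'` contradiction;
canonical: D3f (with N4a, N4b for `ha`: `marks (card S) Z = num (card S)`). -/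
theorem nrm_alive (hA : Free A) {ab : M → V} {cm : M → M → Prop}
    (hcm : ∀ y y', cm y y' → ab y = ab y') {Y : M} (h : A.Nrm T ab Y) : ¬ A.Dead T cm Y := by
  rintro ⟨Y', he, hk⟩
  -- reduce to pairs
  obtain ⟨N', D', rfl, hk'⟩ : ∃ N' D', Y' = A.nd N' D' ∧ (A.NK N' ∨ A.DK T D') := by
    cases hk with
    | nk N D h => exact ⟨N, D, rfl, Or.inl h⟩
    | dk N D h => exact ⟨N, D, rfl, Or.inr h⟩
  obtain ⟨N, D, rfl, hN, E, hE, hE'⟩ := C2_pair hA hcm he
  rcases C2_inv hA h with ⟨hz, hD⟩ | ⟨W, hW, hS, hD⟩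
  · rw [C2_P1' hz, C2_A2' hz] at hE hE'
    rcases hk' with hk' | hk'
    · have h1 := eq_of_not_isZip hN hz
      subst h1
      exact hz (isZip_of_NK hk')
    · have h1 := C2_stuck_eq hE' (fun z => dk_stuck hA hk')
      have h2 := C2_stuck_eq hE hD.1
      subst h1
      subst h2
      exact hD.2 hk'
  · rcases hk' with hk' | hk'
    · exact not_nodup_of_NK hA hk' ((win_of_NEq hA hcm hN W).1 hW) hS
    · have h1 := C2_stuck_eq hE' (fun z => dk_stuck hA hk')
      subst h1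
      rcases hD with hD | ⟨ha, hb, rfl, hh⟩
      · rw [C2_P1 hA hcm hW, C2_A2 hA hcm hW] at hE
        have h2 := C2_stuck_eq hE hD.1
        subst h2
        exact hD.2 hk'
      · rw [C2_P1 hA hcm hW, C2_A2 hA hcm hW] at hE
        exact (C2_canon hA ha hb hh hE).1 hk'

/-- PV-C2c.  Equivalent normal forms are the same.
PROOF. C1f.  `Y = Y'`: `Same.refl`.  `Y = nd N D`, `Y' = nd N' D'`, `NEq N N'`, `D →* E`, `D' →* E`.
If `N` is no zipper then `N = N'` (N2e), both are `n2`, `D = E = D'` since stuck (translate with N4c, D1h).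
If `N` is a zipper then both are `n3` with the same window (N2b, N1b), so the two data relations agree
(N4a, N4b, C1a, C1b).  Both stuck: `D = E = D'`, `Same.win`.  Both canonical: `D = D' = c1 Z`.
One canonical and one stuck: `E` is the stuck one, contradiction to D3f. -/
theorem same_of_REq (hA : Free A) {ab : M → V} {cm : M → M → Prop}
    (hcm : ∀ y y', cm y y' → ab y = ab y') {Y Y' : M} (h : A.Nrm T ab Y) (h' : A.Nrm T ab Y')
    (he : A.REq T cm Y Y') : A.Same ab Y Y' := by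
  rcases (REq_iff hA hcm).1 he with rfl | ⟨N, D, N', D', rfl, rfl, hN, E, hE, hE'⟩
  · exact Ops.Same.refl _
  rcases C2_inv hA h with ⟨hz, hD⟩ | ⟨W, hW, hS, hD⟩
  · -- no zipper
    have h1 := eq_of_not_isZip hN hz
    subst h1
    rw [C2_P1' hz, C2_A2' hz] at hE hE'
    rcases C2_inv hA h' with ⟨-, hD'⟩ | ⟨W, hW, -, -⟩
    · have h1 := C2_stuck_eq hE hD.1
      have h2 := C2_stuck_eq hE' hD'.1
      rw [h1, h2]
      exact Ops.Same.refl _
    · exact absurd (C2_isZip hW) hz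
  · have hW' := (win_of_NEq hA hcm hN W).1 hW
    rcases C2_inv hA h' with ⟨hz', -⟩ | ⟨W', hW'', -, hD'⟩
    · exact absurd (C2_isZip hW') hz'
    obtain rfl := win_unique hA hW' hW''
    rw [C2_P1 hA hcm hW, C2_A2 hA hcm hW] at hE hE'
    have key : D = D' := by
      rcases hD with hD | ⟨ha, hb, rfl, hh⟩
      · have h1 := C2_stuck_eq hE hD.1
        rcases hD' with hD' | ⟨ha, hb, rfl, hh⟩
        · have h2 := C2_stuck_eq hE' hD'.1
          rw [h1, h2]
        · subst h1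
          obtain ⟨D'', h3⟩ := (C2_canon hA ha hb hh hE').2
          exact absurd h3 (hD.1 D'')
      · rcases hD' with hD' | ⟨-, -, rfl, -⟩
        · have h2 := C2_stuck_eq hE' hD'.1
          subst h2
          obtain ⟨D'', h3⟩ := (C2_canon hA ha hb hh hE).2
          exact absurd h3 (hD'.1 D'')
        · rfl
    rw [key]
    exact Ops.Same.win N N' D' W hW hW'

/-- PV-C2d. PROOF. cases; N3c, C1c. -/
theorem REq_of_same {ab : M → V} {cm : M → M → Prop}
    (hcm' : ∀ y y', ab y = ab y' → EqvGen cm y y') {Y Y' : M} (h : A.Same ab Y Y') :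
    A.REq T cm Y Y' := by
  cases h with
  | refl => exact EqvGen.refl _
  | win N N' D W h h' => exact REq_names (NEq_of_win hcm' h h') D

/-- PV-C2e.  The configurations of the undecidability proof: `k` distinct names.
PROOF. `HasWin` with `l1 = []`, `l2 = l`, `W = ⟨Z, Z, Z, Z, l.map ab⟩` (`¬ Pop Z Z` by `hA.Z_ne`).
`Halts`: D3d with `P1`, `A2` (N4a, N4b) and C1e: dead.  Otherwise `n3` and C2b. -/
theorem start_dead_iff (hA : Free A) {ab : M → V} {cm : M → M → Prop}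
    (hcm : ∀ y y', cm y y' → ab y = ab y') {l : List M} (hl : (l.map ab).Nodup) :
    A.Dead T cm (A.nd (A.zip A.Z A.Z (A.enc l A.Z) (A.num l.length)) (A.c1 A.Z)) ↔ T.Halts l.length := by
  have hpop : ¬ A.Pop A.Z A.Z := by
    rintro ⟨⟨y, L', e⟩, -⟩
    exact hA.Z_ne _ _ e.symm
  have hW : A.HasWin ab (A.zip A.Z A.Z (A.enc l A.Z) (A.num l.length))
      ⟨A.Z, A.Z, A.Z, A.Z, (l.map ab : List V)⟩ := ⟨[], l, rfl, hpop, hpop, rfl⟩
  have hcard : Multiset.card ((l.map ab : List V) : Multiset V) = l.length := by simp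
  constructor
  · intro hd
    by_contra hk
    refine nrm_alive hA hcm (Ops.Nrm.n3 _ _ _ hW (Multiset.coe_nodup.2 hl)
      (Or.inr ⟨rfl, rfl, rfl, ?_⟩)) hd
    rw [hcard]
    exact hk
  · intro hk
    have h1 := (P1_iff hA hcm hW).2 rfl
    have h2 : A.A2 cm (A.zip A.Z A.Z (A.enc l A.Z) (A.num l.length)) (A.num l.length) := by
      refine (A2_iff hA hcm hW _).2 ⟨rfl, ?_⟩
      show _ = A.marks (Multiset.card ((l.map ab : List V) : Multiset V)) A.Z
      rw [hcard]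
      rfl
    obtain ⟨D', hr, hd⟩ := canon_halts (T := T) h1 h2 hk 0
    exact ⟨_, REq_run hr, Ops.RK.dk _ _ hd⟩

end Pool.Agent.helper24.PV
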