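import Pool.Agent.helper24.PV.GDefs
/-! PV-G2: names. -/
set_option autoImplicit false
namespace Pool.Agent.helper24.PV
open Pool.Agent.helper4.PV Pool.Agent.helper50.BW Pool.Agent.helper47.PV

/-- PV-G2a. PROOF. `Abelianization.of` kills commutators. -/
theorem abG_of_cm {G : Type} [Group G] {y y' : G} (h : cmG y y') : abG y = abG y' := by
  obtain ⟨u, v, rfl⟩ := h
  unfold abG
  simp only [map_mul, map_inv]
  rw [mul_comm (Abelianization.of u) (Abelianization.of v)]
  group

/-- PV-G2b.  Names with the same class are connected by commutator moves.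
PROOF. `abG y = abG y'` iff `y⁻¹ * y' ∈ commutator G` (`QuotientGroup.eq`).  The set of `c` with
`∀ y, EqvGen cmG y (y * c)` is a subgroup containing all commutators `u * v * u⁻¹ * v⁻¹`
(`commutator_eq_closure`, `Subgroup.closure_induction`). -/
theorem eqvGen_of_ab {G : Type} [Group G] {y y' : G} (h : abG y = abG y') :
    Relation.EqvGen cmG y y' := by
  have h1 : y⁻¹ * y' ∈ commutator G := QuotientGroup.eq.1 h
  have key : ∀ c ∈ commutator G, ∀ z : G, Relation.EqvGen cmG z (z * c) := by
    intro c hc
    rw [commutator_eq_closure] at hc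
    induction hc using Subgroup.closure_induction with
    | mem x hx =>
      intro z
      obtain ⟨u, v, rfl⟩ := hx
      exact Relation.EqvGen.rel _ _ ⟨u, v, by rw [commutatorElement_def]⟩
    | one => intro z; rw [mul_one]; exact Relation.EqvGen.refl _
    | mul a b _ _ iha ihb =>
      intro z
      rw [← mul_assoc]
      exact Relation.EqvGen.trans _ _ _ (iha z) (ihb (z * a))
    | inv a _ iha =>
      intro z
      have := iha (z * a⁻¹)
      rw [inv_mul_cancel_right] at this
      exact Relation.EqvGen.symm _ _ this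
  have := key _ h1 y
  rwa [mul_inv_cancel_left] at this

/-- PV-G2e.  Different generators are different names. PROOF. `helper47.PV.exB`. -/
theorem abG_X_inj {d : ℕ} (hd : 2 ≤ d) {i j : ℕ}
    (h : abG (QuotientGroup.mk (X i) : BB d) = abG (QuotientGroup.mk (X j) : BB d)) : i = j := by
  have hd0 : 0 < d := by omega
  by_contra hij
  have h1 : (QuotientGroup.mk (X i) : BB d)⁻¹ * QuotientGroup.mk (X j) ∈ commutator (BB d) :=
    QuotientGroup.eq.1 h
  have h2 : commutator (BB d) ≤ (exB d hd0 i).ker := Abelianization.commutator_subset_ker _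
  have h3 := h2 h1
  rw [MonoidHom.mem_ker, map_mul, map_inv] at h3
  have h4 : ∀ k, exB d hd0 i (QuotientGroup.mk (X k) : BB d)
      = Multiplicative.ofAdd (if k = i then (1 : ZMod d) else 0) := by
    intro k
    show exq d i (FreeGroup.of k) = _
    unfold exq
    rw [FreeGroup.lift_apply_of]
  rw [h4, h4, if_pos rfl, if_neg (Ne.symm hij)] at h3
  have h5 : (1 : ZMod d) = 0 := by
    have := congrArg Multiplicative.toAdd h3
    simpa using this
  haveI : Fact (1 < d) := ⟨by omega⟩
  exact one_ne_zero h5

/-- PV-G2f.  Elements of rank `n` are words in `n` letters. PROOF. (⇒) Closure induction.  (⇐) induction on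
the word. -/
theorem mem_Bn_iff {n d : ℕ} {x : BB d} : x ∈ Bn n d ↔ ∃ w, Ltr n w ∧ wl d w = x := by
  constructor
  · intro hx
    unfold Bn at hx
    induction hx using Subgroup.closure_induction with
    | mem x hx =>
      obtain ⟨i, hi, rfl⟩ := hx
      refine ⟨[(i, true)], ?_, rfl⟩
      intro p hp
      simp only [List.mem_singleton] at hp
      rw [hp]
      exact hi
    | one => exact ⟨[], by intro p hp; simp at hp, wl_nil⟩
    | mul a b _ _ iha ihb =>
      obtain ⟨u, hu, rfl⟩ := iha
      obtain ⟨v, hv, rfl⟩ := ihb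
      refine ⟨u ++ v, ?_, wl_append u v⟩
      intro p hp
      rcases List.mem_append.1 hp with hp | hp
      · exact hu p hp
      · exact hv p hp
    | inv a _ iha =>
      obtain ⟨u, hu, rfl⟩ := iha
      exact ⟨FreeGroup.invRev u, LtN.invRev (n := n) hu, wl_invRev u⟩
  · rintro ⟨w, hw, rfl⟩
    induction w with
    | nil => exact one_mem _
    | cons a w ih =>
      have h1 : wl d (a :: w) = wl d [a] * wl d w := wl_append [a] w
      rw [h1]
      refine mul_mem ?_ (ih fun p hp => hw p (List.mem_cons_of_mem _ hp))
      have ha : a.1 < n := hw a List.mem_cons_self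
      obtain ⟨j, b⟩ := a
      have hj : (QuotientGroup.mk (X j) : BB d) ∈ Bn n d := Subgroup.subset_closure ⟨j, ha, rfl⟩
      cases b
      · have : wl d [(j, false)] = (QuotientGroup.mk (X j) : BB d)⁻¹ := rfl
        rw [this]
        exact inv_mem hj
      · exact hj

/-- PV-G2g.  At most `d ^ n` names in rank `n`.
PROOF. The map `y ↦ (exB d hd i y)_{i < n}` from `BB d` to `Fin n → Multiplicative (ZMod d)` factors through
`abG` and is injective on classes of elements of `Bn n d`: such an element is `wl d w`, `w` in the letters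
`< n` (G2f); if the values agree for `i < n` they agree for all `i` (the letters `≥ n` do not occur), so
`u ++ invRev v` satisfies `EZ` (`exB_wl`, `EZ_iff`, `ZMod.natCast_eq_natCast_iff'`) and
`wl_mem_commutator`.  So the list of value vectors is `Nodup`, and there are `d ^ n` vectors
(`List.Nodup.length_le_card`). -/
theorem names_le {n d : ℕ} (hd : 0 < d) {l : List (BB d)} (hl : ∀ y ∈ l, y ∈ Bn n d)
    (hn : (l.map abG).Nodup) : l.length ≤ d ^ n := by
  haveI : NeZero d := ⟨by omega⟩
  let F : BB d → (Fin n → ZMod d) := fun y i => (exB d hd i y).toAdd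
  have hinj : ∀ y ∈ l, ∀ z ∈ l, F y = F z → abG y = abG z := by
    intro y hy z hz hF
    obtain ⟨u, hu, rfl⟩ := mem_Bn_iff.1 (hl y hy)
    obtain ⟨v, hv, rfl⟩ := mem_Bn_iff.1 (hl z hz)
    have h1 : (wl d u)⁻¹ * wl d v = wl d (FreeGroup.invRev u ++ v) := by
      rw [wl_append, wl_invRev]
    have h2 : wl d (FreeGroup.invRev u ++ v) ∈ commutator (BB d) := by
      rw [wl_mem_commutator hd]
      intro a ha
      have han : a.1 < n := by
        rcases List.mem_append.1 ha with ha | ha
        · exact LtN.invRev (n := n) hu a ha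
        · exact hv a ha
      have h3 := exB_wl hd a.1 (FreeGroup.invRev u ++ v)
      have h4 : (exB d hd a.1 (wl d (FreeGroup.invRev u ++ v))).toAdd = 0 := by
        rw [← h1, map_mul, map_inv, toAdd_mul, toAdd_inv]
        have h5 := congrFun hF ⟨a.1, han⟩
        simp only [F] at h5
        rw [h5]
        exact neg_add_cancel _
      rw [h4] at h3
      exact (ZMod.natCast_eq_natCast_iff _ _ _).1 (sub_eq_zero.1 h3.symm)
    rw [← h1] at h2
    exact QuotientGroup.eq.2 h2
  have hnd : (l.map F).Nodup := by
    have hl' : l.Nodup := List.Nodup.of_map _ hn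
    refine List.Nodup.map_on ?_ hl'
    intro y hy z hz hF
    exact List.inj_on_of_nodup_map hn hy hz (hinj y hy z hz hF)
  have h := List.Nodup.length_le_card hnd
  rw [List.length_map, Fintype.card_fun, ZMod.card, Fintype.card_fin] at h
  exact h

end Pool.Agent.helper24.PV
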