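import Pool.Agent.helper24.PV.G3
import Pool.Agent.helper47.PV.ToolG
/-! PV-G3 (second part): admissible functions and rules. -/
set_option autoImplicit false
namespace Pool.Agent.helper24.PV
open Pool.Agent.helper4.PV Pool.Agent.helper50.BW Pool.Agent.helper47.PV
variable {P : Par} {T : RM} {d : ℕ}

/-- PV-G3d.  Admissible functions from the rules. PROOF. G3c; `μ 1 = μ (x ^ 0) = 0`. -/
theorem adm_of {μ : BB d → ZMod d} (hc : ∀ g x, μ (g * x * g⁻¹) = μ x)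
    (hp : ∀ x (k : ℕ), μ (x ^ k) = k * μ x)
    (hb : ∀ (a : BB d) (j : ℕ) (z : BB d), μ (Wt P a (a ^ j) z) = 0)
    (hs : ∀ a b Y Y' : BB d, (ops P a b).RS T cmG Y Y' → μ (Wt P a b Y) = μ (Wt P a b Y'))
    (hk : ∀ a b Y : BB d, (ops P a b).RK T Y → μ (Wt P a b Y) = 0) : Adm P T d μ := by
  have h1 : μ 1 = 0 := by
    have h := hp 1 0
    simpa using h
  refine ⟨hc, hp, fun p hpm φ => ?_⟩
  rcases law_cases hpm φ with ⟨a, b, Y, Y', h, e1, e2⟩ | ⟨a, b, Y, h, e1, e2⟩ | ⟨a, j, z, e1, e2⟩ | ⟨e1, e2⟩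
  · rw [e1, e2]; exact hs a b Y Y' h
  · rw [e1, e2, h1]; exact hk a b Y h
  · rw [e1, e2, h1]; exact hb a j z
  · rw [e1, e2]

theorem Adm.map_one {μ : BB d → ZMod d} (hμ : Adm P T d μ) : μ 1 = 0 := by
  have h := hμ.pow 1 0
  simpa using h

/-- PV-G3e.  PROOF. G3a, `Adm.law`, induction on `EqvGen`. -/
theorem adm_REq {μ : BB d → ZMod d} (hμ : Adm P T d μ) {a b Y Y' : BB d}
    (h : (ops P a b).REq T cmG Y Y') : μ (Wt P a b Y) = μ (Wt P a b Y') := by
  induction h with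
  | rel x y h =>
    obtain ⟨p, hp, φ, e1, e2⟩ := law_of_RS (d := d) h
    rw [← e1, ← e2]
    exact hμ.law p hp φ
  | refl x => rfl
  | symm x y _ ih => exact ih.symm
  | trans x y z _ _ ih1 ih2 => exact ih1.trans ih2

/-- PV-G3f.  PROOF. G3e, G3b, `μ 1 = 0`. -/
theorem adm_Dead {μ : BB d → ZMod d} (hμ : Adm P T d μ) {a b Y : BB d}
    (h : (ops P a b).Dead T cmG Y) : μ (Wt P a b Y) = 0 := by
  obtain ⟨Y', h1, h2⟩ := h
  rw [adm_REq hμ h1]
  obtain ⟨p, hp, φ, e1, e2⟩ := law_of_RK (d := d) h2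
  rw [← e1, hμ.law p hp φ, e2, hμ.map_one]

/-- PV-G3g.  Bad frames: `b` a power of `a`. PROOF. `lawB` with `j % d` (`a ^ d = 1` in `BB d`), `φ` with
`0 ↦ a`, `1 ↦ z`. -/
theorem adm_bad {μ : BB d → ZMod d} (hd : 0 < d) (hμ : Adm P T d μ) (a : BB d) (j : ℕ) (z : BB d) :
    μ (Wt P a (a ^ j) z) = 0 := by
  have hj : a ^ j = a ^ (j % d) := by
    conv_lhs => rw [← Nat.mod_add_div j d, pow_add, pow_mul, pow_d_eq_one, one_pow, mul_one]
  have hlt : j % d < d := Nat.mod_lt _ hd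
  set φ : FreeGroup ℕ →* BB d := FreeGroup.lift (fun i => if i = 0 then a else z) with hφ
  have hmem : lawB P d ⟨j % d, hlt⟩ ∈ lawSet P T d := by
    unfold lawSet
    exact Finset.mem_union_right _ (Finset.mem_image_of_mem _ (Finset.mem_univ _))
  have h := hμ.law _ hmem φ
  have e0 : φ (X 0) = a := by simp [hφ]
  have e1 : φ (X 1) = z := by simp [hφ]
  unfold lawB at h
  simp only [map_Wt, map_pow, e0, e1, map_one] at h
  rw [hj, h, hμ.map_one]

end Pool.Agent.helper24.PV
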