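import Pool.Agent.helper24.PV.G1
import Pool.Agent.helper24.PV.G2
import Pool.Agent.helper24.PV.G3d
import Pool.Agent.helper24.PV.C2
/-! PV-G6: rank `n`; every element is proportional to a normal form. -/
set_option autoImplicit false
namespace Pool.Agent.helper24.PV
open Pool.Agent.helper4.PV Pool.Agent.helper50.BW Pool.Agent.helper47.PV
variable {P : Par} {T : RM} {d : ℕ}

/-- PV-G6a.  Retraction to rank `n`.
PROOF. `FreeGroup.lift (fun i => if i < n then X i else 1)`, maps `Fd` to `Fd`, `QuotientGroup.map`. -/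
theorem exists_retr (n d : ℕ) : ∃ ρ : BB d →* BB d, (∀ x, ρ x ∈ Bn n d) ∧ ∀ x ∈ Bn n d, ρ x = x := by
  classical
  let f : ℕ → BB d := fun i => if i < n then QuotientGroup.mk (X i) else 1
  let φ : FreeGroup ℕ →* BB d := FreeGroup.lift f
  have hφ : ∀ g ∈ Fd d, φ g = 1 := by
    intro g hg
    have hle : Fd d ≤ φ.ker := by
      unfold Fd
      rw [Subgroup.closure_le]
      rintro _ ⟨h, rfl⟩
      show φ (h ^ d) = 1
      rw [map_pow]
      exact BB_pow d _
    exact hle hg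
  refine ⟨QuotientGroup.lift (Fd d) φ hφ, ?_, ?_⟩
  · intro x
    induction x using QuotientGroup.induction_on with
    | H g =>
      show φ g ∈ Bn n d
      induction g using FreeGroup.induction_on with
      | C1 => rw [map_one]; exact one_mem _
      | of i =>
        show φ (FreeGroup.of i) ∈ Bn n d
        have : φ (FreeGroup.of i) = f i := FreeGroup.lift_apply_of
        rw [this]
        by_cases hi : i < n
        · have : f i = QuotientGroup.mk (X i) := if_pos hi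
          rw [this]
          exact Subgroup.subset_closure ⟨i, hi, rfl⟩
        · have : f i = 1 := if_neg hi
          rw [this]
          exact one_mem _
      | inv_of i ih =>
        rw [map_inv]
        exact inv_mem ih
      | mul x y hx hy =>
        rw [map_mul]
        exact mul_mem hx hy
  · have key : Set.EqOn (QuotientGroup.lift (Fd d) φ hφ) (MonoidHom.id (BB d))
        {x | ∃ i < n, x = QuotientGroup.mk (X i)} := by
      rintro _ ⟨i, hi, rfl⟩
      show φ (X i) = QuotientGroup.mk (X i)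
      have : φ (X i) = f i := FreeGroup.lift_apply_of
      rw [this]
      exact if_pos hi
    intro x hx
    exact MonoidHom.eqOn_closure key hx

/-- PV-G6b.  Components of test words of rank `n` have rank `n`.
PROOF. (⇒) `ρ (Wt P a y z) = Wt P a (ρ y) (ρ z) = Wt P a y z` (`map_Wt`), `Wt_inj`.  (⇐) words. -/
theorem Wt_mem_iff (hG : Geo d P) (hd : 2 ≤ d) {n : ℕ} {a y z : BB d} (ha : a ∈ Bn n d) (h : Nd a y z) :
    Wt P a y z ∈ Bn n d ↔ y ∈ Bn n d ∧ z ∈ Bn n d := by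
  obtain ⟨ρ, h1, h2⟩ := exists_retr n d
  constructor
  · intro hW
    have e1 : Wt P a y z = Wt P a (ρ y) (ρ z) := by
      have := h2 _ hW
      rw [map_Wt, h2 a ha] at this
      exact this.symm
    obtain ⟨hy, hz⟩ := Wt_inj hG hd h e1
    rw [hy, hz]
    exact ⟨h1 _, h1 _⟩
  · rintro ⟨hy, hz⟩
    have : ρ (Wt P a y z) = Wt P a y z := by
      rw [map_Wt, h2 a ha, h2 y hy, h2 z hz]
    rw [← this]
    exact h1 _

/-- PV-G6c.  PROOF. G6b twice; `Nd` as in `free_ops`. -/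
theorem nd_mem_iff (hG : Geo d P) (hd : 2 ≤ d) {n : ℕ} {a b x y : BB d} (hab : ¬ Commute a b)
    (ha : a ∈ Bn n d) (hb : b ∈ Bn n d) :
    (ops P a b).nd x y ∈ Bn n d ↔ x ∈ Bn n d ∧ y ∈ Bn n d := by
  have hN1 : Nd a b x := Nd_frame hab x
  have hN2 : ¬ Commute a (Wt P a b x) := fun h => hG.ncomm a b x hN1 h.symm
  have hN3 : Nd a (Wt P a b x) y := Nd_frame hN2 y
  show Wt P a (Wt P a b x) y ∈ Bn n d ↔ _
  rw [Wt_mem_iff hG hd ha hN3, Wt_mem_iff hG hd ha hN1]
  constructor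
  · rintro ⟨⟨-, h1⟩, h2⟩
    exact ⟨h1, h2⟩
  · rintro ⟨h1, h2⟩
    exact ⟨⟨hb, h1⟩, h2⟩

/-- PV-G6d.  Every element of rank `n` is killed or proportional to a normal form of rank `n`.
PROOF. `x = 1`: `μ 1 = 0`.  `¬ IsWt x`: `NF.iso`, `m = 1`.  `IsWt x`: `x ^ k = Wt P a' y' z'` with `Nd`; `x ≠ 1`,
`d ∤ k`, `k k' ≡ 1`, `x = (x ^ k) ^ k'`.  By `decB` (with `x ^ k = wl d u`, `u` in the letters `< n`, G2f, and `n`)
we may take `a', y', z' ∈ Bn n d`, say `a, b, Y`, with `Wt P a b Y = x ^ k`; `Nd a b Y` because `x^k ≠ 1` (G1a).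
`μ x = k' μ (Wt P a b Y)`.  If `a`, `b` commute: `b = a ^ j` (`cent`, `a ≠ 1`; `zpowers` and exponent `d` give a
natural exponent): `adm_bad`.  Otherwise `complete` with `s := (· ∈ Bn n d)` (G6c): `Dead`: `adm_Dead`;
otherwise `Y'`, `adm_REq`, `NF.cfg`. -/
theorem complete_rank (hG : Geo d P) (hd : d.Prime) {n : ℕ} {x : BB d} (hx : x ∈ Bn n d) :
    (∀ μ, Adm P T d μ → μ x = 0) ∨
    (x ≠ 1 ∧ ¬ IsWt P d x) ∨
    ∃ a ∈ Bn n d, ∃ b ∈ Bn n d, ∃ Y ∈ Bn n d, ¬ Commute a b ∧ (ops P a b).Nrm T abG Y ∧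
      ∃ m : ZMod d, ∀ μ, Adm P T d μ → μ x = m * μ (Wt P a b Y) := by
  have hd2 : 2 ≤ d := hd.two_le
  by_cases hx1 : x = 1
  · left
    intro μ hμ
    have := hμ.pow x 0
    rw [pow_zero] at this
    rw [hx1, this]
    simp
  by_cases hW : IsWt P d x
  swap
  · right; left
    exact ⟨hx1, hW⟩
  obtain ⟨k, a', y', z', hNd, hk⟩ := hW
  have hne : x ^ k ≠ 1 := by
    rw [hk]
    intro h1
    apply hG.ncomm a' y' z' hNd
    rw [h1]
    exact Commute.one_left _
  have hdk : ¬ d ∣ k := by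
    rintro ⟨m, rfl⟩
    apply hne
    rw [pow_mul, BB_pow, one_pow]
  -- inverse exponent
  have hco : Nat.Coprime k d := ((Nat.Prime.coprime_iff_not_dvd hd).2 hdk).symm
  obtain ⟨k', -, hk'⟩ := Nat.exists_mul_mod_eq_one_of_coprime hco hd.one_lt
  have hxk : (x ^ k) ^ k' = x := by
    rw [← pow_mul, ← Nat.div_add_mod (k * k') d, hk', pow_add, pow_mul, BB_pow, one_pow, one_mul,
      pow_one]
  have hxkn : x ^ k ∈ Bn n d := pow_mem hx k
  obtain ⟨u, hu, hux⟩ := mem_Bn_iff.1 hxkn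
  obtain ⟨C, Q, hdec⟩ := hG.decB
  obtain ⟨α, β, γ, hα, hβ, hγ, -, -, -, hdc⟩ := hdec n u.length u hu le_rfl ⟨a', y', z', hNd, by rw [hux, hk]⟩
  have haB : wl d α ∈ Bn n d := mem_Bn_iff.2 ⟨α, hα, rfl⟩
  have hbB : wl d β ∈ Bn n d := mem_Bn_iff.2 ⟨β, hβ, rfl⟩
  have hYB : wl d γ ∈ Bn n d := mem_Bn_iff.2 ⟨γ, hγ, rfl⟩
  generalize ha_ : wl d α = a at *
  generalize hb_ : wl d β = b at *
  generalize hY_ : wl d γ = Y at *
  have hWx : Wt P a b Y = x ^ k := by rw [← hdc, hux]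
  have hNd2 : Nd a b Y := by
    by_contra h
    apply hne
    rw [← hWx]
    exact Wt_of_not_Nd P h
  have hμx : ∀ μ, Adm P T d μ → μ x = (k' : ZMod d) * μ (Wt P a b Y) := by
    intro μ hμ
    rw [hWx, ← hμ.pow, hxk]
  by_cases hab : Commute a b
  · left
    intro μ hμ
    have hb : b ∈ Subgroup.zpowers a := hG.cent a b hNd2.1 hab.symm
    obtain ⟨m, hm⟩ := hb
    obtain ⟨j, hj⟩ : ∃ j : ℕ, a ^ m = a ^ j := by
      have hd0 : (d : ℤ) ≠ 0 := by exact_mod_cast hd.ne_zero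
      refine ⟨(m % (d : ℤ)).toNat, ?_⟩
      have e : ((m % (d : ℤ)).toNat : ℤ) = m % (d : ℤ) := Int.toNat_of_nonneg (Int.emod_nonneg _ hd0)
      rw [← zpow_natCast a (m % (d : ℤ)).toNat, e]
      conv_lhs => rw [← Int.mul_ediv_add_emod m (d : ℤ), zpow_add, zpow_mul, zpow_natCast, BB_pow,
        one_zpow, one_mul]
    have : b = a ^ j := by rw [← hj]; exact hm.symm
    rw [hμx μ hμ, this, adm_bad hd.pos hμ, mul_zero]
  · rcases complete (T := T) (free_ops hG hd2 hab) (ab := abG) (cm := cmG)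
      (fun y y' h => abG_of_cm h) (fun y y' h => eqvGen_of_ab h) (fun z => z ∈ Bn n d)
      (fun x y => nd_mem_iff hG hd2 hab haB hbB) hbB haB Y hYB with h | ⟨Y', hY', hR, hN⟩
    · left
      intro μ hμ
      rw [hμx μ hμ, adm_Dead hμ h, mul_zero]
    · right; right
      refine ⟨a, haB, b, hbB, Y', hY', hab, hN, k', ?_⟩
      intro μ hμ
      rw [hμx μ hμ, adm_REq hμ hR]

end Pool.Agent.helper24.PV
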