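import Pool.Agent.helper24.PV.G5c
import Pool.Agent.helper24.PV.G6
import Pool.Agent.helper46.PV.W2
import Pool.Agent.helper47.PV.W3
import Pool.Agent.helper47.PV.W4
/-! PV-W: decidability of normal form data (interface of the block W; proofs in helper46/PV/G1-G3, W1, W2 and
helper47/PV/W3, W4). -/
set_option autoImplicit false
namespace Pool.Agent.helper24.PV
open Pool.Agent.helper4.PV Pool.Agent.helper50.BW Pool.Agent.helper47.PV
variable {P : Par} {T : RM} {d : ℕ}

/-- PV-W1.  Normal form data are decidable. -/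
theorem nrmD_prim (hG : Geo d P) (hd : d.Prime) (hT : PrimrecPred fun w : W => Triv d w) (adv : Finset ℕ) :
    PrimrecPred (NrmD P T d adv) :=
  helper46.PV.nrmD_prim hG hd hT adv

/-- PV-W2.  Equality of normal forms is decidable. -/
theorem sameD_prim (hG : Geo d P) (hd : d.Prime) (hT : PrimrecPred fun w : W => Triv d w) (adv : Finset ℕ) :
    ∃ S : Dt → Dt → Prop, PrimrecRel S ∧
      ∀ t t', NrmD P T d adv t → NrmD P T d adv t' → (S t t' ↔ SameD d t t') :=
  ⟨SameD d, helper46.PV.sameD_prim hG hd hT, fun _ _ _ _ => Iff.rfl⟩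

/-- PV-W3.  Soundness. -/
theorem nrmD_sound {adv : Finset ℕ} (hadv : ∀ k ∈ adv, ¬ T.Halts k) {t : Dt} (h : NrmD P T d adv t) :
    NF P T d (wl d (t.x P)) :=
  helper47.PV.nrmD_sound hadv h

/-- PV-W4.  Completeness for configurations of rank `n`. -/
theorem nrmD_complete (hG : Geo d P) (hd : d.Prime) {n : ℕ} {adv : Finset ℕ}
    (hadv : ∀ k ≤ d ^ n, ¬ T.Halts k → k ∈ adv) {a b Y : BB d} (ha : a ∈ Bn n d) (hb : b ∈ Bn n d)
    (hY : Y ∈ Bn n d) (hab : ¬ Commute a b) (h : (ops P a b).Nrm T abG Y) :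
    ∃ t, NrmD P T d adv t ∧ wl d (t.x P) = Wt P a b Y :=
  helper47.PV.nrmD_complete hG hd hadv ha hb hY hab h

/-- PV-W5.  Completeness for isolated elements. -/
theorem nrmD_complete_iso (adv : Finset ℕ) {x : BB d} (hx : x ≠ 1) (h : ¬ IsWt P d x) :
    ∃ t, NrmD P T d adv t ∧ wl d (t.x P) = x :=
  helper47.PV.nrmD_complete_iso adv hx h

/-- PV-W6.  `SameD` is the relation `SameB` of the elements. -/
theorem sameD_iff (hG : Geo d P) (hd : d.Prime) {adv : Finset ℕ} {t t' : Dt}
    (h : NrmD P T d adv t) (h' : NrmD P T d adv t') :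
    SameD d t t' ↔ SameB P d (wl d (t.x P)) (wl d (t'.x P)) :=
  helper47.PV.sameD_iff hG hd h h'

end Pool.Agent.helper24.PV
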