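import Pool.Agent.helper24.PV.A1
import Pool.Agent.helper24.PV.W
/-! PV-A2: the conditions on a combination are decidable. -/
set_option autoImplicit false
namespace Pool.Agent.helper24.PV
open Pool.Agent.helper4.PV Pool.Agent.helper50.BW Pool.Agent.helper47.PV
variable {P : Par} {T : RM} {d : ℕ}

/-- The pairwise condition of a primitive recursive relation is primitive recursive. -/
theorem prim_pairwise {α : Type} [Primcodable α] [Inhabited α] {R : α → α → Prop} (hR : PrimrecRel R) :
    PrimrecPred fun c : List α => c.Pairwise R := by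
  have h2 : PrimrecRel fun (c : List α) (i : ℕ) => ∀ j ∈ List.range i,
      R (c.getD j default) (c.getD i default) := by
    have h : PrimrecRel fun (x : List α × ℕ) (j : ℕ) => R (x.1.getD j default) (x.1.getD x.2 default) :=
      hR.comp ((Primrec.list_getD default).comp (Primrec.fst.comp Primrec.fst) Primrec.snd)
        ((Primrec.list_getD default).comp (Primrec.fst.comp Primrec.fst) (Primrec.snd.comp Primrec.fst))
    exact primrecPred_forall_mem h (Primrec.list_range.comp Primrec.snd)
  have h3 : PrimrecPred fun c : List α => ∀ i ∈ List.range c.length, ∀ j ∈ List.range i,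
      R (c.getD j default) (c.getD i default) :=
    primrecPred_forall_mem h2 (Primrec.list_range.comp Primrec.list_length)
  refine h3.of_eq fun c => ?_
  rw [List.pairwise_iff_getElem]
  constructor
  · intro h i j hi hj hij
    have := h j (List.mem_range.2 hj) i (List.mem_range.2 hij)
    rwa [List.getD_eq_getElem _ _ hi, List.getD_eq_getElem _ _ hj] at this
  · intro h i hi j hj
    rw [List.mem_range] at hi hj
    have hj' : j < c.length := by omega
    rw [List.getD_eq_getElem _ _ hj', List.getD_eq_getElem _ _ hi]
    exact h j i hj' hi hj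

/-- PV-A2b.  The conditions on a combination are decidable.
PROOF. `nrmD_prim`, `primrecPred_forall_mem`; the pairwise condition with the relation `S` of `sameD_prim`
(equivalent under `NrmD`): `Pairwise R c ↔ ∀ i < c.length, ∀ j < i, ..` with `getD`/`getElem?`, bounded
quantifiers over `List.range`.  (Define the decidable predicate as the conjunction, then show that it
is equivalent to `Good`.) -/
theorem prim_Good (hG : Geo d P) (hd : d.Prime) (hT : PrimrecPred fun w : W => Triv d w) (adv : Finset ℕ) :
    PrimrecPred (Good P T d adv) := by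
  obtain ⟨S, hS, hSe⟩ := sameD_prim (P := P) (T := T) hG hd hT adv
  have hR : PrimrecRel fun p q : Dt × ℕ => ¬ S p.1 q.1 ∧ ¬ S q.1 p.1 :=
    (PrimrecPred.not (hS.comp (Primrec.fst.comp Primrec.fst) (Primrec.fst.comp Primrec.snd))).and
      (PrimrecPred.not (hS.comp (Primrec.fst.comp Primrec.snd) (Primrec.fst.comp Primrec.fst)))
  have h1 : PrimrecPred fun c : List (Dt × ℕ) => ∀ p ∈ c, NrmD P T d adv p.1 := by
    have h : PrimrecRel fun (_ : List (Dt × ℕ)) (p : Dt × ℕ) => NrmD P T d adv p.1 :=
      (nrmD_prim hG hd hT adv).comp (Primrec.fst.comp Primrec.snd)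
    exact primrecPred_forall_mem h Primrec.id
  haveI : Inhabited (Dt × ℕ) := ⟨((0, ([], []), ([], []), ([], []), ([], []), []), 0)⟩
  refine (h1.and (prim_pairwise hR)).of_eq fun c => ?_
  unfold Good
  refine and_congr_right fun hc => ?_
  constructor
  · intro h
    refine List.Pairwise.imp_of_mem ?_ h
    intro p q hp hq hpq
    rw [hSe _ _ (hc p hp) (hc q hq), hSe _ _ (hc q hq) (hc p hp)] at hpq
    exact hpq
  · intro h
    refine List.Pairwise.imp_of_mem ?_ h
    intro p q hp hq hpq
    rw [hSe _ _ (hc p hp) (hc q hq), hSe _ _ (hc q hq) (hc p hp)]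
    exact hpq

end Pool.Agent.helper24.PV
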