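import Pool.Agent.helper24.PV.A1f
import Pool.Agent.helper24.PV.A2a
import Pool.Agent.helper24.PV.A2b
/-! PV-A2: the word problem in rank `n` is decidable. -/
set_option autoImplicit false
namespace Pool.Agent.helper24.PV
open Pool.Agent.helper4.PV Pool.Agent.helper50.BW Pool.Agent.helper47.PV
variable {P : Par} {T : RM} {d : ℕ}

private theorem A2_prim_LtN (n : ℕ) : PrimrecPred fun w : W => LtN n w :=
  prim_LtN.comp (Primrec.const n) Primrec.id

private theorem A2_prim_dvd (d : ℕ) :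
    PrimrecPred fun c : List (Dt × ℕ) => ∃ p ∈ c, ¬ d ∣ p.2 := by
  have h : PrimrecPred fun p : Dt × ℕ => ¬ d ∣ p.2 := by
    refine PrimrecPred.not ?_
    have h1 : PrimrecPred fun p : Dt × ℕ => p.2 % d = 0 :=
      Primrec.eq.comp (Primrec.nat_mod.comp Primrec.snd (Primrec.const d)) (Primrec.const 0)
    exact h1.of_eq fun p => (Nat.dvd_iff_mod_eq_zero).symm
  exact h.exists_mem_list

/-- PV-A2c.  Decidability in rank `n`.
PROOF. `adv := {k ≤ d ^ n | ¬ T.Halts k}` (classical filter of `range`).  `computable_fin_of_nat` with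
`q w := LtN n w → mk w ∈ Vb`.  By `ComputablePred.computable_iff_re_compl_re'` both `q` and `¬ q` are RE:
`q`: `¬ LtN n w` or `re_VV`; `¬ q w ↔ LtN n w ∧ (¬ Triv d w ∨ ∃ c, ...)` (`Vb_le_Fd`, A1f),
`re_and`, `re_or`, `re_exists`, `re_comp`, A2a, A2b. -/
theorem dec_rank (hG : Geo d P) (hI : Ind d) (hd : d.Prime) (hT : PrimrecPred fun w : W => Triv d w)
    (n : ℕ) : ComputablePred fun l : List (Fin n × Bool) => FreeGroup.mk l ∈ VV (Laws P T d) (Fin n) := by
  classical
  set adv : Finset ℕ := (Finset.range (d ^ n + 1)).filter fun k => ¬ T.Halts k with hadv0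
  have hadv : ∀ k ∈ adv, ¬ T.Halts k := fun k hk => (Finset.mem_filter.1 hk).2
  have hadv' : ∀ k ≤ d ^ n, ¬ T.Halts k → k ∈ adv := fun k hk hk' =>
    Finset.mem_filter.2 ⟨Finset.mem_range.2 (Nat.lt_succ_of_le hk), hk'⟩
  have hV : REPred fun w : W => FreeGroup.mk w ∈ Vb P T d := re_VV (α := ℕ) (Laws P T d)
  refine computable_fin_of_nat (Laws P T d) n
    ⟨fun w => LtN n w → FreeGroup.mk w ∈ Vb P T d, ?_, fun w hw => ⟨fun h => h hw, fun h _ => h⟩⟩
  refine ComputablePred.computable_iff_re_compl_re'.2 ⟨?_, ?_⟩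
  · refine (re_or (re_of_primrec (A2_prim_LtN n).not) hV).of_eq fun w => ?_
    exact (imp_iff_not_or).symm
  · have hC : REPred fun x : W × List (Dt × ℕ) => Good P T d adv x.2 ∧ (∃ p ∈ x.2, ¬ d ∣ p.2) ∧
        FreeGroup.mk (x.1 ++ FreeGroup.invRev (cW P d x.2)) ∈ Vb P T d := by
      refine re_and (re_of_primrec ((prim_Good hG hd hT adv).comp Primrec.snd))
        (re_and (re_of_primrec ((A2_prim_dvd d).comp Primrec.snd)) (re_comp hV ?_))
      exact (Primrec.list_append.comp Primrec.fst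
        (prim_invRev.comp ((prim_cW P d).comp Primrec.snd))).to_comp
    have hE : REPred fun w : W => ∃ c : List (Dt × ℕ), Good P T d adv c ∧ (∃ p ∈ c, ¬ d ∣ p.2) ∧
        FreeGroup.mk (w ++ FreeGroup.invRev (cW P d c)) ∈ Vb P T d := re_exists hC
    refine (re_and (re_of_primrec (A2_prim_LtN n))
      (re_or (re_of_primrec hT.not) (re_and (re_of_primrec hT) hE))).of_eq fun w => ?_
    constructor
    · rintro ⟨h1, h2 | ⟨h2, h3⟩⟩ h4
      · exact h2 (Vb_le_Fd (h4 h1))
      · exact (not_mem_iff hG hI hd hadv hadv' h1 h2).2 h3 (h4 h1)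
    · intro h
      rw [Classical.not_imp] at h
      refine ⟨h.1, ?_⟩
      by_cases h2 : Triv d w
      · exact Or.inr ⟨h2, (not_mem_iff hG hI hd hadv hadv' h.1 h2).1 h.2⟩
      · exact Or.inl h2

end Pool.Agent.helper24.PV
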