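import Pool.Agent.helper24.PV.Defs
import Pool.Agent.helper79.RegUniversal

/-!
PV project (MP_c0bc55_al, S02951), block LAWS, module MACH: a register machine with an undecidable
halting problem (compilation of partial recursive functions by helper79).
-/

set_option autoImplicit false

namespace Pool.Agent.helper24.PV

/-- conversion of the updates -/
def machUpd {K : ℕ} : Pool.Agent.helper79.Upd K → Upd K
  | .zero => Upd.zero
  | .copy j => Upd.copy j
  | .succ j => Upd.succ j
  | .pred j => Upd.pred j

theorem machUpd_app {K : ℕ} (u : Pool.Agent.helper79.Upd K) (r : Fin K → ℕ) :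
    (machUpd u).app r = u.app r := by
  cases u <;> rfl

/-- every structured program gives a register machine -/
theorem exists_rm_of_prog (P : Pool.Agent.helper79.Prog) : ∃ T : RM,
    ∀ k, T.Halts k ↔ ∃ n, (Pool.Agent.helper79.rstep^[n] ([P], fun i => if i = 0 then k else 0)).1
      = [] := by
  classical
  obtain ⟨K0, hK0⟩ := Pool.Agent.helper79.exists_regLt P
  set K := K0 + 1 with hK
  have hreg : Pool.Agent.helper79.RegLt K P := hK0 K (by omega)
  set L : List (List Pool.Agent.helper79.Prog) := [] :: Pool.Agent.helper79.ctl P [] with hL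
  have hLnext : ∀ c ∈ L, ∀ z, Pool.Agent.helper79.nextCtl c z ∈ L := by
    intro c hc z
    rcases List.mem_cons.1 hc with rfl | hc
    · simp [hL, Pool.Agent.helper79.nextCtl]
    · rcases Pool.Agent.helper79.nextCtl_mem_ctl _ _ _ z hc with h | h
      · exact List.mem_cons_of_mem _ h
      · rw [h]; simp [hL]
  let Q : Type := {c : List Pool.Agent.helper79.Prog //
    c ∈ L ∧ ∀ P ∈ c, Pool.Agent.helper79.RegLt K P}
  have hfin0 : Finite {c : List Pool.Agent.helper79.Prog // c ∈ L} :=
    (List.finite_toSet L).to_subtype
  have hfin : Finite Q :=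
    Finite.of_injective (β := {c : List Pool.Agent.helper79.Prog // c ∈ L})
      (fun q => ⟨q.1, q.2.1⟩) (fun q q' h => Subtype.ext (by simpa using h))
  obtain ⟨nQ, ⟨e⟩⟩ := Finite.exists_equiv_fin Q
  let ext : (Fin K → Bool) → ℕ → Bool := fun z i => if h : i < K then z ⟨i, h⟩ else false
  let q0 : Q := ⟨[P], by
        refine List.mem_cons_of_mem _ (Pool.Agent.helper79.mem_ctl_self _ _), by
          intro P' hP'
          rw [List.mem_singleton] at hP'
          subst hP'
          exact hreg⟩
  let nx : Q → (Fin K → Bool) → Q := fun q z =>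
    ⟨Pool.Agent.helper79.nextCtl q.1 (ext z), hLnext _ q.2.1 _,
      Pool.Agent.helper79.regLt_nextCtl K _ _ q.2.2⟩
  let T : RM :=
    { nQ := nQ
      K := K
      inp := ⟨0, by omega⟩
      start := e q0
      upd := fun q i => machUpd (Pool.Agent.helper79.progUpd K (e.symm q).1 i)
      nxt := fun q z => e (nx (e.symm q) z)
      halt := fun q => (e.symm q).1.isEmpty }
  have hnext : ∀ (c : List Pool.Agent.helper79.Prog) (r : Pool.Agent.helper79.Regs),
      (∀ P ∈ c, Pool.Agent.helper79.RegLt K P) →
      Pool.Agent.helper79.nextCtl c (fun i => decide (r i = 0)) =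
        Pool.Agent.helper79.nextCtl c (ext fun i : Fin K => decide (r i = 0)) := by
    intro c r hc
    cases c with
    | nil => rfl
    | cons P k =>
      have hP := hc P (by simp)
      cases P with
      | loop i P =>
        have hi : i < K := hP.1
        simp [Pool.Agent.helper79.nextCtl, ext, hi]
      | _ => rfl
  refine ⟨T, fun k => ?_⟩
  set r0 : Pool.Agent.helper79.Regs := fun i => if i = 0 then k else 0 with hr0
  have hsim : ∀ n, (e.symm (T.run k n).1).1 = (Pool.Agent.helper79.rstep^[n] ([P], r0)).1 ∧
      ∀ i : Fin K, (T.run k n).2 i = (Pool.Agent.helper79.rstep^[n] ([P], r0)).2 i := by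
    intro n
    induction n with
    | zero =>
      refine ⟨?_, fun i => ?_⟩
      · simp only [RM.run, Function.iterate_zero, id_eq, T, Equiv.symm_apply_apply]
        rfl
      · simp only [RM.run, Function.iterate_zero, id_eq, T, hr0, Fin.ext_iff]
    | succ n ih =>
      have hrun : T.run k (n + 1) = T.step (T.run k n) := by
        simp only [RM.run, Function.iterate_succ_apply']
      rw [hrun, Function.iterate_succ_apply']
      obtain ⟨ih1, ih2⟩ := ih
      have ih2' : (T.run k n).2 =
          fun i : Fin K => (Pool.Agent.helper79.rstep^[n] ([P], r0)).2 i := funext ih2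
      have hreg' : ∀ P' ∈ (Pool.Agent.helper79.rstep^[n] ([P], r0)).1,
          Pool.Agent.helper79.RegLt K P' := by
        rw [← ih1]; exact (e.symm (T.run k n).1).2.2
      constructor
      · have h1 : (e.symm (T.step (T.run k n)).1).1 =
            Pool.Agent.helper79.nextCtl (e.symm (T.run k n).1).1
              (ext fun i => decide ((T.run k n).2 i = 0)) := by
          simp only [RM.step, T, Equiv.symm_apply_apply]
          rfl
        rw [h1, ih1, ih2']
        exact (hnext _ _ hreg').symm
      · intro i
        have h1 : (T.step (T.run k n)).2 i =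
            (Pool.Agent.helper79.progUpd K (e.symm (T.run k n).1).1 i).app (T.run k n).2 := by
          simp only [RM.step, T, machUpd_app]
        rw [h1, ih1, ih2']
        exact (Pool.Agent.helper79.progUpd_spec K _ hreg' _ i).symm
  constructor
  · rintro ⟨n, hn⟩
    refine ⟨n, ?_⟩
    rw [← (hsim n).1]
    simpa [T] using hn
  · rintro ⟨n, hn⟩
    refine ⟨n, ?_⟩
    rw [← (hsim n).1] at hn
    simpa [T] using hn

/-- **a register machine with an undecidable halting problem** -/
theorem exists_rm : ∃ T : RM, ¬ ComputablePred (fun k : ℕ => T.Halts k) := by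
  classical
  let f : ℕ → Part ℕ := fun k =>
    Nat.Partrec.Code.eval (Denumerable.ofNat Nat.Partrec.Code k) 0
  have hf : Partrec f :=
    Nat.Partrec.Code.eval_part.comp (Computable.ofNat _) (Computable.const 0)
  have hpr : Nat.Partrec' (fun v : List.Vector ℕ 1 => f v.head) := Nat.Partrec'.part_iff₁.2 hf
  obtain ⟨P, -, hP2⟩ := Pool.Agent.helper79.compile_partrec hpr ![0] 1 2
    (fun i => by fin_cases i; simp) (by omega)
  obtain ⟨T, hT⟩ := exists_rm_of_prog P
  refine ⟨T, fun hc => ComputablePred.halting_problem 0 ?_⟩
  have key : ∀ k, T.Halts k ↔ (f k).Dom := by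
    intro k
    rw [hT k]
    set r0 : Pool.Agent.helper79.Regs := fun i => if i = 0 then k else 0 with hr0
    have h := hP2 r0
    have e1 : (List.Vector.ofFn fun i : Fin 1 => r0 ((![0] : Fin 1 → ℕ) i)).head = k := by
      simp [List.Vector.ofFn, hr0]
    simp only [e1] at h
    constructor
    · rintro ⟨n, hn⟩
      obtain ⟨r1, h1, -⟩ := Pool.Agent.helper79.bigL_of_halts n [P] r0
        (Pool.Agent.helper79.rstep^[n] ([P], r0)).2 (Prod.ext hn rfl)
      exact h.2 r1 h1
    · intro hd
      obtain ⟨v, hv⟩ := Part.dom_iff_mem.1 hd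
      obtain ⟨r', h1, -⟩ := h.1 v hv
      obtain ⟨n, hn⟩ := Pool.Agent.helper79.halts_of_big h1 []
      exact ⟨n, by rw [hn]⟩
  have hc2 : ComputablePred (fun c : Nat.Partrec.Code => T.Halts (Encodable.encode c)) := by
    obtain ⟨hd, hcomp⟩ := hc
    exact ⟨fun c => hd _, hcomp.comp Computable.encode⟩
  refine hc2.of_eq fun c => ?_
  rw [key]
  simp [f]

end Pool.Agent.helper24.PV
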