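import Pool.Agent.helper24.PV.G1
import Pool.Agent.helper24.PV.G3d
/-! PV-G5: admissible functions that separate normal forms. -/
set_option autoImplicit false
namespace Pool.Agent.helper24.PV
open Pool.Agent.helper4.PV Pool.Agent.helper50.BW Pool.Agent.helper47.PV
variable {P : Par} {T : RM} {d : ℕ}

/-- `x` is conjugate to the power `k` of a configuration of the class of `Y` -/
def g5b_R (P : Par) (T : RM) (a b Y x : BB d) (k : ℕ) : Prop :=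
  ∃ g Y' : BB d, (ops P a b).REq T cmG Y Y' ∧ x = g * Wt P a b Y' ^ k * g⁻¹

theorem g5b_pow_congr {x : BB d} {k l : ℕ} (h : (k : ZMod d) = l) : x ^ k = x ^ l := by
  rw [pow_eq_pow_iff_modEq]
  exact ((ZMod.natCast_eq_natCast_iff k l d).1 h).of_dvd (orderOf_dvd_of_pow_eq_one (BB_pow d x))

theorem g5b_inv (hd : d.Prime) {k : ℕ} (h : (k : ZMod d) ≠ 0) :
    ∃ m : ℕ, ((k * m : ℕ) : ZMod d) = 1 := by
  haveI := Fact.mk hd
  refine ⟨((k : ZMod d)⁻¹).val, ?_⟩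
  push_cast
  rw [ZMod.natCast_zmod_val, mul_inv_cancel₀ h]

theorem g5b_ne_one (hG : Geo d P) {a b Y : BB d} (hab : ¬ Commute a b) : Wt P a b Y ≠ 1 := by
  intro h
  apply hG.ncomm a b Y (Nd_frame hab Y)
  rw [h]
  exact Commute.one_left a

theorem g5b_key (hG : Geo d P) (hd : d.Prime) {a b x : BB d} (hab : ¬ Commute a b)
    {k k' : ℕ} {g g' Y1 Y2 : BB d} (e1 : x = g * Wt P a b Y1 ^ k * g⁻¹)
    (e2 : x = g' * Wt P a b Y2 ^ k' * g'⁻¹) (h0 : (k : ZMod d) = 0) : (k' : ZMod d) = 0 := by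
  by_contra h1
  obtain ⟨m, hm⟩ := g5b_inv hd h1
  have hx : x = 1 := by
    rw [e1, g5b_pow_congr (l := 0) (by rw [h0, Nat.cast_zero]), pow_zero, mul_one, mul_inv_cancel]
  have h3 : Wt P a b Y2 ^ k' = 1 := by
    rw [hx] at e2
    exact conj_eq_one_iff.1 e2.symm
  have h4 : Wt P a b Y2 = 1 := by
    have h5 : Wt P a b Y2 ^ (k' * m) = Wt P a b Y2 ^ 1 :=
      g5b_pow_congr (by rw [hm, Nat.cast_one])
    rw [pow_mul, h3, one_pow, pow_one] at h5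
    exact h5.symm
  exact g5b_ne_one hG hab h4

theorem g5b_uniq (hG : Geo d P) (hd : d.Prime) {a b Y x : BB d} (hab : ¬ Commute a b) {k k' : ℕ}
    (h : g5b_R P T a b Y x k) (h' : g5b_R P T a b Y x k') : (k : ZMod d) = k' := by
  obtain ⟨g, Y1, -, e1⟩ := h
  obtain ⟨g', Y2, -, e2⟩ := h'
  by_cases h0 : (k : ZMod d) = 0
  · rw [h0, g5b_key hG hd hab e1 e2 h0]
  · obtain ⟨m, hm⟩ := g5b_inv hd h0
    have h5 : Wt P a b Y1 = (g⁻¹ * g') * Wt P a b Y2 ^ (k' * m) * (g⁻¹ * g')⁻¹ := by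
      have h6 : x ^ m = g * Wt P a b Y1 * g⁻¹ := by
        rw [e1, conj_pow, ← pow_mul, g5b_pow_congr (l := 1) (by rw [hm, Nat.cast_one]), pow_one]
      have h7 : x ^ m = g' * Wt P a b Y2 ^ (k' * m) * g'⁻¹ := by
        rw [e2, conj_pow, ← pow_mul]
      rw [h7] at h6
      have h8 : Wt P a b Y1 = g⁻¹ * (g * Wt P a b Y1 * g⁻¹) * g := by group
      rw [h8, ← h6, mul_inv_rev, inv_inv]
      simp only [mul_assoc]
    have h8 := (cfg_inj hG hd.two_le hab hab h5).1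
    have h9 : (k : ZMod d) * m = 1 := by exact_mod_cast hm
    have h10 : (k' : ZMod d) * m = 1 := by exact_mod_cast h8
    calc (k : ZMod d) = k * (k' * m) := by rw [h10, mul_one]
      _ = (k * m) * k' := by ring
      _ = k' := by rw [h9, one_mul]

theorem g5b_conj {a b Y x : BB d} (g : BB d) {k : ℕ} (h : g5b_R P T a b Y x k) :
    g5b_R P T a b Y (g * x * g⁻¹) k := by
  obtain ⟨g', Y', h, e⟩ := h
  refine ⟨g * g', Y', h, ?_⟩
  rw [e, mul_inv_rev]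
  simp only [mul_assoc]

theorem g5b_rpow {a b Y x : BB d} {k : ℕ} (l : ℕ) (h : g5b_R P T a b Y x k) :
    g5b_R P T a b Y (x ^ l) (k * l) := by
  obtain ⟨g', Y', h, e⟩ := h
  refine ⟨g', Y', h, ?_⟩
  rw [e, conj_pow, pow_mul]

theorem g5b_unpow (hd : d.Prime) {a b Y x : BB d} {l : ℕ} (hl : (l : ZMod d) ≠ 0)
    (h : ∃ k, g5b_R P T a b Y (x ^ l) k) : ∃ k, g5b_R P T a b Y x k := by
  obtain ⟨k, hk⟩ := h
  obtain ⟨m, hm⟩ := g5b_inv hd hl
  have h1 := g5b_rpow m hk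
  rw [← pow_mul, g5b_pow_congr (l := 1) (by rw [hm, Nat.cast_one]), pow_one] at h1
  exact ⟨_, h1⟩

theorem g5b_back (hG : Geo d P) {a b Y a' b' Y1 : BB d} (hab : ¬ Commute a b) {k : ℕ}
    (h : g5b_R P T a b Y (Wt P a' b' Y1) k) (hk : (k : ZMod d) ≠ 0) :
    (k : ZMod d) = 1 ∧ ∃ h, a' = h * a * h⁻¹ ∧ b' = h * b * h⁻¹ ∧
      (ops P a b).REq T cmG Y (h⁻¹ * Y1 * h) := by
  obtain ⟨g, Y', hr, e⟩ := h
  have hnd : ¬ (d : ℤ) ∣ (k : ℤ) := by
    intro h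
    apply hk
    rw [ZMod.natCast_eq_zero_iff]
    exact_mod_cast h
  obtain ⟨h1, h, ha, hb, hY⟩ := hG.inj a b Y' a' b' Y1 g k (Nd_frame hab Y') hnd
    (by rw [e, zpow_natCast])
  refine ⟨?_, h, ha, hb, ?_⟩
  · have h2 := (ZMod.intCast_zmod_eq_zero_iff_dvd ((k : ℤ) - 1) d).2 h1
    push_cast at h2
    exact sub_eq_zero.1 h2
  · rw [hY, show h⁻¹ * (h * Y' * h⁻¹) * h = Y' by group]
    exact hr

theorem g5b_fwd {a b Y a' b' Y2 h : BB d} (ha : a' = h * a * h⁻¹) (hb : b' = h * b * h⁻¹)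
    (hr : (ops P a b).REq T cmG Y (h⁻¹ * Y2 * h)) : g5b_R P T a b Y (Wt P a' b' Y2) 1 := by
  refine ⟨h, h⁻¹ * Y2 * h, hr, ?_⟩
  rw [pow_one, conj_Wt, ← ha, ← hb, show h * (h⁻¹ * Y2 * h) * h⁻¹ = Y2 by group]

theorem g5b_unconj (h a : BB d) : h⁻¹ * (h * a * h⁻¹) * h⁻¹⁻¹ = a := by group

theorem g5b_rs {a b a' b' Y1 Y2 h : BB d} (ha : a' = h * a * h⁻¹) (hb : b' = h * b * h⁻¹)
    (hr : (ops P a' b').RS T cmG Y1 Y2) :
    (ops P a b).RS T cmG (h⁻¹ * Y1 * h) (h⁻¹ * Y2 * h) := by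
  have h1 := (conj_hom P h⁻¹ a' b').rs (T := T) (cm := cmG) (cm' := cmG)
    (fun y y' => cmG_conj h⁻¹) hr
  rw [ha, hb, g5b_unconj, g5b_unconj] at h1
  simpa only [inv_inv] using h1

theorem g5b_rk {a b a' b' Y1 h : BB d} (ha : a' = h * a * h⁻¹) (hb : b' = h * b * h⁻¹)
    (hr : (ops P a' b').RK T Y1) : (ops P a b).RK T (h⁻¹ * Y1 * h) := by
  have h1 := (conj_hom P h⁻¹ a' b').rk hr
  rw [ha, hb, g5b_unconj, g5b_unconj] at h1
  simpa only [inv_inv] using h1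

open Classical in
/-- the separating function -/
noncomputable def g5b_mu (P : Par) (T : RM) (a b Y x : BB d) : ZMod d :=
  if h : ∃ k, g5b_R P T a b Y x k then (h.choose : ZMod d) else 0

theorem g5b_mu_eq (hG : Geo d P) (hd : d.Prime) {a b Y x : BB d} (hab : ¬ Commute a b) {k : ℕ}
    (h : g5b_R P T a b Y x k) : g5b_mu P T a b Y x = k := by
  have h1 : ∃ k, g5b_R P T a b Y x k := ⟨k, h⟩
  unfold g5b_mu
  rw [dif_pos h1]
  exact g5b_uniq hG hd hab h1.choose_spec h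

theorem g5b_mu_zero {a b Y x : BB d} (h : ¬ ∃ k, g5b_R P T a b Y x k) :
    g5b_mu P T a b Y x = 0 := by
  unfold g5b_mu
  rw [dif_neg h]

theorem g5b_one (P : Par) (T : RM) (a b Y : BB d) : g5b_R P T a b Y 1 0 :=
  ⟨1, Y, Relation.EqvGen.refl Y, by rw [pow_zero, mul_one, mul_inv_cancel]⟩

/-- a step does not change the value -/
theorem g5b_step (hG : Geo d P) (hd : d.Prime) {a b Y a' b' Y1 Y2 : BB d} (hab : ¬ Commute a b)
    (hr : ∀ h : BB d, a' = h * a * h⁻¹ → b' = h * b * h⁻¹ →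
      (ops P a b).REq T cmG (h⁻¹ * Y1 * h) (h⁻¹ * Y2 * h))
    (h0 : g5b_mu P T a b Y (Wt P a' b' Y1) ≠ 0) :
    g5b_mu P T a b Y (Wt P a' b' Y1) = g5b_mu P T a b Y (Wt P a' b' Y2) := by
  by_cases hk : ∃ k, g5b_R P T a b Y (Wt P a' b' Y1) k
  · obtain ⟨k, hk⟩ := hk
    rw [g5b_mu_eq hG hd hab hk] at h0 ⊢
    obtain ⟨h1, h, ha, hb, h2⟩ := g5b_back hG hab hk h0
    have h3 := g5b_fwd ha hb (h2.trans _ _ _ (hr h ha hb))
    rw [g5b_mu_eq hG hd hab h3, h1, Nat.cast_one]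
  · exact absurd (g5b_mu_zero hk) h0

/-- PV-G5b.  Alive configurations: the indicator of the class.
PROOF. `μ x := k` if `x = g * Wt P a b Y' ^ k * g⁻¹` with `REq Y Y'`, otherwise `0`.
Well-defined: if also `x = g' * Wt P a b Y'' ^ k' * g'⁻¹` then `k = k'` in `ZMod d` (if `d ∣ k` then `x = 1` and
`d ∣ k'`; otherwise raise to the power inverse to `k'`, `cfg_inj`).
`conj` clear, `pow` as in G5a.
`bad`: `Wt P a' (a'^j) z = g Wt(a b Y')^k g⁻¹ ≠ 1` would give by `inj` a frame `(a', a'^j)` conjugate to `(a, b)`,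
which does not commute; if it is `1` then `μ = 0`.
`rs`: `RS` for the frame `(a', b')`, `Y1 → Y2`.  If `μ (Wt a' b' Y1) ≠ 0`: by `inj` `k = 1`, `a' = h a h⁻¹`, `b' = h b h⁻¹`,
`Y1 = h Y' h⁻¹` with `REq Y Y'`; conjugation by `h⁻¹` (G0a with `conj_hom`, `cmG_conj`) gives
`RS Y' (h⁻¹ Y2 h)` for the frame `(a, b)`, so `Wt a' b' Y2 = h Wt a b (h⁻¹ Y2 h) h⁻¹` has `μ = 1` too.
Symmetric for `Y2`.  `rk`: the same with `RK` transported: contradiction to `hY`. -/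
theorem sep_cfg (hG : Geo d P) (hd : d.Prime) {a b Y : BB d} (hab : ¬ Commute a b)
    (hY : ¬ (ops P a b).Dead T cmG Y) :
    ∃ μ, Adm P T d μ ∧ μ (Wt P a b Y) = 1 ∧
      ∀ x, (¬ ∃ (g Y' : BB d) (k : ℕ), (ops P a b).REq T cmG Y Y' ∧ x = g * Wt P a b Y' ^ k * g⁻¹) →
        μ x = 0 := by
  refine ⟨g5b_mu P T a b Y, adm_of ?_ ?_ ?_ ?_ ?_, ?_, ?_⟩
  · intro g x
    by_cases h : ∃ k, g5b_R P T a b Y x k
    · obtain ⟨k, hk⟩ := h
      rw [g5b_mu_eq hG hd hab hk, g5b_mu_eq hG hd hab (g5b_conj g hk)]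
    · rw [g5b_mu_zero h, g5b_mu_zero]
      rintro ⟨k, hk⟩
      apply h
      refine ⟨k, ?_⟩
      have h1 := g5b_conj g⁻¹ hk
      rwa [show g⁻¹ * (g * x * g⁻¹) * g⁻¹⁻¹ = x by group] at h1
  · intro x l
    by_cases h : ∃ k, g5b_R P T a b Y x k
    · obtain ⟨k, hk⟩ := h
      rw [g5b_mu_eq hG hd hab hk, g5b_mu_eq hG hd hab (g5b_rpow l hk)]
      push_cast
      ring
    · by_cases hl : (l : ZMod d) = 0
      · have h1 : x ^ l = 1 := by
          rw [g5b_pow_congr (l := 0) (by rw [hl, Nat.cast_zero]), pow_zero]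
        rw [h1, g5b_mu_eq hG hd hab (g5b_one P T a b Y), hl, zero_mul, Nat.cast_zero]
      · rw [g5b_mu_zero h, mul_zero, g5b_mu_zero]
        exact fun h1 => h (g5b_unpow hd hl h1)
  · intro a' j z
    by_contra h0
    by_cases hk : ∃ k, g5b_R P T a b Y (Wt P a' (a' ^ j) z) k
    · obtain ⟨k, hk⟩ := hk
      rw [g5b_mu_eq hG hd hab hk] at h0
      obtain ⟨-, h, ha, hb, -⟩ := g5b_back hG hab hk h0
      apply hab
      have h1 : Commute a' (a' ^ j) := Commute.self_pow a' j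
      rw [hb] at h1
      rw [ha] at h1
      have h2 : (h * a * h⁻¹) * (h * b * h⁻¹) = (h * b * h⁻¹) * (h * a * h⁻¹) := h1
      have h3 : h⁻¹ * ((h * a * h⁻¹) * (h * b * h⁻¹)) * h =
          h⁻¹ * ((h * b * h⁻¹) * (h * a * h⁻¹)) * h := by rw [h2]
      have h4 : h⁻¹ * ((h * a * h⁻¹) * (h * b * h⁻¹)) * h = a * b := by group
      have h5 : h⁻¹ * ((h * b * h⁻¹) * (h * a * h⁻¹)) * h = b * a := by group
      rw [h4, h5] at h3
      exact h3
    · exact h0 (g5b_mu_zero hk)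
  · intro a' b' Y1 Y2 hr
    by_cases h1 : g5b_mu P T a b Y (Wt P a' b' Y1) = 0
    · by_cases h2 : g5b_mu P T a b Y (Wt P a' b' Y2) = 0
      · rw [h1, h2]
      · exact (g5b_step hG hd hab (fun h ha hb =>
          (Relation.EqvGen.rel _ _ (g5b_rs ha hb hr)).symm) h2).symm
    · exact g5b_step hG hd hab (fun h ha hb => Relation.EqvGen.rel _ _ (g5b_rs ha hb hr)) h1
  · intro a' b' Y1 hr
    by_contra h0
    by_cases hk : ∃ k, g5b_R P T a b Y (Wt P a' b' Y1) k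
    · obtain ⟨k, hk⟩ := hk
      rw [g5b_mu_eq hG hd hab hk] at h0
      obtain ⟨-, h, ha, hb, h2⟩ := g5b_back hG hab hk h0
      exact hY ⟨_, h2, g5b_rk ha hb hr⟩
    · exact h0 (g5b_mu_zero hk)
  · have h1 : g5b_R P T a b Y (Wt P a b Y) 1 :=
      ⟨1, Y, Relation.EqvGen.refl Y, by rw [pow_one, one_mul, inv_one, mul_one]⟩
    rw [g5b_mu_eq hG hd hab h1, Nat.cast_one]
  · intro x hx
    apply g5b_mu_zero
    rintro ⟨k, g, Y', h1, h2⟩
    exact hx ⟨g, Y', k, h1, h2⟩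

end Pool.Agent.helper24.PV
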