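import Pool.Agent.helper24.PV.G4e
import Pool.Agent.helper24.PV.G5b
import Pool.Agent.helper24.PV.G2
import Pool.Agent.helper24.PV.C2

/-!
PV project (MP_c0bc55_al, S02951), block LAWS, module U1: the word problem for infinite rank is
undecidable.
-/

set_option autoImplicit false

namespace Pool.Agent.helper24.PV
open Pool.Agent.helper4.PV Pool.Agent.helper50.BW Pool.Agent.helper47.PV Primrec
variable {P : Par} {T : RM} {d : ℕ}

/-- the letters `x_i` as words -/
def xw (i : ℕ) : W := [(i, true)]

/-- the operations on words of the frame `x0, x1` -/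
def o01W (P : Par) : Ops W := opsW P (xw 0) (xw 1)

/-- the word of the configuration with the `k` names `x2, ..., x(k+1)` -/
def startC (P : Par) (k : ℕ) : W :=
  wWt P (xw 0) (xw 1) ((o01W P).nd ((o01W P).zip (o01W P).Z (o01W P).Z
    ((o01W P).enc ((List.range k).map fun i => xw (i + 2)) (o01W P).Z) ((o01W P).num k))
    ((o01W P).c1 (o01W P).Z))

theorem opsW_hom (P : Par) (d : ℕ) (u v : W) :
    Ops.Hom (opsW P u v) (ops P (wl d u) (wl d v)) (wl d) where
  nd x y := by
    show wl d (wWt P u (wWt P u v x) y) = Wt P (wl d u) (Wt P (wl d u) (wl d v) (wl d x)) (wl d y)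
    rw [wl_wWt, wl_wWt]
  Z := rfl
  O := rfl

theorem U1_marks (P : Par) (k : ℕ) (x : W) :
    (o01W P).marks k x = (fun y => (o01W P).nd (o01W P).O y)^[k] x := by
  induction k with
  | zero => rfl
  | succ k ih => rw [Function.iterate_succ_apply', ← ih]; rfl

theorem U1_enc (P : Par) (l : List W) (e : W) :
    (o01W P).enc l e = l.foldr (fun y s => (o01W P).nd y s) e := by
  induction l with
  | nil => rfl
  | cons y l ih => rw [List.foldr_cons, ← ih]; rfl

theorem prim_wWt2 (P : Par) (u : W) {α : Type} [Primcodable α] {f g : α → W} (hf : Primrec f)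
    (hg : Primrec g) : Primrec fun x => wWt P u (f x) (g x) := by
  have h : Primrec fun x => ((u, f x, g x) : W × W × W) := (const u).pair (hf.pair hg)
  have h2 := (prim_wWt P).comp h
  simp only at h2
  exact h2

theorem prim_nd (P : Par) : Primrec₂ fun x y : W => (o01W P).nd x y := by
  have h1 : Primrec fun p : W × W => wWt P (xw 0) (xw 1) p.1 := prim_wWt2 P _ (const _) fst
  exact prim_wWt2 P (xw 0) h1 snd

theorem prim_iter {f : W → W} (hf : Primrec f) (x : W) : Primrec fun k : ℕ => f^[k] x :=
  Primrec.nat_iterate Primrec.id (const x) (hf.comp snd).to₂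

theorem prim_num (P : Par) : Primrec fun k : ℕ => (o01W P).num k := by
  have hf : Primrec fun y : W => (o01W P).nd (o01W P).O y :=
    (prim_nd P).comp (const (o01W P).O) Primrec.id
  exact (prim_iter hf (o01W P).Z).of_eq fun k => (U1_marks P k _).symm

theorem prim_names : Primrec fun k : ℕ => (List.range k).map fun i => xw (i + 2) := by
  refine list_map list_range ?_
  have h : Primrec fun i : ℕ => xw (i + 2) := by
    unfold xw
    exact list_cons.comp ((nat_add.comp Primrec.id (const 2)).pair (const true)) (const [])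
  exact (h.comp snd).to₂

theorem prim_encN (P : Par) : Primrec fun k : ℕ =>
    (o01W P).enc ((List.range k).map fun i => xw (i + 2)) (o01W P).Z := by
  have h1 : Primrec fun k : ℕ => ((List.range k).map fun i => xw (i + 2)).foldr
      (fun y s => (o01W P).nd y s) (o01W P).Z :=
    list_foldr prim_names (const (o01W P).Z)
      ((prim_nd P).comp (fst.comp snd) (snd.comp snd)).to₂
  exact h1.of_eq fun k => (U1_enc P _ _).symm

theorem prim_start_aux (P : Par) (z c : W) {f g : ℕ → W} (hf : Primrec f) (hg : Primrec g) :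
    Primrec fun k => wWt P (xw 0) (xw 1) ((o01W P).nd ((o01W P).nd z ((o01W P).nd (f k) (g k))) c) := by
  have h1 : Primrec fun k => (o01W P).nd (f k) (g k) := (prim_nd P).comp hf hg
  have h2 : Primrec fun k => (o01W P).nd z ((o01W P).nd (f k) (g k)) := (prim_nd P).comp (const z) h1
  have h3 : Primrec fun k => (o01W P).nd ((o01W P).nd z ((o01W P).nd (f k) (g k))) c :=
    (prim_nd P).comp h2 (const c)
  exact prim_wWt2 P (xw 0) (const (xw 1)) h3

theorem prim_startC (P : Par) : Primrec (startC P) :=
  prim_start_aux P ((o01W P).nd (o01W P).Z (o01W P).Z) ((o01W P).c1 (o01W P).Z) (prim_encN P)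
    (prim_num P)

theorem wl_xw (i : ℕ) : wl d (xw i) = QuotientGroup.mk (X i) := rfl

/-- the start configuration in the free Burnside group -/
theorem wl_startC (P : Par) (d k : ℕ) :
    wl d (startC P k) = Wt P (wl d (xw 0)) (wl d (xw 1))
      ((ops P (wl d (xw 0)) (wl d (xw 1))).nd ((ops P (wl d (xw 0)) (wl d (xw 1))).zip
        (ops P (wl d (xw 0)) (wl d (xw 1))).Z (ops P (wl d (xw 0)) (wl d (xw 1))).Z
        ((ops P (wl d (xw 0)) (wl d (xw 1))).enc ((List.range k).map fun i => wl d (xw (i + 2)))
          (ops P (wl d (xw 0)) (wl d (xw 1))).Z)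
        ((ops P (wl d (xw 0)) (wl d (xw 1))).num k))
        ((ops P (wl d (xw 0)) (wl d (xw 1))).c1 (ops P (wl d (xw 0)) (wl d (xw 1))).Z)) := by
  have h := opsW_hom P d (xw 0) (xw 1)
  have hl : ((List.range k).map fun i => xw (i + 2)).map (wl d) =
      (List.range k).map fun i => wl d (xw (i + 2)) := by
    rw [List.map_map]
    rfl
  unfold startC o01W
  rw [wl_wWt, h.nd, h.zip, h.enc, h.num, h.c1, h.Z, hl]

/-- the frame `x0, x1` is good -/
theorem frame01' (hG : Geo d P) (hd : 2 ≤ d) : ¬ Commute (wl d (xw 0)) (wl d (xw 1)) := by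
  have hd0 : 0 < d := by omega
  have e0 : ∀ i j : ℕ, (exB d hd0 i (wl d (xw j))).toAdd = if i = j then 1 else 0 := by
    intro i j
    rw [exB_wl]
    by_cases h : i = j
    · subst h
      simp [xw, occ]
    · have h' : ¬ j = i := fun h0 => h h0.symm
      simp [xw, occ, h, h']
  have hne : wl d (xw 0) ≠ 1 := by
    intro h
    have h1 := e0 0 0
    rw [h] at h1
    simp only [map_one, toAdd_one, if_true] at h1
    have : (1 : ZMod d) = 0 := h1.symm
    have h2 : ((1 : ℕ) : ZMod d) = 0 := by simpa using this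
    rw [ZMod.natCast_eq_zero_iff] at h2
    have := Nat.le_of_dvd one_pos h2
    omega
  intro hc
  obtain ⟨k, hk⟩ := Subgroup.mem_zpowers_iff.1 (hG.cent _ _ hne hc.symm)
  have h1 := e0 1 1
  have h2 := e0 1 0
  rw [← hk] at h1
  simp only [map_zpow, toAdd_zpow, if_true] at h1
  rw [h2] at h1
  simp only [one_ne_zero, if_false, smul_zero] at h1
  have h2 : ((1 : ℕ) : ZMod d) = 0 := by simpa using h1.symm
  rw [ZMod.natCast_eq_zero_iff] at h2
  have := Nat.le_of_dvd one_pos h2
  omega

/-- membership of the start word -/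
theorem start_mem_iff (hG : Geo d P) (hI : Ind d) (hd : d.Prime) (k : ℕ) :
    FreeGroup.mk (npw (startC P k) d) ∈ Vb P T d ↔ T.Halts k := by
  have hd2 : 2 ≤ d := hd.two_le
  have hfr := frame01' (P := P) hG hd2
  have hA := free_ops hG hd2 hfr
  have hcm : ∀ y y' : BB d, cmG y y' → abG y = abG y' := fun y y' => abG_of_cm
  set l : List (BB d) := (List.range k).map fun i => wl d (xw (i + 2)) with hl
  have hlen : l.length = k := by simp [hl]
  have hnd : (l.map abG).Nodup := by
    rw [hl, List.map_map]
    refine List.Nodup.map ?_ List.nodup_range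
    intro i j hij
    have := abG_X_inj (d := d) hd2 (i := i + 2) (j := j + 2) hij
    omega
  have hdead := start_dead_iff (T := T) hA hcm hnd
  rw [hlen] at hdead
  have hpr : FreeGroup.mk (npw (startC P k) d) = pr d [(FreeGroup.mk (startC P k), 1)] := by
    simp [pr, mk_npw]
  have hmk : (QuotientGroup.mk (FreeGroup.mk (startC P k)) : BB d) = wl d (startC P k) := rfl
  rw [hpr, crit hI hd, ← hdead]
  simp only [List.map_cons, List.map_nil, List.sum_cons, List.sum_nil, add_zero, Int.cast_one,
    one_mul, hmk, wl_startC]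
  constructor
  · intro h
    by_contra hY
    obtain ⟨μ, hμ, h1, -⟩ := sep_cfg (T := T) hG hd hfr hY
    have h2 := h μ hμ
    rw [h1] at h2
    have : Fact (1 < d) := ⟨by omega⟩
    exact one_ne_zero h2
  · intro h μ hμ
    exact adm_Dead hμ h

/-- the word of the start configuration with `k` names -/
def startW (P : Par) (d k : ℕ) : W :=
  let o := opsW P [(0, true)] [(1, true)]
  npw (wWt P [(0, true)] [(1, true)]
    (o.nd (o.zip o.Z o.Z (o.enc ((List.range k).map fun i => [(i + 2, true)]) o.Z) (o.num k)) (o.c1 o.Z))) d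

/-- PV-U1a -/
theorem prim_startW (P : Par) (d : ℕ) : Primrec (startW P d) :=
  prim_npw.comp (prim_startC P) (const d)

/-- PV-U1b.  The frame is good. -/
theorem frame01 (hG : Geo d P) (hd : 2 ≤ d) :
    ¬ Commute (QuotientGroup.mk (X 0) : BB d) (QuotientGroup.mk (X 1) : BB d) :=
  frame01' hG hd

/-- PV-U1c -/
theorem startW_iff (hG : Geo d P) (hI : Ind d) (hd : d.Prime) (k : ℕ) :
    FreeGroup.mk (startW P d k) ∈ Vb P T d ↔ T.Halts k :=
  start_mem_iff hG hI hd k

/-- PV-U1d: undecidability for infinite rank -/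
theorem undec (hG : Geo d P) (hI : Ind d) (hd : d.Prime) (hT : ¬ ComputablePred fun k => T.Halts k) :
    ¬ ComputablePred fun w : W => FreeGroup.mk w ∈ Vb P T d := by
  intro hc
  refine hT ?_
  have h := computablePred_comp hc (prim_startW P d).to_comp
  exact h.of_eq fun k => startW_iff hG hI hd k

end Pool.Agent.helper24.PV
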