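import Pool.Agent.helper24.PV.G4
/-! PV-A1: definitions of combinations; products of `d`-th powers in rank `n`. -/
set_option autoImplicit false
namespace Pool.Agent.helper24.PV
open Pool.Agent.helper4.PV Pool.Agent.helper50.BW Pool.Agent.helper47.PV
variable {P : Par} {T : RM} {d : ℕ}

/-- the retraction onto rank `n` -/
def A1_r (n : ℕ) : FreeGroup ℕ →* FreeGroup ℕ := FreeGroup.lift fun i => if i < n then X i else 1

theorem A1_r_X (n i : ℕ) : A1_r n (X i) = if i < n then X i else 1 := by
  simp [A1_r, X]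

theorem A1_r_mk {n : ℕ} {w : W} (hw : LtN n w) : A1_r n (FreeGroup.mk w) = FreeGroup.mk w := by
  induction w with
  | nil => exact map_one _
  | cons a w ih =>
    have h1 : FreeGroup.mk (a :: w) = FreeGroup.mk [a] * FreeGroup.mk w := by
      rw [FreeGroup.mul_mk]; rfl
    have h2 : A1_r n (FreeGroup.mk [a]) = FreeGroup.mk [a] := by
      obtain ⟨i, b⟩ := a
      have hi : i < n := hw (i, b) (by simp)
      have h3 : A1_r n (FreeGroup.mk [(i, true)]) = FreeGroup.mk [(i, true)] := by
        have := A1_r_X n i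
        rw [if_pos hi] at this
        exact this
      cases b
      · have h4 : (FreeGroup.mk [(i, false)] : FreeGroup ℕ) = (FreeGroup.mk [(i, true)])⁻¹ := by
          rw [FreeGroup.inv_mk]; rfl
        rw [h4, map_inv, h3]
      · exact h3
    rw [h1, map_mul, h2, ih fun b hb => hw b (List.mem_cons_of_mem _ hb)]

theorem A1_r_pr (n : ℕ) (c : List (FreeGroup ℕ × ℤ)) :
    A1_r n (pr d c) = pr d (c.map fun p => (A1_r n p.1, p.2)) := by
  induction c with
  | nil => exact map_one _
  | cons a c ih =>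
    simp only [pr, List.map_cons, List.prod_cons, map_mul, map_zpow, map_pow] at ih ⊢
    rw [ih]

theorem A1_r_mem (n : ℕ) (x : FreeGroup ℕ) : (QuotientGroup.mk (A1_r n x) : BB d) ∈ Bn n d := by
  have hmul : ∀ x y : FreeGroup ℕ, (QuotientGroup.mk (x * y) : BB d) =
      QuotientGroup.mk x * QuotientGroup.mk y := fun _ _ => rfl
  have hinv : ∀ x : FreeGroup ℕ, (QuotientGroup.mk x⁻¹ : BB d) = (QuotientGroup.mk x)⁻¹ :=
    fun _ => rfl
  have hone : (QuotientGroup.mk (1 : FreeGroup ℕ) : BB d) = 1 := rfl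
  induction x using FreeGroup.induction_on with
  | C1 => rw [map_one, hone]; exact one_mem _
  | of i =>
    have := A1_r_X n i
    by_cases hi : i < n
    · rw [if_pos hi] at this
      refine Subgroup.subset_closure ⟨i, hi, ?_⟩
      exact congrArg _ this
    · rw [if_neg hi] at this
      have h2 : (QuotientGroup.mk (A1_r n (FreeGroup.of i)) : BB d) = 1 := by
        rw [← hone]; exact congrArg _ this
      exact h2 ▸ one_mem _
  | inv_of i ih => rw [map_inv, hinv]; exact inv_mem ih
  | mul x y hx hy => rw [map_mul, hmul]; exact mul_mem hx hy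

/-- PV-A1a.  Products of `d`-th powers inside rank `n`.
PROOF. `mk w = pr d c` (G4c); apply the retraction `r := FreeGroup.lift (fun i => if i < n then X i else 1)`
of `FreeGroup ℕ`: `r (mk w) = mk w` (letters `< n`; induction on `w`), `r (pr d c) = pr d (c.map (r, id))`
(`map_list_prod`), and the class of `r x` lies in `Bn n d` (`FreeGroup.induction_on` for `x`). -/
theorem exists_pr_rank {n : ℕ} {w : W} (hw : LtN n w) (h : Triv d w) :
    ∃ c : List (FreeGroup ℕ × ℤ), FreeGroup.mk w = pr d c ∧
      ∀ p ∈ c, (QuotientGroup.mk p.1 : BB d) ∈ Bn n d := by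
  obtain ⟨c, hc⟩ := exists_pr (d := d) h
  refine ⟨c.map fun p => (A1_r n p.1, p.2), ?_, ?_⟩
  · rw [← A1_r_mk hw, hc, A1_r_pr]
  · intro p hp
    obtain ⟨q, -, rfl⟩ := List.mem_map.1 hp
    exact A1_r_mem n q.1

/-- value of `μ` on a combination of normal forms -/
def vl (P : Par) {d : ℕ} (μ : BB d → ZMod d) (c : List (Dt × ℕ)) : ZMod d :=
  (c.map fun p => (p.2 : ZMod d) * μ (wl d (p.1.x P))).sum

/-- the conditions on a combination of normal forms -/
def Good (P : Par) (T : RM) (d : ℕ) (adv : Finset ℕ) (c : List (Dt × ℕ)) : Prop :=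
  (∀ p ∈ c, NrmD P T d adv p.1) ∧ c.Pairwise fun p q => ¬ SameD d p.1 q.1 ∧ ¬ SameD d q.1 p.1

/-- the word of a combination -/
def cW (P : Par) (d : ℕ) (c : List (Dt × ℕ)) : W := c.flatMap fun p => npw (npw (p.1.x P) d) p.2

/-- PV-A1e. PROOF. `mk_npw`, induction. -/
theorem mk_cW (c : List (Dt × ℕ)) :
    FreeGroup.mk (cW P d c) = pr d (c.map fun p => (FreeGroup.mk (p.1.x P), (p.2 : ℤ))) := by
  induction c with
  | nil => rfl
  | cons a c ih =>
    have h1 : FreeGroup.mk (cW P d (a :: c)) =
        FreeGroup.mk (npw (npw (a.1.x P) d) a.2) * FreeGroup.mk (cW P d c) := by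
      rw [FreeGroup.mul_mk]; rfl
    rw [h1, ih, mk_npw, mk_npw]
    simp only [pr, List.map_cons, List.prod_cons, zpow_natCast]

end Pool.Agent.helper24.PV
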