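import Pool.Agent.helper24.PV.A1
import Pool.Agent.helper24.PV.W
/-! PV-A1 (second part): combinations of normal forms. -/
set_option autoImplicit false
namespace Pool.Agent.helper24.PV
open Pool.Agent.helper4.PV Pool.Agent.helper50.BW Pool.Agent.helper47.PV
variable {P : Par} {T : RM} {d : ℕ}

/-- `Good` depends only on the list of the data -/
theorem A1b_good_iff {adv : Finset ℕ} (c : List (Dt × ℕ)) : Good P T d adv c ↔
    (∀ t ∈ c.map Prod.fst, NrmD P T d adv t) ∧
      (c.map Prod.fst).Pairwise fun t t' => ¬ SameD d t t' ∧ ¬ SameD d t' t := by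
  unfold Good
  rw [List.pairwise_map]
  refine and_congr ⟨fun h t ht => ?_, fun h p hp => h _ (List.mem_map_of_mem hp)⟩ Iff.rfl
  obtain ⟨p, hp, rfl⟩ := List.mem_map.1 ht
  exact h p hp

theorem A1b_vl_append (μ : BB d → ZMod d) (c c' : List (Dt × ℕ)) :
    vl P μ (c ++ c') = vl P μ c + vl P μ c' := by
  unfold vl
  rw [List.map_append, List.sum_append]

theorem A1b_vl_cons (μ : BB d → ZMod d) (p : Dt × ℕ) (c : List (Dt × ℕ)) :
    vl P μ (p :: c) = (p.2 : ZMod d) * μ (wl d (p.1.x P)) + vl P μ c := by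
  unfold vl
  rw [List.map_cons, List.sum_cons]

theorem A1b_vl_nil (μ : BB d → ZMod d) : vl P μ [] = 0 := rfl

/-- representatives of residues -/
theorem A1b_val (hd : d.Prime) (k : ZMod d) : ((k.val : ℕ) : ZMod d) = k := by
  haveI : NeZero d := ⟨hd.ne_zero⟩
  exact ZMod.natCast_zmod_val k

/-- the same normal forms are proportional, in both directions -/
theorem A1b_prop (hG : Geo d P) (hd : d.Prime) {adv : Finset ℕ} (hadv : ∀ k ∈ adv, ¬ T.Halts k)
    {s t : Dt} (hs : NrmD P T d adv s) (ht : NrmD P T d adv t) (h : SameD d s t ∨ SameD d t s) :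
    ∃ m : ZMod d, ∀ μ, Adm P T d μ → μ (wl d (t.x P)) = m * μ (wl d (s.x P)) := by
  haveI : Fact d.Prime := ⟨hd⟩
  rcases h with h | h
  · exact same_prop ((sameD_iff hG hd hs ht).1 h)
  · obtain ⟨m, hm⟩ := same_prop (T := T) ((sameD_iff hG hd ht hs).1 h)
    have hm0 : m ≠ 0 := by
      rintro rfl
      obtain ⟨μ, hμ, h1, -⟩ := sep hG hd (nrmD_sound hadv hs)
      have := hm μ hμ
      rw [h1, zero_mul] at this
      exact one_ne_zero this
    refine ⟨m⁻¹, fun μ hμ => ?_⟩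
    rw [hm μ hμ, ← mul_assoc, inv_mul_cancel₀ hm0, one_mul]

/-- PV-A1b.  Adding one normal form to a combination.
PROOF. If some `p ∈ c` has `SameD d p.1 t` or `SameD d t p.1`: by `sameD_iff`, `same_prop` there is `m` with
`μ (x t) = m μ (x p)` for all `μ`, or `μ (x p) = m μ (x t)` for all `μ`; in the second case `m ≠ 0` because
`sep` (with `nrmD_sound`) gives `μ` with `μ (x p) = 1`, so `μ (x t) = m⁻¹ μ (x p)`.  Change the coefficient of
`p` (`List.append_of_mem`; the list of the data does not change, so the conditions stay).  Otherwise take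
`(t, k) :: c`. (`k` = representative of the coefficient: `ZMod.natCast_zmod_val`.) -/
theorem good_add (hG : Geo d P) (hd : d.Prime) {adv : Finset ℕ} (hadv : ∀ k ∈ adv, ¬ T.Halts k)
    {c : List (Dt × ℕ)} (hc : Good P T d adv c) {t : Dt} (ht : NrmD P T d adv t) (k : ZMod d) :
    ∃ c', Good P T d adv c' ∧ ∀ μ, Adm P T d μ → vl P μ c' = vl P μ c + k * μ (wl d (t.x P)) := by
  classical
  by_cases h : ∃ p ∈ c, SameD d p.1 t ∨ SameD d t p.1
  · obtain ⟨p, hp, hpt⟩ := h
    obtain ⟨m, hm⟩ := A1b_prop hG hd hadv (hc.1 p hp) ht hpt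
    obtain ⟨c1, c2, rfl⟩ := List.append_of_mem hp
    refine ⟨c1 ++ (p.1, ((p.2 : ZMod d) + k * m).val) :: c2, ?_, fun μ hμ => ?_⟩
    · rw [A1b_good_iff] at hc ⊢
      have : (c1 ++ (p.1, ((p.2 : ZMod d) + k * m).val) :: c2).map Prod.fst =
          (c1 ++ p :: c2).map Prod.fst := by
        simp only [List.map_append, List.map_cons]
      rw [this]
      exact hc
    · rw [A1b_vl_append, A1b_vl_append, A1b_vl_cons, A1b_vl_cons, hm μ hμ]
      simp only
      rw [A1b_val hd]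
      ring
  · push Not at h
    refine ⟨(t, k.val) :: c, ⟨?_, ?_⟩, fun μ _ => ?_⟩
    · intro p hp
      rcases List.mem_cons.1 hp with rfl | hp
      · exact ht
      · exact hc.1 p hp
    · rw [List.pairwise_cons]
      refine ⟨fun p hp => ⟨(h p hp).2, (h p hp).1⟩, hc.2⟩
    · rw [A1b_vl_cons]
      simp only
      rw [A1b_val hd, add_comm]

/-- PV-A1c.  Every combination is equal to a combination of different normal forms.
PROOF. Induction on `c0`; for `(x, m)`: `complete_rank`: killed: nothing to add; isolated: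
`nrmD_complete_iso`; otherwise `nrmD_complete`; `good_add`. -/
theorem exists_good (hG : Geo d P) (hd : d.Prime) {n : ℕ} {adv : Finset ℕ}
    (hadv : ∀ k ∈ adv, ¬ T.Halts k) (hadv' : ∀ k ≤ d ^ n, ¬ T.Halts k → k ∈ adv)
    (c0 : List (FreeGroup ℕ × ℤ)) (h0 : ∀ p ∈ c0, (QuotientGroup.mk p.1 : BB d) ∈ Bn n d) :
    ∃ c, Good P T d adv c ∧ ∀ μ, Adm P T d μ →
      (c0.map fun p => (p.2 : ZMod d) * μ (QuotientGroup.mk p.1)).sum = vl P μ c := by
  induction c0 with
  | nil =>
    refine ⟨[], ⟨fun p hp => absurd hp List.not_mem_nil, List.Pairwise.nil⟩, fun μ _ => ?_⟩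
    rw [A1b_vl_nil]
    rfl
  | cons p c0 ih =>
    obtain ⟨c, hc, hv⟩ := ih fun q hq => h0 q (List.mem_cons_of_mem _ hq)
    have hp := h0 p List.mem_cons_self
    rcases complete_rank (T := T) hG hd hp with h | ⟨h1, h2⟩ | ⟨a, ha, b, hb, Y, hY, hab, hN, m, hm⟩
    · refine ⟨c, hc, fun μ hμ => ?_⟩
      rw [List.map_cons, List.sum_cons, hv μ hμ, h μ hμ, mul_zero, zero_add]
    · obtain ⟨t, ht, hx⟩ := nrmD_complete_iso (T := T) adv h1 h2
      obtain ⟨c', hc', hv'⟩ := good_add hG hd hadv hc ht (p.2 : ZMod d)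
      refine ⟨c', hc', fun μ hμ => ?_⟩
      rw [List.map_cons, List.sum_cons, hv μ hμ, hv' μ hμ, hx, add_comm]
    · obtain ⟨t, ht, hx⟩ := nrmD_complete hG hd hadv' ha hb hY hab hN
      obtain ⟨c', hc', hv'⟩ := good_add hG hd hadv hc ht ((p.2 : ZMod d) * m)
      refine ⟨c', hc', fun μ hμ => ?_⟩
      rw [List.map_cons, List.sum_cons, hv μ hμ, hv' μ hμ, hx, hm μ hμ, add_comm, mul_assoc]

/-- PV-A1d.  A combination of different normal forms with a nonzero coefficient is detected.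
PROOF. `c = c1 ++ p :: c2`; `sep` for `p`: `μ (x p) = 1` and `μ (x q) = 0` for the others (`sameD_iff`,
`Pairwise` in both directions). -/
theorem good_ne (hG : Geo d P) (hd : d.Prime) {adv : Finset ℕ} (hadv : ∀ k ∈ adv, ¬ T.Halts k)
    {c : List (Dt × ℕ)} (hc : Good P T d adv c) (h : ∃ p ∈ c, ¬ d ∣ p.2) :
    ∃ μ, Adm P T d μ ∧ vl P μ c ≠ 0 := by
  obtain ⟨p, hp, hpd⟩ := h
  obtain ⟨μ, hμ, h1, h2⟩ := sep hG hd (nrmD_sound hadv (hc.1 p hp))
  refine ⟨μ, hμ, ?_⟩
  have key : ∀ q ∈ c, ¬ SameD d p.1 q.1 → μ (wl d (q.1.x P)) = 0 := fun q hq hs =>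
    h2 _ (nrmD_sound hadv (hc.1 q hq)) fun h =>
      hs ((sameD_iff hG hd (hc.1 p hp) (hc.1 q hq)).2 h)
  obtain ⟨c1, c2, rfl⟩ := List.append_of_mem hp
  have hz : ∀ l : List (Dt × ℕ), (∀ q ∈ l, μ (wl d (q.1.x P)) = 0) → vl P μ l = 0 := by
    intro l hl
    induction l with
    | nil => rfl
    | cons q l ih =>
      rw [A1b_vl_cons, hl q List.mem_cons_self, mul_zero, zero_add]
      exact ih fun q' hq' => hl q' (List.mem_cons_of_mem _ hq')
  have hpw := List.pairwise_append.1 hc.2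
  have hpw2 := List.pairwise_cons.1 hpw.2.1
  have e1 : vl P μ c1 = 0 := hz c1 fun q hq =>
    key q (List.mem_append_left _ hq) (hpw.2.2 q hq p List.mem_cons_self).2
  have e2 : vl P μ c2 = 0 := hz c2 fun q hq =>
    key q (List.mem_append_right _ (List.mem_cons_of_mem _ hq)) (hpw2.1 q hq).1
  rw [A1b_vl_append, A1b_vl_cons, e1, e2, h1, mul_one, zero_add, add_zero]
  intro h0
  exact hpd ((ZMod.natCast_eq_zero_iff _ _).1 h0)

end Pool.Agent.helper24.PV
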