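import Pool.Agent.helper24.PV.G4
/-! PV-G4 (second part): the criterion for membership in the verbal subgroup. -/
set_option autoImplicit false
namespace Pool.Agent.helper24.PV
open Pool.Agent.helper4.PV Pool.Agent.helper50.BW Pool.Agent.helper47.PV
variable {P : Par} {T : RM} {d : ℕ}

theorem G4e_pow_mem (x : FreeGroup ℕ) : x ^ d ∈ Fd d := Subgroup.subset_closure ⟨x, rfl⟩

theorem G4e_one {θ : FreeGroup ℕ → ZMod d}
    (h1 : ∀ x ∈ Fd d, ∀ y ∈ Fd d, θ (x * y) = θ x + θ y) : θ 1 = 0 := by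
  have h := h1 1 (one_mem _) 1 (one_mem _)
  rw [one_mul] at h
  exact (add_eq_left.1 h.symm)

theorem G4e_inv {θ : FreeGroup ℕ → ZMod d}
    (h1 : ∀ x ∈ Fd d, ∀ y ∈ Fd d, θ (x * y) = θ x + θ y) {x : FreeGroup ℕ} (hx : x ∈ Fd d) :
    θ x⁻¹ = - θ x := by
  have h := h1 x hx x⁻¹ (inv_mem hx)
  rw [mul_inv_cancel, G4e_one h1] at h
  exact (neg_eq_of_add_eq_zero_right h.symm).symm

theorem G4e_npow {θ : FreeGroup ℕ → ZMod d}
    (h1 : ∀ x ∈ Fd d, ∀ y ∈ Fd d, θ (x * y) = θ x + θ y) {x : FreeGroup ℕ} (hx : x ∈ Fd d) (k : ℕ) :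
    θ (x ^ k) = k * θ x := by
  induction k with
  | zero => rw [pow_zero, G4e_one h1]; simp
  | succ k ih => rw [pow_succ, h1 _ (pow_mem hx k) _ hx, ih]; push_cast; ring

theorem G4e_zpow {θ : FreeGroup ℕ → ZMod d}
    (h1 : ∀ x ∈ Fd d, ∀ y ∈ Fd d, θ (x * y) = θ x + θ y) {x : FreeGroup ℕ} (hx : x ∈ Fd d) (k : ℤ) :
    θ (x ^ k) = k * θ x := by
  obtain ⟨n, rfl | rfl⟩ := k.eq_nat_or_neg
  · rw [zpow_natCast, G4e_npow h1 hx]; simp
  · rw [zpow_neg, zpow_natCast, G4e_inv h1 (pow_mem hx n), G4e_npow h1 hx]; push_cast; ring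

theorem G4e_pr {θ : FreeGroup ℕ → ZMod d}
    (h1 : ∀ x ∈ Fd d, ∀ y ∈ Fd d, θ (x * y) = θ x + θ y) {μ : BB d → ZMod d}
    (h3 : ∀ x : FreeGroup ℕ, θ (x ^ d) = μ (QuotientGroup.mk x)) (c : List (FreeGroup ℕ × ℤ)) :
    θ (pr d c) = (c.map fun p => (p.2 : ZMod d) * μ (QuotientGroup.mk p.1)).sum := by
  induction c with
  | nil => exact G4e_one h1
  | cons p c ih =>
    have e : pr d (p :: c) = (p.1 ^ d) ^ p.2 * pr d c := by simp [pr]
    rw [e, h1 _ (zpow_mem (G4e_pow_mem p.1) p.2) _ (pr_mem c), ih, G4e_zpow h1 (G4e_pow_mem p.1), h3]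
    simp

/-- a functional that vanishes on `Vb` only depends on the class modulo `Vb` -/
theorem G4e_congr {θ : FreeGroup ℕ → ZMod d}
    (h1 : ∀ x ∈ Fd d, ∀ y ∈ Fd d, θ (x * y) = θ x + θ y) (h2 : ∀ x ∈ Vb P T d, θ x = 0)
    {u v : FreeGroup ℕ} (hv : v ∈ Fd d) (h : u * v⁻¹ ∈ Vb P T d) : θ u = θ v := by
  have h3 := h1 _ (Vb_le_Fd h) v hv
  rw [inv_mul_cancel_right, h2 _ h, zero_add] at h3
  exact h3

theorem G4e_commute {z f : FreeGroup ℕ} (hz : z ∈ Fd d) :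
    Commute (QuotientGroup.mk z : FreeGroup ℕ ⧸ Vb P T d) (QuotientGroup.mk f) := by
  have h := (Fd_central (P := P) (T := T) (f := f) hz).1
  rw [← QuotientGroup.eq_one_iff] at h
  have h' : (QuotientGroup.mk z * QuotientGroup.mk f * (QuotientGroup.mk z)⁻¹ * (QuotientGroup.mk f)⁻¹ :
      FreeGroup ℕ ⧸ Vb P T d) = 1 := h
  exact (commutatorElement_eq_one_iff_commute (g₁ := (QuotientGroup.mk z : FreeGroup ℕ ⧸ Vb P T d))).1 h'

theorem G4e_mem_of_eq {u v : FreeGroup ℕ}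
    (h : (QuotientGroup.mk u : FreeGroup ℕ ⧸ Vb P T d) = QuotientGroup.mk v) : u * v⁻¹ ∈ Vb P T d := by
  rw [← QuotientGroup.eq_one_iff]
  show (QuotientGroup.mk u * (QuotientGroup.mk v)⁻¹ : FreeGroup ℕ ⧸ Vb P T d) = 1
  rw [h, mul_inv_cancel]

theorem G4e_mul_pow {x z : FreeGroup ℕ} (hz : z ∈ Fd d) : (x * z) ^ d * (x ^ d)⁻¹ ∈ Vb P T d := by
  apply G4e_mem_of_eq
  show (QuotientGroup.mk x * QuotientGroup.mk z : FreeGroup ℕ ⧸ Vb P T d) ^ d = (QuotientGroup.mk x) ^ d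
  rw [((G4e_commute hz).symm).mul_pow]
  have h : (QuotientGroup.mk z : FreeGroup ℕ ⧸ Vb P T d) ^ d = 1 :=
    (QuotientGroup.eq_one_iff _).2 (Fd_central (P := P) (T := T) (f := 1) hz).2
  rw [h, mul_one]

theorem G4e_conj {x g : FreeGroup ℕ} (hx : x ∈ Fd d) : g * x * g⁻¹ * x⁻¹ ∈ Vb P T d := by
  apply G4e_mem_of_eq
  show (QuotientGroup.mk g * QuotientGroup.mk x * (QuotientGroup.mk g)⁻¹ : FreeGroup ℕ ⧸ Vb P T d)
    = QuotientGroup.mk x
  rw [← (G4e_commute (P := P) (T := T) (f := g) hx).eq, mul_inv_cancel_right]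

theorem G4e_law {p : FreeGroup ℕ × FreeGroup ℕ} (hp : p ∈ lawSet P T d) (f : FreeGroup ℕ →* FreeGroup ℕ) :
    f p.1 ^ d * (f p.2 ^ d)⁻¹ ∈ Vb P T d := by
  have h : p.1 ^ d * (p.2 ^ d)⁻¹ ∈ Laws P T d := by
    unfold Laws
    exact Finset.mem_union_right _ (Finset.mem_image.2 ⟨p, hp, rfl⟩)
  have h' := VV_law _ h f
  rwa [map_mul, map_inv, map_pow, map_pow] at h'

/-- PV-G4e.  A functional gives an admissible function.
PROOF. `μ (class of x) := θ (x ^ d)`; well-defined: `(x z)^d ≡ x^d z^d` modulo `Vb` for `z ∈ Fd` (G4b: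
central), and `z ^ d ∈ Vb`; use `Quotient.out`/`Function.surjInv` for the definition and this lemma.
Class function: `θ (g x^d g⁻¹) = θ (x^d)` since `[x^d, g] ∈ Vb`.  `pow`: `θ ((x^k)^d) = θ ((x^d)^k)`.
`law`: lift `φ : FreeGroup ℕ →* BB d` to `FreeGroup ℕ →* FreeGroup ℕ` (free), then
`φ' u ^ d * (φ' v ^ d)⁻¹ ∈ Vb`. -/
theorem adm_of_functional (hd : 0 < d) {θ : FreeGroup ℕ → ZMod d}
    (h1 : ∀ x ∈ Fd d, ∀ y ∈ Fd d, θ (x * y) = θ x + θ y) (h2 : ∀ x ∈ Vb P T d, θ x = 0) :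
    ∃ μ, Adm P T d μ ∧ ∀ x : FreeGroup ℕ, μ (QuotientGroup.mk x) = θ (x ^ d) := by
  have key : ∀ x : FreeGroup ℕ, θ ((QuotientGroup.mk x : BB d).out ^ d) = θ (x ^ d) := by
    intro x
    obtain ⟨z, hz⟩ := QuotientGroup.mk_out_eq_mul (Fd d) x
    rw [hz]
    exact G4e_congr h1 h2 (G4e_pow_mem x) (G4e_mul_pow z.2)
  refine ⟨fun q => θ (q.out ^ d), ⟨?_, ?_, ?_⟩, key⟩
  · intro g x
    induction g using QuotientGroup.induction_on with
    | H g =>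
      induction x using QuotientGroup.induction_on with
      | H x =>
        have e : (QuotientGroup.mk g * QuotientGroup.mk x * (QuotientGroup.mk g)⁻¹ : BB d)
            = QuotientGroup.mk (g * x * g⁻¹) := rfl
        simp only [e, key]
        rw [conj_pow]
        exact G4e_congr h1 h2 (G4e_pow_mem x) (G4e_conj (G4e_pow_mem x))
  · intro x k
    induction x using QuotientGroup.induction_on with
    | H x =>
      have e : (QuotientGroup.mk x : BB d) ^ k = QuotientGroup.mk (x ^ k) := rfl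
      simp only [e, key]
      rw [← pow_mul, mul_comm k d, pow_mul, G4e_npow h1 (G4e_pow_mem x)]
  · intro p hp φ
    set φ' : FreeGroup ℕ →* FreeGroup ℕ := FreeGroup.lift fun i => (φ (FreeGroup.of i)).out with hφ'
    have hφ : ∀ w, φ w = QuotientGroup.mk (φ' w) := by
      intro w
      have e : φ = (QuotientGroup.mk' (Fd d)).comp φ' := by
        ext i
        simp [hφ']
      rw [e]
      rfl
    rw [hφ, hφ]
    simp only [key]
    exact G4e_congr h1 h2 (G4e_pow_mem _) (G4e_law hp φ')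

/-- PV-G4f.  A homomorphism on `Fd` as in `Ind` for an admissible `μ` vanishes on `Vb`.
PROOF. `Subgroup.closure_induction` (`θ` additive on `Fd`, `Vb ≤ Fd`; `θ 1 = 0`, `θ x⁻¹ = - θ x`).
Law values: `θ (x^d y x^(-d) y⁻¹) = θ (x^d) + θ (y x^(-d) y⁻¹) = 0`; `θ ((x^d)^d) = d θ (x^d) = 0`;
`θ (u^d (v^d)⁻¹) = μ (φ u) - μ (φ v) = 0` where `φ` is the composition of the substitution with the
quotient map. -/
theorem functional_zero {μ : BB d → ZMod d} (hμ : Adm P T d μ) {θ : FreeGroup ℕ → ZMod d}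
    (h1 : ∀ x ∈ Fd d, ∀ y ∈ Fd d, θ (x * y) = θ x + θ y)
    (h2 : ∀ f, ∀ x ∈ Fd d, θ (f * x * f⁻¹) = θ x)
    (h3 : ∀ x : FreeGroup ℕ, θ (x ^ d) = μ (QuotientGroup.mk x)) :
    ∀ x ∈ Vb P T d, θ x = 0 := by
  have hn : (Fd d).Normal := Fd_normal d
  intro x hx
  have hx' : x ∈ Subgroup.closure (lawVals (Laws P T d) ℕ) := hx
  refine Subgroup.closure_induction (p := fun x _ => θ x = 0) ?_ ?_ ?_ ?_ hx'
  · rintro _ ⟨w, hw, f, rfl⟩
    unfold Laws at hw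
    rw [Finset.mem_union, Finset.mem_insert, Finset.mem_singleton, Finset.mem_image] at hw
    rcases hw with (rfl | rfl) | ⟨p, hp, rfl⟩
    · have e : f (X 0 ^ d * X 1 * (X 0 ^ d)⁻¹ * (X 1)⁻¹)
          = f (X 0) ^ d * (f (X 1) * (f (X 0) ^ d)⁻¹ * (f (X 1))⁻¹) := by
        simp only [map_mul, map_inv, map_pow]
        group
      have hm : f (X 0) ^ d ∈ Fd d := G4e_pow_mem _
      rw [e, h1 _ hm _ (hn.conj_mem _ (inv_mem hm) _), h2 _ _ (inv_mem hm), G4e_inv h1 hm]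
      ring
    · have hm : f (X 0) ^ d ∈ Fd d := G4e_pow_mem _
      rw [map_pow, pow_mul, G4e_npow h1 hm]
      simp
    · have e : f (p.1 ^ d * (p.2 ^ d)⁻¹) = f p.1 ^ d * (f p.2 ^ d)⁻¹ := by
        simp only [map_mul, map_inv, map_pow]
      have hm1 : f p.1 ^ d ∈ Fd d := G4e_pow_mem _
      have hm2 : f p.2 ^ d ∈ Fd d := G4e_pow_mem _
      rw [e, h1 _ hm1 _ (inv_mem hm2), G4e_inv h1 hm2, h3, h3]
      have h4 := hμ.law p hp ((QuotientGroup.mk' (Fd d)).comp f)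
      have h5 : μ (QuotientGroup.mk (f p.1)) = μ (QuotientGroup.mk (f p.2)) := h4
      rw [h5]
      ring
  · exact G4e_one h1
  · intro x y hx hy h h'
    have hx1 : x ∈ Vb P T d := hx
    have hy1 : y ∈ Vb P T d := hy
    rw [h1 x (Vb_le_Fd hx1) y (Vb_le_Fd hy1), h, h', add_zero]
  · intro x hx h
    have hx1 : x ∈ Vb P T d := hx
    rw [G4e_inv h1 (Vb_le_Fd hx1), h, neg_zero]

/-- PV-G4g.  The criterion.
PROOF. (⇒) for `μ` take `θ` from `Ind` (G4f); `θ (pr d c) = Σ m_i μ(x_i)`.  (⇐) if `pr d c ∉ Vb` take `θ` from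
G4d, `μ` from G4e: `Σ m_i μ(x_i) = θ (pr d c) ≠ 0`. -/
theorem crit (hI : Ind d) (hd : d.Prime) (c : List (FreeGroup ℕ × ℤ)) :
    pr d c ∈ Vb P T d ↔ ∀ μ, Adm P T d μ →
      (c.map fun p => (p.2 : ZMod d) * μ (QuotientGroup.mk p.1)).sum = 0 := by
  constructor
  · intro h μ hμ
    obtain ⟨θ, h1, h2, h3⟩ := hI μ hμ.conj hμ.pow
    rw [← G4e_pr h1 h3]
    exact functional_zero hμ h1 h2 h3 _ h
  · intro h
    by_contra hw
    obtain ⟨θ, h1, h2, h3⟩ := exists_functional hd (pr_mem c) hw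
    obtain ⟨μ, hμ, h4⟩ := adm_of_functional hd.pos h1 h2
    apply h3
    rw [G4e_pr h1 (fun x => (h4 x).symm)]
    exact h μ hμ

end Pool.Agent.helper24.PV
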