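import Pool.Agent.helper24.PV.A1b
import Pool.Agent.helper24.PV.G4e
/-! PV-A1 (third part): certificates. -/
set_option autoImplicit false
namespace Pool.Agent.helper24.PV
open Pool.Agent.helper4.PV Pool.Agent.helper50.BW Pool.Agent.helper47.PV
variable {P : Par} {T : RM} {d : ℕ}

/-- the inverse combination -/
def A1f_inv (c : List (FreeGroup ℕ × ℤ)) : List (FreeGroup ℕ × ℤ) := (c.map fun p => (p.1, -p.2)).reverse

theorem A1f_pr_append (c c' : List (FreeGroup ℕ × ℤ)) : pr d (c ++ c') = pr d c * pr d c' := by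
  unfold pr
  rw [List.map_append, List.prod_append]

theorem A1f_pr_inv (c : List (FreeGroup ℕ × ℤ)) : pr d (A1f_inv c) = (pr d c)⁻¹ := by
  unfold pr A1f_inv
  rw [List.prod_inv_reverse, List.map_reverse, List.map_map, List.map_map]
  congr 2
  refine List.map_congr_left fun p _ => ?_
  simp only [Function.comp_apply, zpow_neg]

/-- the value of a combination of powers -/
def A1f_s (μ : BB d → ZMod d) (c : List (FreeGroup ℕ × ℤ)) : ZMod d :=
  (c.map fun p => (p.2 : ZMod d) * μ (QuotientGroup.mk p.1)).sum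

theorem A1f_s_append (μ : BB d → ZMod d) (c c' : List (FreeGroup ℕ × ℤ)) :
    A1f_s μ (c ++ c') = A1f_s μ c + A1f_s μ c' := by
  unfold A1f_s
  rw [List.map_append, List.sum_append]

theorem A1f_s_inv (μ : BB d → ZMod d) (c : List (FreeGroup ℕ × ℤ)) :
    A1f_s μ (A1f_inv c) = - A1f_s μ c := by
  unfold A1f_s A1f_inv
  rw [List.map_reverse, List.sum_reverse, List.map_map]
  induction c with
  | nil => simp
  | cons p c ih =>
    rw [List.map_cons, List.sum_cons, List.map_cons, List.sum_cons, ih, neg_add]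
    simp only [Function.comp_apply, Int.cast_neg, neg_mul]

theorem A1f_s_vl (μ : BB d → ZMod d) (c : List (Dt × ℕ)) :
    A1f_s μ (c.map fun p => (FreeGroup.mk (p.1.x P), (p.2 : ℤ))) = vl P μ c := by
  unfold A1f_s vl
  rw [List.map_map]
  refine congrArg List.sum (List.map_congr_left fun p _ => ?_)
  simp only [Function.comp_apply, Int.cast_natCast]
  rfl

theorem A1f_mk (w v : W) :
    (FreeGroup.mk (w ++ FreeGroup.invRev v) : FreeGroup ℕ) = FreeGroup.mk w * (FreeGroup.mk v)⁻¹ := by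
  rw [FreeGroup.inv_mk, FreeGroup.mul_mk]

/-- PV-A1f.  Certificates for `w ∉ V`.
PROOF. (⇒) A1a, A1c; `crit` for the list `c0 ++ (inverse of c)`: `pr d` of the reversed list with
negated exponents is the inverse of `pr d`; `mk (w ++ invRev (cW c)) ∈ Vb`.  If all coefficients of `c`
were divisible by `d` then `vl = 0` and `w ∈ Vb` by `crit`.  (⇐) if `w ∈ Vb` then `cW c ∈ Vb`, `crit`,
A1d. -/
theorem not_mem_iff (hG : Geo d P) (hI : Ind d) (hd : d.Prime) {n : ℕ} {adv : Finset ℕ}
    (hadv : ∀ k ∈ adv, ¬ T.Halts k) (hadv' : ∀ k ≤ d ^ n, ¬ T.Halts k → k ∈ adv)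
    {w : W} (hw : LtN n w) (h : Triv d w) :
    FreeGroup.mk w ∉ Vb P T d ↔ ∃ c : List (Dt × ℕ), Good P T d adv c ∧ (∃ p ∈ c, ¬ d ∣ p.2) ∧
      FreeGroup.mk (w ++ FreeGroup.invRev (cW P d c)) ∈ Vb P T d := by
  constructor
  · intro hn
    obtain ⟨c0, hc0, h0⟩ := exists_pr_rank hw h
    obtain ⟨c, hc, hv⟩ := exists_good hG hd hadv hadv' c0 h0
    refine ⟨c, hc, ?_, ?_⟩
    · by_contra hne
      push Not at hne
      apply hn
      rw [hc0]
      refine (crit hI hd c0).2 fun μ hμ => ?_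
      rw [hv μ hμ]
      unfold vl
      refine List.sum_eq_zero fun x hx => ?_
      obtain ⟨p, hp, rfl⟩ := List.mem_map.1 hx
      rw [(ZMod.natCast_eq_zero_iff _ _).2 (hne p hp), zero_mul]
    · rw [A1f_mk, hc0, mk_cW, ← A1f_pr_inv, ← A1f_pr_append]
      refine (crit hI hd _).2 fun μ hμ => ?_
      have e := A1f_s_append μ c0
        (A1f_inv (c.map fun p => (FreeGroup.mk (p.1.x P), (p.2 : ℤ))))
      rw [A1f_s_inv, A1f_s_vl, ← hv μ hμ] at e
      rw [← sub_eq_add_neg] at e
      exact e.trans (sub_self _)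
  · rintro ⟨c, hc, hp, hm⟩ hwV
    obtain ⟨μ, hμ, hne⟩ := good_ne hG hd hadv hc hp
    apply hne
    rw [A1f_mk] at hm
    have h1 : FreeGroup.mk (cW P d c) ∈ Vb P T d := by
      have h2 := mul_mem (inv_mem hwV) hm
      rw [inv_mul_cancel_left] at h2
      exact inv_mem_iff.1 h2
    rw [mk_cW] at h1
    have h3 := (crit hI hd _).1 h1 μ hμ
    rw [← A1f_s_vl (P := P) μ c]
    exact h3

end Pool.Agent.helper24.PV
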