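import Pool.Agent.helper24.PV.Defs
/-! PV-D1: the data step is deterministic and needs only its own side conditions. -/
set_option autoImplicit false
namespace Pool.Agent.helper24.PV
variable {M : Type} {A : Ops M} {T : RM}

/-- PV-D1a.  Numerals are injective. PROOF. Induction on `m` for all `n`, `hA.inj`, `hA.Z_ne`. -/
theorem num_inj (hA : Free A) {m n : ℕ} (h : A.num m = A.num n) : m = n := by
  induction m generalizing n with
  | zero =>
    cases n with
    | zero => rfl
    | succ n => exact absurd h.symm (hA.Z_ne _ _)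
  | succ m ih =>
    cases n with
    | zero => exact absurd h (hA.Z_ne _ _)
    | succ n => exact congrArg Nat.succ (ih (hA.inj h).2)

theorem enc_inj_d1 (hA : Free A) {e : M} : ∀ {l l' : List M}, l.length = l'.length →
    A.enc l e = A.enc l' e → l = l'
  | [], [], _, _ => rfl
  | [], _ :: _, h, _ => by simp at h
  | _ :: _, [], h, _ => by simp at h
  | x :: l, y :: l', h, h' => by
    have h1 : A.nd x (A.enc l e) = A.nd y (A.enc l' e) := h'
    obtain ⟨h2, h3⟩ := hA.inj h1
    have h4 : l.length = l'.length := by simpa using h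
    rw [h2, enc_inj_d1 hA h4 h3]

/-- PV-D1b.  Tuples are injective. PROOF. `enc l e = enc l' e` with lists of the same length: `l = l'`
(induction, `hA.inj`); `List.ofFn_injective`. -/
theorem tup_inj (hA : Free A) {K : ℕ} {r r' : Fin K → M} (h : A.tup r = A.tup r') : r = r' := by
  exact List.ofFn_injective (enc_inj_d1 hA (by simp) h)

/-- PV-D1c. PROOF. `hA.inj`, D1a, `Fin.val_injective`, D1b. -/
theorem sc_inj (hA : Free A) {q q' : Fin T.nQ} {r r' : Fin T.K → M} (h : A.sc T q r = A.sc T q' r') :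
    q = q' ∧ r = r' := by
  obtain ⟨h1, h2⟩ := hA.inj h
  exact ⟨Fin.val_injective (num_inj hA h1), tup_inj hA h2⟩

/-- PV-D1d. PROOF. At each `i`: `lhs z v i = Z` iff `z i = true`; then `v i` by `hA.inj` where `z i = false`. -/
theorem lhs_inj (hA : Free A) {K : ℕ} {z z' : Fin K → Bool} {v v' : Fin K → M}
    (h : A.lhs z v = A.lhs z' v') : z = z' ∧ ∀ i, z i = false → v i = v' i := by
  have key : ∀ i, z i = z' i ∧ (z i = false → v i = v' i) := by
    intro i
    have h1 : A.lhs z v i = A.lhs z' v' i := congrFun h i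
    unfold Ops.lhs at h1
    cases hz : z i <;> cases hz' : z' i
    · rw [hz, hz'] at h1
      have h2 : A.nd A.O (v i) = A.nd A.O (v' i) := h1
      exact ⟨rfl, fun _ => (hA.inj h2).2⟩
    · rw [hz, hz'] at h1
      have h2 : A.nd A.O (v i) = A.Z := h1
      exact absurd h2 (hA.Z_ne _ _)
    · rw [hz, hz'] at h1
      have h2 : A.Z = A.nd A.O (v' i) := h1
      exact absurd h2.symm (hA.Z_ne _ _)
    · exact ⟨rfl, fun h3 => by cases h3⟩
  exact ⟨funext fun i => (key i).1, fun i => (key i).2⟩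

/-- PV-D1e.  The new registers depend only on the old ones. PROOF. D1d, cases on the update; for `copy`
and `succ` use `h` itself at `j`. -/
theorem rhs_congr (hA : Free A) {K : ℕ} (u : Upd K) {z z' : Fin K → Bool} {v v' : Fin K → M}
    (h : A.lhs z v = A.lhs z' v') : A.rhs u z v = A.rhs u z' v' := by
  obtain ⟨h1, h2⟩ := lhs_inj hA h
  subst h1
  cases u with
  | zero => rfl
  | copy j => exact congrFun h j
  | succ j => exact congrArg (A.nd A.O) (congrFun h j)
  | pred j =>
    change (if z j then A.Z else v j) = (if z j then A.Z else v' j)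
    cases hz : z j
    · have h3 := h2 j hz
      simp [h3]
    · simp

/-- PV-D1f.  Deterministic.
PROOF. `cases h; cases h'`: the tags `num 0`, `num 1`, `num 2` are different (D1a); `v2`: `ha`;
`sim`/`rst`: `nd O s ≠ Z`; `sim`/`sim`: D1c, D1d, D1e. -/
theorem ds_det (hA : Free A) {p1 : Prop} {a2 : M → Prop} (ha : ∀ a a', a2 a → a2 a' → a = a')
    {x y y' : M} (h : A.DS T p1 a2 x y) (h' : A.DS T p1 a2 x y') : y = y' := by
  have n01 : ∀ {s t : M}, A.c1 s ≠ A.c2 t := fun h => by
    have := num_inj hA (hA.inj h).1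
    omega
  have n02 : ∀ {s t u w : M}, A.c1 s ≠ A.st t u w := fun h => by
    have := num_inj hA (hA.inj h).1
    omega
  have n12 : ∀ {s t u w : M}, A.c2 s ≠ A.st t u w := fun h => by
    have := num_inj hA (hA.inj h).1
    omega
  have hst : ∀ {t s x t' s' x' : M}, A.st t s x = A.st t' s' x' → t = t' ∧ s = s' ∧ x = x' := by
    intro t s x t' s' x' h
    obtain ⟨h1, h2⟩ := hA.inj (hA.inj h).2
    exact ⟨h1, hA.inj h2⟩
  generalize hxx : x = x' at h'
  cases h with
  | v1 hp t =>
    cases h' with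
    | v1 hp' t' => rw [(hA.inj hxx).2]
    | v2 a ha' t' => exact absurd hxx n01
    | sim q z v t' s hh => exact absurd hxx n02
    | rst t' x => exact absurd hxx n02
  | v2 a ha1 t =>
    cases h' with
    | v1 hp' t' => exact absurd hxx.symm n01
    | v2 a' ha2 t' =>
      rw [ha a a' ha1 ha2, (hA.inj hxx).2]
    | sim q z v t' s hh => exact absurd hxx n12
    | rst t' x => exact absurd hxx n12
  | sim q z v t s hh =>
    cases h' with
    | v1 hp' t' => exact absurd hxx.symm n02
    | v2 a' ha2 t' => exact absurd hxx.symm n12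
    | sim q' z' v' t' s' hh' =>
      obtain ⟨h1, h2, h3⟩ := hst hxx
      obtain ⟨h4, h5⟩ := sc_inj hA h3
      obtain ⟨h6, -⟩ := lhs_inj hA h5
      have h7 := (hA.inj h2).2
      subst h1 h4 h7
      have h8 : (fun i => A.rhs (T.upd q i) z v) = fun i => A.rhs (T.upd q i) z' v' :=
        funext fun i => rhs_congr hA _ h5
      rw [h8, h6]
    | rst t' x => exact absurd (hst hxx).2.1 (hA.Z_ne _ _)
  | rst t x =>
    cases h' with
    | v1 hp' t' => exact absurd hxx.symm n02
    | v2 a' ha2 t' => exact absurd hxx.symm n12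
    | sim q' z' v' t' s' hh' => exact absurd (hst hxx).2.1.symm (hA.Z_ne _ _)
    | rst t' x' => rw [(hst hxx).1]

/-- PV-D1g.  A killed state has no successor.
PROOF. cases; a killed state is `st t (nd O s) (nd (num q) r)` with `halt q = true`; only `sim` could
apply, and there the state has `halt q = false` (D1a, `Fin` injective). -/
theorem dk_stuck (hA : Free A) {p1 : Prop} {a2 : M → Prop} {x y : M} (h : A.DK T x) :
    ¬ A.DS T p1 a2 x y := by
  intro h'
  obtain ⟨q, hq, r, t, s⟩ := h
  generalize hxx : A.st t (A.nd A.O s) (A.nd (A.num q) r) = x' at h'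
  have n02 : ∀ {s t u w : M}, A.c1 s ≠ A.st t u w := fun h => by
    have := num_inj hA (hA.inj h).1
    omega
  have n12 : ∀ {s t u w : M}, A.c2 s ≠ A.st t u w := fun h => by
    have := num_inj hA (hA.inj h).1
    omega
  have hst : ∀ {t s x t' s' x' : M}, A.st t s x = A.st t' s' x' → t = t' ∧ s = s' ∧ x = x' := by
    intro t s x t' s' x' h
    obtain ⟨h1, h2⟩ := hA.inj (hA.inj h).2
    exact ⟨h1, hA.inj h2⟩
  cases h' with
  | v1 hp' t' => exact absurd hxx.symm n02
  | v2 a' ha2 t' => exact absurd hxx.symm n12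
  | sim q' z' v' t' s' hh' =>
    have h1 := (hst hxx).2.2
    have h2 : q = q' := Fin.val_injective (num_inj hA (hA.inj h1).1)
    rw [h2, hh'] at hq
    cases hq
  | rst t' x => exact absurd (hst hxx).2.1 (hA.Z_ne _ _)

/-- PV-D1h. PROOF. cases. -/
theorem ds_mono {p1 p1' : Prop} {a2 a2' : M → Prop} (h1 : p1 → p1') (h2 : ∀ a, a2 a → a2' a)
    {x y : M} (h : A.DS T p1 a2 x y) : A.DS T p1' a2' x y := by
  cases h with
  | v1 h t => exact Ops.DS.v1 (h1 h) t
  | v2 a h t => exact Ops.DS.v2 a (h2 a h) t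
  | sim q z v t s h => exact Ops.DS.sim q z v t s h
  | rst t x => exact Ops.DS.rst t x

/-- PV-D1i.  Closure: components of states. PROOF. cases `h`; unfold everything; `num` by induction,
`tup` by induction on the list (`List.ofFn`): `s (enc l e) ↔ (∀ y ∈ l, s y) ∧ s e`. -/
theorem ds_mem (s : M → Prop) (hs : ∀ x y, s (A.nd x y) ↔ s x ∧ s y) (hZ : s A.Z) (hO : s A.O)
    {p1 : Prop} {a2 : M → Prop} (h2 : ∀ a, a2 a → s a) {x y : M} (h : A.DS T p1 a2 x y) (hx : s x) :
    s y := by
  have hnum : ∀ n : ℕ, s (A.num n) := by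
    intro n
    induction n with
    | zero => exact hZ
    | succ n ih => exact (hs _ _).2 ⟨hO, ih⟩
  have henc : ∀ (l : List M) (e : M), s (A.enc l e) ↔ (∀ y ∈ l, s y) ∧ s e := by
    intro l e
    induction l with
    | nil =>
      constructor
      · exact fun h => ⟨fun y hy => by simp at hy, h⟩
      · exact fun h => h.2
    | cons y l ih =>
      have h1 : s (A.enc (y :: l) e) ↔ s y ∧ s (A.enc l e) := hs _ _
      rw [h1, ih]
      constructor
      · rintro ⟨h2, h3, h4⟩
        refine ⟨fun w hw => ?_, h4⟩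
        rcases List.mem_cons.1 hw with h5 | h5
        · rw [h5]; exact h2
        · exact h3 w h5
      · rintro ⟨h2, h3⟩
        exact ⟨h2 y (by simp), fun w hw => h2 w (by simp [hw]), h3⟩
  have htup : ∀ {K : ℕ} (r : Fin K → M), s (A.tup r) ↔ ∀ i, s (r i) := by
    intro K r
    have h1 : s (A.tup r) ↔ (∀ y ∈ List.ofFn r, s y) ∧ s A.Z := henc _ _
    rw [h1]
    constructor
    · exact fun h2 i => h2.1 _ (List.mem_ofFn.2 ⟨i, rfl⟩)
    · intro h2
      refine ⟨fun y hy => ?_, hZ⟩
      obtain ⟨i, rfl⟩ := List.mem_ofFn.1 hy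
      exact h2 i
  have hst : ∀ t u x : M, s (A.st t u x) ↔ s t ∧ s u ∧ s x := by
    intro t u x
    have h1 : s (A.st t u x) ↔ s (A.num 2) ∧ s (A.nd t (A.nd u x)) := hs _ _
    rw [h1, hs, hs]
    exact ⟨fun h => h.2, fun h => ⟨hnum 2, h⟩⟩
  have hc1 : ∀ t : M, s (A.c1 t) ↔ s t := by
    intro t
    have h1 : s (A.c1 t) ↔ s (A.num 0) ∧ s t := hs _ _
    rw [h1]
    exact ⟨fun h => h.2, fun h => ⟨hnum 0, h⟩⟩
  have hc2 : ∀ t : M, s (A.c2 t) ↔ s t := by
    intro t
    have h1 : s (A.c2 t) ↔ s (A.num 1) ∧ s t := hs _ _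
    rw [h1]
    exact ⟨fun h => h.2, fun h => ⟨hnum 1, h⟩⟩
  have hsc : ∀ (q : Fin T.nQ) (r : Fin T.K → M), s (A.sc T q r) ↔ ∀ i, s (r i) := by
    intro q r
    have h1 : s (A.sc T q r) ↔ s (A.num q) ∧ s (A.tup r) := hs _ _
    rw [h1, htup]
    exact ⟨fun h => h.2, fun h => ⟨hnum _, h⟩⟩
  cases h with
  | v1 h t => exact (hc2 t).2 ((hc1 t).1 hx)
  | v2 a h t =>
    have h1 := (hc2 t).1 hx
    refine (hst _ _ _).2 ⟨h1, h1, ?_⟩
    refine (hsc _ _).2 fun i => ?_
    change s (if i = T.inp then a else A.Z)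
    split
    · exact h2 a h
    · exact hZ
  | sim q z v t u h =>
    obtain ⟨h1, h3, h4⟩ := (hst _ _ _).1 hx
    have h5 := (hsc _ _).1 h4
    have h6 : ∀ i, z i = false → s (v i) := by
      intro i hi
      have h7 := h5 i
      unfold Ops.lhs at h7
      rw [hi] at h7
      exact ((hs _ _).1 h7).2
    refine (hst _ _ _).2 ⟨h1, ((hs _ _).1 h3).2, ?_⟩
    refine (hsc _ _).2 fun i => ?_
    change s (A.rhs (T.upd q i) z v)
    cases T.upd q i with
    | zero => exact hZ
    | copy j => exact h5 j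
    | succ j => exact (hs _ _).2 ⟨hO, h5 j⟩
    | pred j =>
      change s (if z j then A.Z else v j)
      cases hz : z j
      · simpa using h6 j hz
      · simpa using hZ
  | rst t x =>
    obtain ⟨h1, -, -⟩ := (hst _ _ _).1 hx
    exact (hc1 _).2 ((hs _ _).2 ⟨hO, h1⟩)

end Pool.Agent.helper24.PV
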