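import Pool.Agent.helper24.PV.N4
import Pool.Agent.helper24.PV.D1
/-! PV-C1: the equivalence relation of the rewriting system. -/
set_option autoImplicit false
namespace Pool.Agent.helper24.PV
variable {M V : Type} {A : Ops M} {T : RM}
open Relation

/-- PV-C1a.  `P1` and `A2` depend only on the class of the names. PROOF. `EqvGen` is symmetric, transitive. -/
theorem P1_congr {cm : M → M → Prop} {N N' : M} (h : A.NEq cm N N') : A.P1 cm N ↔ A.P1 cm N' := by
  constructor
  · rintro ⟨L, R, b, h1⟩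
    exact ⟨L, R, b, (EqvGen.symm _ _ h).trans _ _ _ h1⟩
  · rintro ⟨L, R, b, h1⟩
    exact ⟨L, R, b, EqvGen.trans _ _ _ h h1⟩

/-- PV-C1b. -/
theorem A2_congr {cm : M → M → Prop} {N N' : M} (h : A.NEq cm N N') (a : M) :
    A.A2 cm N a ↔ A.A2 cm N' a := by
  constructor
  · rintro ⟨L, R, h1⟩
    exact ⟨L, R, (EqvGen.symm _ _ h).trans _ _ _ h1⟩
  · rintro ⟨L, R, h1⟩
    exact ⟨L, R, EqvGen.trans _ _ _ h h1⟩

/-- PV-C1c.  A names equivalence is an equivalence of configurations. PROOF. Induction on `EqvGen`. -/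
theorem REq_names {cm : M → M → Prop} {N N' : M} (h : A.NEq cm N N') (D : M) :
    A.REq T cm (A.nd N D) (A.nd N' D) := by
  induction h with
  | rel x y h => exact EqvGen.rel _ _ (Ops.RS.nm _ _ _ h)
  | refl x => exact EqvGen.refl _
  | symm x y _ ih => exact EqvGen.symm _ _ ih
  | trans x y z _ _ ih1 ih2 => exact EqvGen.trans _ _ _ ih1 ih2

/-- PV-C1d.  A data step is an equivalence of configurations.
PROOF. cases: `v1`: `P1 N`: `N ~ zip L Z R b` (C1c), `RS.v1`, back (C1c).  `v2` the same with `A2`.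
`sim`, `rst`: `RS.sim`, `RS.rst`. -/
theorem REq_data {cm : M → M → Prop} {N D D' : M} (h : A.DS T (A.P1 cm N) (A.A2 cm N) D D') :
    A.REq T cm (A.nd N D) (A.nd N D') := by
  cases h with
  | v1 hp t =>
    obtain ⟨L, R, b, hn⟩ := hp
    exact EqvGen.trans _ _ _ (REq_names hn _)
      (EqvGen.trans _ _ _ (EqvGen.rel _ _ (Ops.RS.v1 L R b t)) (EqvGen.symm _ _ (REq_names hn _)))
  | v2 a ha t =>
    obtain ⟨L, R, hn⟩ := ha
    exact EqvGen.trans _ _ _ (REq_names hn _)
      (EqvGen.trans _ _ _ (EqvGen.rel _ _ (Ops.RS.v2 L a R t)) (EqvGen.symm _ _ (REq_names hn _)))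
  | sim q z v t s hq => exact EqvGen.rel _ _ (Ops.RS.sim N q z v t s hq)
  | rst t x => exact EqvGen.rel _ _ (Ops.RS.rst N t x)

/-- PV-C1e.  The same for a run. -/
theorem REq_run {cm : M → M → Prop} {N D D' : M}
    (h : ReflTransGen (A.DS T (A.P1 cm N) (A.A2 cm N)) D D') :
    A.REq T cm (A.nd N D) (A.nd N D') := by
  induction h with
  | refl => exact EqvGen.refl _
  | tail _ h ih => exact EqvGen.trans _ _ _ ih (REq_data h)

/-- PV-C1f.  Classification of the equivalence relation.
PROOF. (⇐) C1e, C1c.  (⇒) The relation `Q Y Y' := Y = Y' ∨ ∃ N D N' D', Y = nd N D ∧ Y' = nd N' D' ∧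
NEq N N' ∧ Join (ReflTransGen (DS (P1 N) (A2 N))) D D'` contains `RS` (cases: `nm`: `D = D'`;
`v1`: `P1 N` by reflexivity, one data step; ...) and is an equivalence relation: symmetric by C1a,
C1b; transitive: `Join` of `ReflTransGen` of a deterministic relation (D1f with N4d) is transitive:
`Relation.transitive_join` / `Relation.equivalence_join_reflTransGen`. -/
theorem REq_iff (hA : Free A) {ab : M → V} {cm : M → M → Prop} (hcm : ∀ y y', cm y y' → ab y = ab y')
    {Y Y' : M} : A.REq T cm Y Y' ↔ (Y = Y' ∨ ∃ N D N' D', Y = A.nd N D ∧ Y' = A.nd N' D' ∧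
      A.NEq cm N N' ∧ Join (ReflTransGen (A.DS T (A.P1 cm N) (A.A2 cm N))) D D') := by
  have hDS : ∀ {N N' : M}, A.NEq cm N N' →
      A.DS T (A.P1 cm N) (A.A2 cm N) = A.DS T (A.P1 cm N') (A.A2 cm N') := by
    intro N N' h
    have e1 : A.P1 cm N = A.P1 cm N' := propext (P1_congr h)
    have e2 : A.A2 cm N = A.A2 cm N' := funext fun a => propext (A2_congr h a)
    rw [e1, e2]
  have hJ : ∀ N : M, Equivalence (Join (ReflTransGen (A.DS T (A.P1 cm N) (A.A2 cm N)))) := by
    intro N
    apply equivalence_join_reflTransGen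
    intro a b c hb hc
    have e : b = c := ds_det hA (fun a a' h h' => A2_unique hA hcm h h') hb hc
    subst e
    exact ⟨b, ReflGen.refl, ReflTransGen.refl⟩
  constructor
  · intro h
    induction h with
    | rel Y Y' h =>
      right
      cases h with
      | nm N N' D h =>
        exact ⟨N, D, N', D, rfl, rfl, EqvGen.rel _ _ h, D, ReflTransGen.refl, ReflTransGen.refl⟩
      | v1 L R b t =>
        exact ⟨_, _, _, _, rfl, rfl, EqvGen.refl _, A.c2 t,
          ReflTransGen.single (Ops.DS.v1 ⟨L, R, b, EqvGen.refl _⟩ t), ReflTransGen.refl⟩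
      | v2 L a R t =>
        exact ⟨_, _, _, _, rfl, rfl, EqvGen.refl _, A.st t t (A.init T a),
          ReflTransGen.single (Ops.DS.v2 a ⟨L, R, EqvGen.refl _⟩ t), ReflTransGen.refl⟩
      | sim N q z v t s hq =>
        exact ⟨_, _, _, _, rfl, rfl, EqvGen.refl _, _,
          ReflTransGen.single (Ops.DS.sim q z v t s hq), ReflTransGen.refl⟩
      | rst N t x =>
        exact ⟨_, _, _, _, rfl, rfl, EqvGen.refl _, _,
          ReflTransGen.single (Ops.DS.rst t x), ReflTransGen.refl⟩
    | refl Y => exact Or.inl rfl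
    | symm Y Y' _ ih =>
      rcases ih with ih | ⟨N, D, N', D', hY, hY', hN, hj⟩
      · exact Or.inl ih.symm
      · right
        refine ⟨N', D', N, D, hY', hY, EqvGen.symm _ _ hN, ?_⟩
        rw [← hDS hN]
        exact (hJ N).symm hj
    | trans Y Y' Y'' _ _ ih1 ih2 =>
      rcases ih1 with rfl | ⟨N, D, N', D', hY, hY', hN, hj⟩
      · exact ih2
      · rcases ih2 with rfl | ⟨N1, D1, N1', D1', hY1, hY1', hN1, hj1⟩
        · exact Or.inr ⟨N, D, N', D', hY, hY', hN, hj⟩
        · right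
          obtain ⟨e1, e2⟩ := hA.inj (hY'.symm.trans hY1)
          subst e1 e2
          refine ⟨N, D, N1', D1', hY, hY1', EqvGen.trans _ _ _ hN hN1, ?_⟩
          rw [← hDS hN] at hj1
          exact (hJ N).trans hj hj1
  · rintro (rfl | ⟨N, D, N', D', rfl, rfl, hN, E, h1, h2⟩)
    · exact EqvGen.refl _
    · exact EqvGen.trans _ _ _ (REq_run h1)
        (EqvGen.trans _ _ _ (EqvGen.symm _ _ (REq_run h2)) (REq_names hN _))

end Pool.Agent.helper24.PV
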