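import Pool.Agent.helper24.PV.D1
/-! PV-D2: every run of the data stops or reaches a canonical state. -/
set_option autoImplicit false
namespace Pool.Agent.helper24.PV
variable {M : Type} {A : Ops M} {T : RM}
open Relation

/-- PV-D2a.  The registers of a tuple of numerals are of the form `lhs z v`, and one step of the machine
on numerals.
PROOF. `z i := decide (r i = 0)`, `v i := num (r i - 1)`; `num (n+1) = nd O (num n)`. cases on the update
of each register (`pred` with `r j = 0` and `r j ≠ 0`). -/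
theorem sim_num (q : Fin T.nQ) (r : Fin T.K → ℕ) (t s : M) (h : T.halt q = false)
    {p1 : Prop} {a2 : M → Prop} :
    A.DS T p1 a2 (A.st t (A.nd A.O s) (A.sc T q (fun i => A.num (r i))))
      (A.st t s (A.sc T (T.step (q, r)).1 (fun i => A.num ((T.step (q, r)).2 i)))) := by
  have h1 : ∀ i, A.lhs (fun i => decide (r i = 0)) (fun i => A.num (r i - 1)) i = A.num (r i) := by
    intro i
    unfold Ops.lhs
    by_cases h0 : r i = 0
    · simp [h0, Ops.num, Ops.marks]
    · obtain ⟨n, hn⟩ := Nat.exists_eq_succ_of_ne_zero h0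
      simp [hn, Ops.num, Ops.marks]
  have h1' : A.lhs (fun i => decide (r i = 0)) (fun i => A.num (r i - 1)) =
      fun i => A.num (r i) := funext h1
  have h2 : ∀ i, A.rhs (T.upd q i) (fun i => decide (r i = 0)) (fun i => A.num (r i - 1)) =
      A.num ((T.step (q, r)).2 i) := by
    intro i
    change _ = A.num ((T.upd q i).app r)
    cases T.upd q i with
    | zero => rfl
    | copy j => exact h1 j
    | succ j => exact congrArg (A.nd A.O) (h1 j)
    | pred j =>
      change (if decide (r j = 0) = true then A.Z else A.num (r j - 1)) = A.num (r j - 1)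
      by_cases h0 : r j = 0
      · simp [h0, Ops.num, Ops.marks]
      · simp [h0]
  have h3 := Ops.DS.sim (A := A) (p1 := p1) (a2 := a2) q (fun i => decide (r i = 0))
    (fun i => A.num (r i - 1)) t s h
  rw [h1'] at h3
  have h4 : (fun i => A.rhs (T.upd q i) (fun i => decide (r i = 0)) (fun i => A.num (r i - 1))) =
      fun i => A.num ((T.step (q, r)).2 i) := funext h2
  rw [h4] at h3
  exact h3

/-- the successors of `st t s x` -/
theorem ds_st_inv (hA : Free A) {p1 : Prop} {a2 : M → Prop} {t s x D : M}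
    (h : A.DS T p1 a2 (A.st t s x) D) :
    (∃ s' x', s = A.nd A.O s' ∧ D = A.st t s' x') ∨ (s = A.Z ∧ D = A.c1 (A.nd A.O t)) := by
  have n02 : ∀ {s t u w : M}, A.c1 s ≠ A.st t u w := fun h => by
    have := num_inj hA (hA.inj h).1
    omega
  have n12 : ∀ {s t u w : M}, A.c2 s ≠ A.st t u w := fun h => by
    have := num_inj hA (hA.inj h).1
    omega
  have hst : ∀ {t s x t' s' x' : M}, A.st t s x = A.st t' s' x' → t = t' ∧ s = s' ∧ x = x' := by
    intro t s x t' s' x' h
    obtain ⟨h1, h2⟩ := hA.inj (hA.inj h).2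
    exact ⟨h1, hA.inj h2⟩
  generalize hxx : A.st t s x = X at h
  cases h with
  | v1 hp t' => exact absurd hxx.symm n02
  | v2 a ha t' => exact absurd hxx.symm n12
  | sim q z v t' s' hh =>
    obtain ⟨h1, h2, -⟩ := hst hxx
    subst h1
    exact Or.inl ⟨s', _, h2, rfl⟩
  | rst t' x' =>
    obtain ⟨h1, h2, -⟩ := hst hxx
    subst h1
    exact Or.inr ⟨h2, rfl⟩

/-- the successors of `c1 t` -/
theorem ds_c1_inv (hA : Free A) {p1 : Prop} {a2 : M → Prop} {t D : M}
    (h : A.DS T p1 a2 (A.c1 t) D) : p1 ∧ D = A.c2 t := by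
  have n01 : ∀ {s t : M}, A.c1 s ≠ A.c2 t := fun h => by
    have := num_inj hA (hA.inj h).1
    omega
  have n02 : ∀ {s t u w : M}, A.c1 s ≠ A.st t u w := fun h => by
    have := num_inj hA (hA.inj h).1
    omega
  generalize hxx : A.c1 t = X at h
  cases h with
  | v1 hp t' => exact ⟨hp, by rw [(hA.inj hxx).2]⟩
  | v2 a ha t' => exact absurd hxx n01
  | sim q z v t' s' hh => exact absurd hxx n02
  | rst t' x' => exact absurd hxx n02

/-- the successors of `c2 t` -/
theorem ds_c2_inv (hA : Free A) {p1 : Prop} {a2 : M → Prop} {t D : M}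
    (h : A.DS T p1 a2 (A.c2 t) D) : ∃ a, a2 a ∧ D = A.st t t (A.init T a) := by
  have n01 : ∀ {s t : M}, A.c1 s ≠ A.c2 t := fun h => by
    have := num_inj hA (hA.inj h).1
    omega
  have n12 : ∀ {s t u w : M}, A.c2 s ≠ A.st t u w := fun h => by
    have := num_inj hA (hA.inj h).1
    omega
  generalize hxx : A.c2 t = X at h
  cases h with
  | v1 hp t' => exact absurd hxx.symm n01
  | v2 a ha t' => exact ⟨a, ha, by rw [(hA.inj hxx).2]⟩
  | sim q z v t' s' hh => exact absurd hxx n12
  | rst t' x' => exact absurd hxx n12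

/-- PV-D2b.  A state `st t s x` with arbitrary `s`, `x` runs, with the same `t`, to a state without
successor or to `st t Z x'`.
PROOF. Strong induction on `sz s`: if `st t s x` has no successor or `s = Z` we are done; otherwise the
successor comes from `sim` (inspect the tags: `num 2 ≠ num 0, num 1`): `s = nd O s'` and the
successor is `st t s' x'` with the same `t` (`hA.inj`), `sz s' < sz s`. -/
theorem st_run (hA : Free A) {p1 : Prop} {a2 : M → Prop} (t s x : M) :
    ∃ D', ReflTransGen (A.DS T p1 a2) (A.st t s x) D' ∧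
      ((∀ D'', ¬ A.DS T p1 a2 D' D'') ∨ ∃ x', D' = A.st t A.Z x') := by
  obtain ⟨sz, -, hsz⟩ := hA.sz
  induction hn : sz s using Nat.strong_induction_on generalizing s x with
  | _ n ih =>
    by_cases h0 : ∀ D'', ¬ A.DS T p1 a2 (A.st t s x) D''
    · exact ⟨_, ReflTransGen.refl, Or.inl h0⟩
    · push Not at h0
      obtain ⟨D1, hD1⟩ := h0
      rcases ds_st_inv hA hD1 with ⟨s', x', hs, hD⟩ | ⟨hs, -⟩
      · subst hn
        have h1 : sz s' < sz s := by
          rw [hs]
          exact hsz _ _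
        obtain ⟨D', hr, hD'⟩ := ih (sz s') h1 s' x' rfl
        refine ⟨D', ReflTransGen.head hD1 ?_, hD'⟩
        rw [hD]
        exact hr
      · exact ⟨_, ReflTransGen.refl, Or.inr ⟨x, by rw [hs]⟩⟩

/-- if the remaining time is not a numeral then the run stops -/
theorem st_bad (hA : Free A) {p1 : Prop} {a2 : M → Prop} (t s x : M) (hs : ∀ m, s ≠ A.num m) :
    ∃ D', ReflTransGen (A.DS T p1 a2) (A.st t s x) D' ∧ ∀ D'', ¬ A.DS T p1 a2 D' D'' := by
  obtain ⟨sz, -, hsz⟩ := hA.sz
  induction hn : sz s using Nat.strong_induction_on generalizing s x with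
  | _ n ih =>
    by_cases h0 : ∀ D'', ¬ A.DS T p1 a2 (A.st t s x) D''
    · exact ⟨_, ReflTransGen.refl, h0⟩
    · push Not at h0
      obtain ⟨D1, hD1⟩ := h0
      rcases ds_st_inv hA hD1 with ⟨s', x', hs', hD⟩ | ⟨hs', -⟩
      · subst hn
        have h1 : sz s' < sz s := by
          rw [hs']
          exact hsz _ _
        have h2 : ∀ m, s' ≠ A.num m := by
          intro m hm
          apply hs (m + 1)
          rw [hs', hm]
          rfl
        obtain ⟨D', hr, hD'⟩ := ih (sz s') h1 s' x' h2 rfl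
        refine ⟨D', ReflTransGen.head hD1 ?_, hD'⟩
        rw [hD]
        exact hr
      · exact absurd hs' (hs 0)

/-- PV-D2c.  If the clock is not a numeral the run from `c1 t` stops.
PROOF. `c1 t → c2 t` if `p1`, otherwise no successor (tags).  `c2 t → st t t (init a)` if `a2 a` for some
`a`, otherwise no successor.  Claim: if `s` is not a numeral then every `st t s x` runs to a state
without successor: strong induction on `sz s` as in D2b; `s ≠ Z = num 0` so `rst` does not apply;
`sim`: `s = nd O s'` and `s'` is not a numeral. -/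
theorem c1_bad (hA : Free A) {p1 : Prop} {a2 : M → Prop} (t : M) (ht : ∀ m, t ≠ A.num m) :
    ∃ D', ReflTransGen (A.DS T p1 a2) (A.c1 t) D' ∧ ∀ D'', ¬ A.DS T p1 a2 D' D'' := by
  by_cases hp : p1
  · by_cases ha : ∃ a, a2 a
    · obtain ⟨a, ha⟩ := ha
      obtain ⟨D', hr, hD'⟩ := st_bad (T := T) (p1 := p1) (a2 := a2) hA t t (A.init T a) ht
      exact ⟨D', ReflTransGen.head (Ops.DS.v1 hp t) (ReflTransGen.head (Ops.DS.v2 a ha t) hr), hD'⟩
    · refine ⟨A.c2 t, ReflTransGen.single (Ops.DS.v1 hp t), fun D'' h => ?_⟩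
      obtain ⟨a, h1, -⟩ := ds_c2_inv hA h
      exact ha ⟨a, h1⟩
  · exact ⟨_, ReflTransGen.refl, fun D'' h => hp (ds_c1_inv hA h).1⟩

/-- the run from `c1 t` -/
theorem c1_term (hA : Free A) {p1 : Prop} {a2 : M → Prop} (t : M) :
    ∃ D', ReflTransGen (A.DS T p1 a2) (A.c1 t) D' ∧
      ((∀ D'', ¬ A.DS T p1 a2 D' D'') ∨ (p1 ∧ (∃ a, a2 a) ∧ ∃ m, D' = A.c1 (A.num m))) := by
  by_cases ht : ∀ m, t ≠ A.num m
  · obtain ⟨D', h1, h2⟩ := c1_bad (T := T) (p1 := p1) (a2 := a2) hA t ht
    exact ⟨D', h1, Or.inl h2⟩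
  · push Not at ht
    obtain ⟨m, hm⟩ := ht
    by_cases hp : p1
    · by_cases ha : ∃ a, a2 a
      · exact ⟨_, ReflTransGen.refl, Or.inr ⟨hp, ha, m, by rw [hm]⟩⟩
      · refine ⟨A.c2 t, ReflTransGen.single (Ops.DS.v1 hp t), Or.inl fun D'' h => ?_⟩
        obtain ⟨a, h1, -⟩ := ds_c2_inv hA h
        exact ha ⟨a, h1⟩
    · exact ⟨_, ReflTransGen.refl, Or.inl fun D'' h => hp (ds_c1_inv hA h).1⟩

/-- the run from `st t s x` -/
theorem st_term (hA : Free A) {p1 : Prop} {a2 : M → Prop} (t s x : M) :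
    ∃ D', ReflTransGen (A.DS T p1 a2) (A.st t s x) D' ∧
      ((∀ D'', ¬ A.DS T p1 a2 D' D'') ∨ (p1 ∧ (∃ a, a2 a) ∧ ∃ m, D' = A.c1 (A.num m))) := by
  obtain ⟨D1, h1, h2⟩ := st_run (T := T) (p1 := p1) (a2 := a2) hA t s x
  rcases h2 with h2 | ⟨x', hx'⟩
  · exact ⟨D1, h1, Or.inl h2⟩
  · obtain ⟨D', h3, h4⟩ := c1_term (T := T) (p1 := p1) (a2 := a2) hA (A.nd A.O t)
    refine ⟨D', h1.trans (ReflTransGen.head ?_ h3), h4⟩
    rw [hx']
    exact Ops.DS.rst t x'

/-- PV-D2d.  Every run stops or reaches a canonical state.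
PROOF. If `D` has no successor: done.  Otherwise `D` is `c1 t`, `c2 t` or `st t s x` (cases on a successor).
`c1 t`: if `t` is a numeral: if `p1` and some `a2 a` then it is canonical, otherwise (`c1 t → c2 t` if `p1`)
the run stops; if `t` is not a numeral D2c.
`c2 t → st t t _` (D1f not needed): go to the next case.
`st t s x`: D2b: it stops or reaches `st t Z x' → c1 (nd O t)`; apply the first case to `c1 (nd O t)`. -/
theorem ds_term (hA : Free A) {p1 : Prop} {a2 : M → Prop} (D : M) :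
    ∃ D', ReflTransGen (A.DS T p1 a2) D D' ∧
      ((∀ D'', ¬ A.DS T p1 a2 D' D'') ∨ (p1 ∧ (∃ a, a2 a) ∧ ∃ m, D' = A.c1 (A.num m))) := by
  by_cases h0 : ∀ D'', ¬ A.DS T p1 a2 D D''
  · exact ⟨_, ReflTransGen.refl, Or.inl h0⟩
  · push Not at h0
    obtain ⟨D1, hD1⟩ := h0
    cases hD1 with
    | v1 hp t => exact c1_term hA t
    | v2 a ha t =>
      obtain ⟨D', h1, h2⟩ := st_term (T := T) (p1 := p1) (a2 := a2) hA t t (A.init T a)
      exact ⟨D', ReflTransGen.head (Ops.DS.v2 a ha t) h1, h2⟩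
    | sim q z v t s h => exact st_term hA _ _ _
    | rst t x => exact st_term hA _ _ _

end Pool.Agent.helper24.PV
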