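import Mathlib
/-! PV project (MP_c0bc55_al, S02951), block LAWS: definitions of the abstract part.

A configuration is a term `nd N D`: `N` contains the names (a zipper in lockstep with a zipper of
marks), `D` contains the data of a clocked register machine.  `RS` is the one-step relation of the
rewriting system (its symmetric closure is what the laws of the variety say), `RK` are the killed
configurations. -/
set_option autoImplicit false
namespace Pool.Agent.helper24.PV

/-- A set with a pairing operation `nd` and two constants. -/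
structure Ops (M : Type) where
  nd : M → M → M
  Z : M
  O : M

namespace Ops
variable {M : Type} (A : Ops M)

/-- `w` marks in front of `a` -/
def marks : ℕ → M → M
  | 0, a => a
  | w + 1, a => A.nd A.O (marks w a)

/-- numerals -/
def num (n : ℕ) : M := A.marks n A.Z

/-- a list with the end `e` -/
def enc : List M → M → M
  | [], e => e
  | y :: l, e => A.nd y (enc l e)

/-- the zipper: left names and left marks, right names and right marks -/
def zip (L a R b : M) : M := A.nd (A.nd L a) (A.nd R b)

/-- first checking state -/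
def c1 (t : M) : M := A.nd (A.num 0) t
/-- second checking state -/
def c2 (t : M) : M := A.nd (A.num 1) t
/-- simulation state: clock `t`, remaining time `s`, machine configuration `x` -/
def st (t s x : M) : M := A.nd (A.num 2) (A.nd t (A.nd s x))

/-- a tuple of registers -/
def tup {K : ℕ} (r : Fin K → M) : M := A.enc (List.ofFn r) A.Z

end Ops

/-- how a register is updated -/
inductive Upd (K : ℕ) : Type
  | zero : Upd K
  | copy (j : Fin K) : Upd K
  | succ (j : Fin K) : Upd K
  | pred (j : Fin K) : Upd K

/-- value of an update -/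
def Upd.app {K : ℕ} (u : Upd K) (r : Fin K → ℕ) : ℕ :=
  match u with
  | Upd.zero => 0
  | Upd.copy j => r j
  | Upd.succ j => r j + 1
  | Upd.pred j => r j - 1

/-- A deterministic register machine with `K` registers and `nQ` states (all registers are updated
at the same time, the new state depends on the zero tests of all registers). -/
structure RM where
  nQ : ℕ
  K : ℕ
  inp : Fin K
  start : Fin nQ
  upd : Fin nQ → Fin K → Upd K
  nxt : Fin nQ → (Fin K → Bool) → Fin nQ
  halt : Fin nQ → Bool

namespace RM
variable (T : RM)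

/-- one step -/
def step (c : Fin T.nQ × (Fin T.K → ℕ)) : Fin T.nQ × (Fin T.K → ℕ) :=
  (T.nxt c.1 (fun i => decide (c.2 i = 0)), fun i => (T.upd c.1 i).app c.2)

/-- the configuration after `j` steps with input `k` -/
def run (k j : ℕ) : Fin T.nQ × (Fin T.K → ℕ) :=
  T.step^[j] (T.start, fun i => if i = T.inp then k else 0)

/-- the machine halts on the input `k` -/
def Halts (k : ℕ) : Prop := ∃ j, T.halt (T.run k j).1 = true

end RM

namespace Ops
variable {M : Type} (A : Ops M) (T : RM)

/-- machine configuration: state and registers -/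
def sc (q : Fin T.nQ) (r : Fin T.K → M) : M := A.nd (A.num q) (A.tup r)

/-- the initial machine configuration with input `a` -/
def init (a : M) : M := A.sc T T.start (fun i => if i = T.inp then a else A.Z)

/-- register contents before a step: zero pattern `z`, predecessors `v` -/
def lhs {K : ℕ} (z : Fin K → Bool) (v : Fin K → M) (i : Fin K) : M :=
  if z i then A.Z else A.nd A.O (v i)

/-- register contents after a step -/
def rhs {K : ℕ} (u : Upd K) (z : Fin K → Bool) (v : Fin K → M) : M :=
  match u with
  | Upd.zero => A.Z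
  | Upd.copy j => A.lhs z v j
  | Upd.succ j => A.nd A.O (A.lhs z v j)
  | Upd.pred j => if z j then A.Z else v j

/-- names: one step (`cm y y'`: the name `y` may be replaced by `y'`) -/
inductive NS (cm : M → M → Prop) : M → M → Prop
  | shift (y L a R b : M) :
      NS cm (A.zip (A.nd y L) (A.nd A.O a) R b) (A.zip L a (A.nd y R) (A.nd A.O b))
  | swap (y y' L a R b : M) :
      NS cm (A.zip (A.nd y L) (A.nd A.O a) (A.nd y' R) (A.nd A.O b))
        (A.zip (A.nd y' L) (A.nd A.O a) (A.nd y R) (A.nd A.O b))
  | comm (y y' L a R b : M) (h : cm y y') :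
      NS cm (A.zip (A.nd y L) (A.nd A.O a) R b) (A.zip (A.nd y' L) (A.nd A.O a) R b)

/-- names: killed if two adjacent names are equal -/
inductive NK : M → Prop
  | kill (y L a R b : M) : NK (A.zip (A.nd y L) (A.nd A.O a) (A.nd y R) (A.nd A.O b))

/-- data: one step.  `p1`: the left end of the marks is `Z`; `a2 a`: the right end is `Z` and at the
right end the left marks are `a`. -/
inductive DS (p1 : Prop) (a2 : M → Prop) : M → M → Prop
  | v1 (h : p1) (t : M) : DS p1 a2 (A.c1 t) (A.c2 t)
  | v2 (a : M) (h : a2 a) (t : M) : DS p1 a2 (A.c2 t) (A.st t t (A.init T a))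
  | sim (q : Fin T.nQ) (z : Fin T.K → Bool) (v : Fin T.K → M) (t s : M) (h : T.halt q = false) :
      DS p1 a2 (A.st t (A.nd A.O s) (A.sc T q (A.lhs z v)))
        (A.st t s (A.sc T (T.nxt q z) (fun i => A.rhs (T.upd q i) z v)))
  | rst (t x : M) : DS p1 a2 (A.st t A.Z x) (A.c1 (A.nd A.O t))

/-- data: killed if the machine halts in time -/
inductive DK : M → Prop
  | halt (q : Fin T.nQ) (h : T.halt q = true) (r t s : M) :
      DK (A.st t (A.nd A.O s) (A.nd (A.num q) r))

/-- configurations: one step -/
inductive RS (cm : M → M → Prop) : M → M → Prop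
  | nm (N N' D : M) (h : A.NS cm N N') : RS cm (A.nd N D) (A.nd N' D)
  | v1 (L R b t : M) : RS cm (A.nd (A.zip L A.Z R b) (A.c1 t)) (A.nd (A.zip L A.Z R b) (A.c2 t))
  | v2 (L a R t : M) : RS cm (A.nd (A.zip L a R A.Z) (A.c2 t))
      (A.nd (A.zip L a R A.Z) (A.st t t (A.init T a)))
  | sim (N : M) (q : Fin T.nQ) (z : Fin T.K → Bool) (v : Fin T.K → M) (t s : M) (h : T.halt q = false) :
      RS cm (A.nd N (A.st t (A.nd A.O s) (A.sc T q (A.lhs z v))))
        (A.nd N (A.st t s (A.sc T (T.nxt q z) (fun i => A.rhs (T.upd q i) z v))))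
  | rst (N t x : M) : RS cm (A.nd N (A.st t A.Z x)) (A.nd N (A.c1 (A.nd A.O t)))

/-- configurations: killed -/
inductive RK : M → Prop
  | nk (N D : M) (h : A.NK N) : RK (A.nd N D)
  | dk (N D : M) (h : A.DK T D) : RK (A.nd N D)

end Ops

/-- The pairing is free and well-founded and `Z` is not a pair. -/
structure Free {M : Type} (A : Ops M) : Prop where
  inj : ∀ {x y x' y' : M}, A.nd x y = A.nd x' y' → x = x' ∧ y = y'
  Z_ne : ∀ x y, A.nd x y ≠ A.Z
  sz : ∃ sz : M → ℕ, (∀ x y, sz x < sz (A.nd x y)) ∧ ∀ x y, sz y < sz (A.nd x y)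

/-- The window of a zipper: what is outside of the reach of the pointer, and the multiset of the
(classes of) names inside. -/
structure Win (M V : Type) where
  L0 : M
  a0 : M
  R0 : M
  b0 : M
  S : Multiset V

namespace Ops
variable {M V : Type} (A : Ops M)

/-- the pointer can move over the top of `L`, `a` -/
def Pop (L a : M) : Prop := (∃ y L', L = A.nd y L') ∧ ∃ a', a = A.nd A.O a'

/-- `N` is a zipper with the window `W` (`ab` = class of a name) -/
def HasWin (ab : M → V) (N : M) (W : Win M V) : Prop :=
  ∃ l1 l2 : List M, N = A.zip (A.enc l1 W.L0) (A.marks l1.length W.a0) (A.enc l2 W.R0)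
      (A.marks l2.length W.b0) ∧
    ¬ A.Pop W.L0 W.a0 ∧ ¬ A.Pop W.R0 W.b0 ∧ W.S = ((l1 ++ l2).map ab : List V)

/-- `N` is a zipper -/
def IsZip (N : M) : Prop := ∃ L a R b, N = A.zip L a R b

/-- equivalence of names -/
def NEq (cm : M → M → Prop) : M → M → Prop := Relation.EqvGen (A.NS cm)

/-- left end condition, up to names moves -/
def P1 (cm : M → M → Prop) (N : M) : Prop := ∃ L R b, A.NEq cm N (A.zip L A.Z R b)
/-- right end condition, up to names moves -/
def A2 (cm : M → M → Prop) (N : M) (a : M) : Prop := ∃ L R, A.NEq cm N (A.zip L a R A.Z)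

/-- the equivalence relation of the rewriting system -/
def REq (T : RM) (cm : M → M → Prop) : M → M → Prop := Relation.EqvGen (A.RS T cm)

/-- killed configurations -/
def Dead (T : RM) (cm : M → M → Prop) (Y : M) : Prop := ∃ Y', A.REq T cm Y Y' ∧ A.RK T Y'

/-- `D` is stuck and not killed -/
def Stuck (T : RM) (p1 : Prop) (a2 : M → Prop) (D : M) : Prop :=
  (∀ D', ¬ A.DS T p1 a2 D D') ∧ ¬ A.DK T D

/-- Normal forms.  (1) not a pair; (2) no zipper; (3) zipper with window `W`, distinct names, the data
stuck or canonical. -/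
inductive Nrm (T : RM) (ab : M → V) : M → Prop
  | n1 (Y : M) (h : ∀ x y, Y ≠ A.nd x y) : Nrm T ab Y
  | n2 (N D : M) (h : ¬ A.IsZip N) (hD : A.Stuck T False (fun _ => False) D) : Nrm T ab (A.nd N D)
  | n3 (N D : M) (W : Win M V) (hW : A.HasWin ab N W) (hS : W.S.Nodup)
      (hD : A.Stuck T (W.a0 = A.Z) (fun a => W.b0 = A.Z ∧ a = A.marks W.S.card W.a0) D ∨
        (W.a0 = A.Z ∧ W.b0 = A.Z ∧ D = A.c1 A.Z ∧ ¬ T.Halts W.S.card)) : Nrm T ab (A.nd N D)

/-- two normal forms are the same -/
inductive Same (ab : M → V) : M → M → Prop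
  | refl (Y : M) : Same ab Y Y
  | win (N N' D : M) (W : Win M V) (h : A.HasWin ab N W) (h' : A.HasWin ab N' W) :
      Same ab (A.nd N D) (A.nd N' D)

end Ops

end Pool.Agent.helper24.PV
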