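import Pool.Agent.helper24.PV.A2
import Pool.Agent.helper24.PV.U1
import Pool.Agent.helper24.PV.Mach
/-! PV-Final: the block LAWS. -/
set_option autoImplicit false
namespace Pool.Agent.helper24.PV
open Pool.Agent.helper4.PV Pool.Agent.helper50.BW Pool.Agent.helper47.PV

theorem final {d : ℕ} {P : Par} (hG : Geo d P) (hI : Ind d) (hd : d.Prime)
    (hT : PrimrecPred fun w : W => Triv d w) :
    ∃ L : Finset (FreeGroup ℕ),
      (∀ n : ℕ, ComputablePred (fun l : List (Fin n × Bool) =>
          FreeGroup.mk l ∈ Subgroup.closure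
            {g : FreeGroup (Fin n) | ∃ w ∈ L, ∃ f : FreeGroup ℕ →* FreeGroup (Fin n), f w = g})) ∧
      ¬ ComputablePred (fun l : List (ℕ × Bool) =>
          FreeGroup.mk l ∈ Subgroup.closure
            {g : FreeGroup ℕ | ∃ w ∈ L, ∃ f : FreeGroup ℕ →* FreeGroup ℕ, f w = g}) := by
  obtain ⟨T, hTM⟩ := exists_rm
  exact ⟨Laws P T d, fun n => dec_rank hG hI hd hT n, undec hG hI hd hTM⟩

end Pool.Agent.helper24.PV
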