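import Pool.Agent.helper24.PV.GDefs
/-! PV-G0: homomorphisms of operations. -/
set_option autoImplicit false
namespace Pool.Agent.helper24.PV
open Pool.Agent.helper4.PV Pool.Agent.helper47.PV
variable {M M' V : Type} {A : Ops M} {A' : Ops M'} {f : M → M'} {T : RM}

/-! PROOFS: unfold, `h.nd`, `h.Z`, `h.O`; inductions on the number / the list. -/

theorem Ops.Hom.marks (h : Ops.Hom A A' f) (n : ℕ) (x : M) : f (A.marks n x) = A'.marks n (f x) := by
  induction n with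
  | zero => rfl
  | succ n ih =>
    change f (A.nd A.O (A.marks n x)) = A'.nd A'.O (A'.marks n (f x))
    rw [h.nd, h.O, ih]
theorem Ops.Hom.num (h : Ops.Hom A A' f) (n : ℕ) : f (A.num n) = A'.num n := by
  unfold Ops.num
  rw [h.marks, h.Z]
theorem Ops.Hom.enc (h : Ops.Hom A A' f) (l : List M) (e : M) : f (A.enc l e) = A'.enc (l.map f) (f e) := by
  induction l with
  | nil => rfl
  | cons y l ih =>
    change f (A.nd y (A.enc l e)) = A'.nd (f y) (A'.enc (l.map f) (f e))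
    rw [h.nd, ih]
theorem Ops.Hom.zip (h : Ops.Hom A A' f) (L a R b : M) :
    f (A.zip L a R b) = A'.zip (f L) (f a) (f R) (f b) := by
  unfold Ops.zip
  rw [h.nd, h.nd, h.nd]
theorem Ops.Hom.c1 (h : Ops.Hom A A' f) (t : M) : f (A.c1 t) = A'.c1 (f t) := by
  unfold Ops.c1
  rw [h.nd, h.num]
theorem Ops.Hom.c2 (h : Ops.Hom A A' f) (t : M) : f (A.c2 t) = A'.c2 (f t) := by
  unfold Ops.c2
  rw [h.nd, h.num]
theorem Ops.Hom.st (h : Ops.Hom A A' f) (t s x : M) : f (A.st t s x) = A'.st (f t) (f s) (f x) := by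
  unfold Ops.st
  rw [h.nd, h.nd, h.nd, h.num]
theorem Ops.Hom.tup (h : Ops.Hom A A' f) {K : ℕ} (r : Fin K → M) :
    f (A.tup r) = A'.tup (fun i => f (r i)) := by
  unfold Ops.tup
  rw [h.enc, h.Z, List.map_ofFn]
  rfl
theorem Ops.Hom.sc (h : Ops.Hom A A' f) (q : Fin T.nQ) (r : Fin T.K → M) :
    f (A.sc T q r) = A'.sc T q (fun i => f (r i)) := by
  unfold Ops.sc
  rw [h.nd, h.num, h.tup]
theorem Ops.Hom.init (h : Ops.Hom A A' f) (a : M) : f (A.init T a) = A'.init T (f a) := by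
  unfold Ops.init
  rw [h.sc]
  congr 1
  funext i
  split_ifs
  · rfl
  · exact h.Z
theorem Ops.Hom.lhs (h : Ops.Hom A A' f) {K : ℕ} (z : Fin K → Bool) (v : Fin K → M) (i : Fin K) :
    f (A.lhs z v i) = A'.lhs z (fun i => f (v i)) i := by
  unfold Ops.lhs
  split_ifs
  · exact h.Z
  · rw [h.nd, h.O]
theorem Ops.Hom.rhs (h : Ops.Hom A A' f) {K : ℕ} (u : Upd K) (z : Fin K → Bool) (v : Fin K → M) :
    f (A.rhs u z v) = A'.rhs u z (fun i => f (v i)) := by
  cases u with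
  | zero => exact h.Z
  | copy j => exact h.lhs z v j
  | succ j =>
    change f (A.nd A.O (A.lhs z v j)) = A'.nd A'.O (A'.lhs z (fun i => f (v i)) j)
    rw [h.nd, h.O, h.lhs]
  | pred j =>
    change f (if z j then A.Z else v j) = if z j then A'.Z else f (v j)
    split_ifs
    · exact h.Z
    · rfl

theorem G0_ns (h : Ops.Hom A A' f) {cm : M → M → Prop} {cm' : M' → M' → Prop}
    (hcm : ∀ y y', cm y y' → cm' (f y) (f y')) {N N' : M} (hn : A.NS cm N N') :
    A'.NS cm' (f N) (f N') := by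
  cases hn with
  | shift y L a R b =>
    rw [h.zip, h.zip, h.nd, h.nd, h.nd, h.nd, h.O]
    exact Ops.NS.shift _ _ _ _ _
  | swap y y' L a R b =>
    rw [h.zip, h.zip, h.nd, h.nd, h.nd, h.nd, h.nd, h.nd, h.O]
    exact Ops.NS.swap _ _ _ _ _ _
  | comm y y' L a R b hc =>
    rw [h.zip, h.zip, h.nd, h.nd, h.nd, h.O]
    exact Ops.NS.comm _ _ _ _ _ _ (hcm y y' hc)

theorem G0_nk (h : Ops.Hom A A' f) {N : M} (hn : A.NK N) : A'.NK (f N) := by
  cases hn with
  | kill y L a R b =>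
    rw [h.zip, h.nd, h.nd, h.nd, h.nd, h.O]
    exact Ops.NK.kill _ _ _ _ _

theorem G0_sc_lhs (h : Ops.Hom A A' f) (q : Fin T.nQ) (z : Fin T.K → Bool) (v : Fin T.K → M) :
    f (A.sc T q (A.lhs z v)) = A'.sc T q (A'.lhs z (fun i => f (v i))) := by
  rw [h.sc]
  congr 1
  funext i
  exact h.lhs z v i

theorem G0_sc_rhs (h : Ops.Hom A A' f) (q q' : Fin T.nQ) (z : Fin T.K → Bool) (v : Fin T.K → M) :
    f (A.sc T q (fun i => A.rhs (T.upd q' i) z v)) =
      A'.sc T q (fun i => A'.rhs (T.upd q' i) z (fun i => f (v i))) := by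
  rw [h.sc]
  congr 1
  funext i
  exact h.rhs _ z v

theorem G0_ds (h : Ops.Hom A A' f) {p1 p1' : Prop} {a2 : M → Prop} {a2' : M' → Prop}
    (h1 : p1 → p1') (h2 : ∀ a, a2 a → a2' (f a)) {D D' : M} (hd : A.DS T p1 a2 D D') :
    A'.DS T p1' a2' (f D) (f D') := by
  cases hd with
  | v1 hp t =>
    rw [h.c1, h.c2]
    exact Ops.DS.v1 (h1 hp) _
  | v2 a ha t =>
    rw [h.c2, h.st, h.init]
    exact Ops.DS.v2 _ (h2 a ha) _
  | sim q z v t s hh =>
    rw [h.st, h.st, h.nd, h.O, G0_sc_lhs h, G0_sc_rhs h]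
    exact Ops.DS.sim q z _ _ _ hh
  | rst t x =>
    rw [h.st, h.c1, h.nd, h.Z, h.O]
    exact Ops.DS.rst _ _

theorem G0_dk (h : Ops.Hom A A' f) {D : M} (hd : A.DK T D) : A'.DK T (f D) := by
  cases hd with
  | halt q hq r t s =>
    rw [h.st, h.nd, h.nd, h.O, h.num]
    exact Ops.DK.halt q hq _ _ _

/-- PV-G0a.  Homomorphisms preserve the steps. PROOF. cases, the lemmas above. -/
theorem Ops.Hom.rs (h : Ops.Hom A A' f) {cm : M → M → Prop} {cm' : M' → M' → Prop}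
    (hcm : ∀ y y', cm y y' → cm' (f y) (f y')) {Y Y' : M} (hr : A.RS T cm Y Y') :
    A'.RS T cm' (f Y) (f Y') := by
  cases hr with
  | nm N N' D hn =>
    rw [h.nd, h.nd]
    exact Ops.RS.nm _ _ _ (G0_ns h hcm hn)
  | v1 L R b t =>
    rw [h.nd, h.nd, h.zip, h.c1, h.c2, h.Z]
    exact Ops.RS.v1 _ _ _ _
  | v2 L a R t =>
    rw [h.nd, h.nd, h.zip, h.c2, h.st, h.init, h.Z]
    exact Ops.RS.v2 _ _ _ _
  | sim N q z v t s hh =>
    rw [h.nd, h.nd, h.st, h.st, h.nd, h.O, G0_sc_lhs h, G0_sc_rhs h]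
    exact Ops.RS.sim _ q z _ _ _ hh
  | rst N t x =>
    rw [h.nd, h.nd, h.st, h.c1, h.nd, h.Z, h.O]
    exact Ops.RS.rst _ _ _

/-- PV-G0b. -/
theorem Ops.Hom.rk (h : Ops.Hom A A' f) {Y : M} (hr : A.RK T Y) : A'.RK T (f Y) := by
  cases hr with
  | nk N D hn =>
    rw [h.nd]
    exact Ops.RK.nk _ _ (G0_nk h hn)
  | dk N D hd =>
    rw [h.nd]
    exact Ops.RK.dk _ _ (G0_dk h hd)

theorem G0_symm (e : M ≃ M') (h : Ops.Hom A A' e) : Ops.Hom A' A e.symm := by
  refine ⟨fun x y => ?_, ?_, ?_⟩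
  · apply e.injective
    rw [h.nd, e.apply_symm_apply, e.apply_symm_apply, e.apply_symm_apply]
  · apply e.injective
    rw [h.Z, e.apply_symm_apply]
  · apply e.injective
    rw [h.O, e.apply_symm_apply]

theorem G0_stuck (e : M ≃ M') (h : Ops.Hom A A' e) {p1 p1' : Prop} {a2 : M → Prop}
    {a2' : M' → Prop} (h1 : p1' → p1) (h2 : ∀ a, a2' (e a) → a2 a) {D : M}
    (hd : A.Stuck T p1 a2 D) : A'.Stuck T p1' a2' (e D) := by
  have hs := G0_symm e h
  refine ⟨fun D' hD' => ?_, fun hk => ?_⟩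
  · refine hd.1 (e.symm D') ?_
    have h3 := G0_ds (a2' := a2) hs h1 (fun a ha => h2 _ (by rwa [e.apply_symm_apply])) hD'
    rwa [e.symm_apply_apply] at h3
  · refine hd.2 ?_
    have h3 := G0_dk hs hk
    rwa [e.symm_apply_apply] at h3

theorem G0_pop (h : Ops.Hom A A' f) {L a : M} (hp : A.Pop L a) : A'.Pop (f L) (f a) := by
  obtain ⟨⟨y, L', rfl⟩, a', rfl⟩ := hp
  rw [h.nd, h.nd, h.O]
  exact ⟨⟨_, _, rfl⟩, _, rfl⟩

theorem G0_pop' (e : M ≃ M') (h : Ops.Hom A A' e) {L a : M} (hp : ¬ A.Pop L a) :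
    ¬ A'.Pop (e L) (e a) := by
  intro h1
  have h2 := G0_pop (G0_symm e h) h1
  rw [e.symm_apply_apply, e.symm_apply_apply] at h2
  exact hp h2

theorem G0_hasWin (e : M ≃ M') (h : Ops.Hom A A' e) {ab : M → V} {ab' : M' → V}
    (hab : ∀ y, ab' (e y) = ab y) {N : M} {W : Win M V} (hN : A.HasWin ab N W) :
    A'.HasWin ab' (e N) ⟨e W.L0, e W.a0, e W.R0, e W.b0, W.S⟩ := by
  obtain ⟨l1, l2, h1, h2, h3, h4⟩ := hN
  refine ⟨l1.map e, l2.map e, ?_, G0_pop' e h h2, G0_pop' e h h3, ?_⟩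
  · rw [h1, h.zip, h.enc, h.enc, h.marks, h.marks, List.length_map, List.length_map]
  · rw [h4, ← List.map_append, List.map_map]
    congr 1
    apply List.map_congr_left
    intro y _
    exact (hab y).symm

/-- PV-G0c.  Bijective homomorphisms preserve normal forms.
PROOF. cases; the inverse map is also a homomorphism (apply `e.injective`); a stuck state stays stuck
because a step of `f D` would be the image of a step of `D` (use G0a-like transport of `DS`, `DK`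
along the inverse). -/
theorem Ops.Hom.nrm (e : M ≃ M') (h : Ops.Hom A A' e) {ab : M → V} {ab' : M' → V}
    (hab : ∀ y, ab' (e y) = ab y) {Y : M} (hY : A.Nrm T ab Y) : A'.Nrm T ab' (e Y) := by
  have hs := G0_symm e h
  cases hY with
  | n1 Y hn =>
    refine Ops.Nrm.n1 _ fun x y hxy => hn (e.symm x) (e.symm y) ?_
    rw [← hs.nd, ← hxy, e.symm_apply_apply]
  | n2 N D hz hD =>
    rw [h.nd]
    refine Ops.Nrm.n2 _ _ ?_ (G0_stuck e h id (fun _ ha => ha) hD)
    rintro ⟨L, a, R, b, hN⟩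
    refine hz ⟨e.symm L, e.symm a, e.symm R, e.symm b, ?_⟩
    rw [← hs.zip, ← hN, e.symm_apply_apply]
  | n3 N D W hW hS hD =>
    rw [h.nd]
    have hZ : ∀ x, e x = A'.Z → x = A.Z := fun x hx => e.injective (by rw [hx, h.Z])
    refine Ops.Nrm.n3 _ _ ⟨e W.L0, e W.a0, e W.R0, e W.b0, W.S⟩ (G0_hasWin e h hab hW) hS ?_
    rcases hD with hD | ⟨h1, h2, h3, h4⟩
    · left
      refine G0_stuck e h (fun hx => hZ _ hx) (fun a ha => ?_) hD
      refine ⟨hZ _ ha.1, e.injective ?_⟩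
      rw [h.marks]
      exact ha.2
    · right
      refine ⟨?_, ?_, ?_, h4⟩
      · show e W.a0 = A'.Z
        rw [h1, h.Z]
      · show e W.b0 = A'.Z
        rw [h2, h.Z]
      · rw [h3, h.c1, h.Z]

/-- PV-G0d.  Bijective homomorphisms preserve windows. -/
theorem Ops.Hom.hasWin (e : M ≃ M') (h : Ops.Hom A A' e) {ab : M → V} {ab' : M' → V}
    (hab : ∀ y, ab' (e y) = ab y) {N : M} {W : Win M V} (hN : A.HasWin ab N W) :
    A'.HasWin ab' (e N) ⟨e W.L0, e W.a0, e W.R0, e W.b0, W.S⟩ :=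
  G0_hasWin e h hab hN

/-- PV-G0e.  Group homomorphisms are homomorphisms of the operations. PROOF. `helper47.PV.map_Wt`. -/
theorem ops_hom (P : Par) {G H : Type} [Group G] [Group H] (φ : G →* H) (a b : G) :
    Ops.Hom (ops P a b) (ops P (φ a) (φ b)) φ := by
  refine ⟨fun x y => ?_, rfl, rfl⟩
  change φ (Wt P a (Wt P a b x) y) = Wt P (φ a) (Wt P (φ a) (φ b) (φ x)) (φ y)
  rw [map_Wt, map_Wt]

/-- PV-G0f.  Conjugation. PROOF. `helper47.PV.conj_Wt`. -/
theorem conj_hom (P : Par) {G : Type} [Group G] (g a b : G) :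
    Ops.Hom (ops P a b) (ops P (g * a * g⁻¹) (g * b * g⁻¹)) (fun x => g * x * g⁻¹) := by
  refine ⟨fun x y => ?_, rfl, rfl⟩
  change g * Wt P a (Wt P a b x) y * g⁻¹ =
    Wt P (g * a * g⁻¹) (Wt P (g * a * g⁻¹) (g * b * g⁻¹) (g * x * g⁻¹)) (g * y * g⁻¹)
  rw [conj_Wt, conj_Wt]

/-- PV-G0g.  PROOF. `cm` is preserved by conjugation, `Abelianization.of` is invariant. -/
theorem cmG_conj {G : Type} [Group G] (g : G) {y y' : G} (h : cmG y y') :
    cmG (g * y * g⁻¹) (g * y' * g⁻¹) := by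
  obtain ⟨u, v, rfl⟩ := h
  refine ⟨g * u * g⁻¹, g * v * g⁻¹, ?_⟩
  group

theorem abG_conj {G : Type} [Group G] (g y : G) : abG (g * y * g⁻¹) = abG y := by
  unfold abG
  rw [map_mul, map_mul, map_inv, mul_comm, inv_mul_cancel_left]

/-- PV-G0h.  The normal forms of conjugated frames. PROOF. G0c, G0d with `MulAut.conj g`. -/
theorem nrm_conj (P : Par) {G : Type} [Group G] (g a b : G) {Y : G}
    (h : (ops P a b).Nrm T abG Y) : (ops P (g * a * g⁻¹) (g * b * g⁻¹)).Nrm T abG (g * Y * g⁻¹) :=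
  Ops.Hom.nrm (MulAut.conj g).toEquiv (conj_hom P g a b) (fun y => abG_conj g y) h

end Pool.Agent.helper24.PV
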