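import Pool.Agent.helper24.PV.G0
/-! PV-G1: consequences of the geometric facts. -/
set_option autoImplicit false
namespace Pool.Agent.helper24.PV
open Pool.Agent.helper4.PV Pool.Agent.helper50.BW Pool.Agent.helper47.PV
variable {d : ℕ} {P : Par}

/-- PV-G1a.  Degenerate test words are trivial.
PROOF. If `a = 1` or (`a` commutes with `y` and `z`) then `cm a y = 1`, `cm (a^N) y = 1`, ... so the marker is
`1` and `hh` is ten times `a` and then `(a^10)⁻¹` (for `y * a * y⁻¹ = a`). -/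
theorem Wt_of_not_Nd {G : Type} [Group G] (P : Par) {a y z : G} (h : ¬ Nd a y z) : Wt P a y z = 1 := by
  have key : y * a * y⁻¹ = a ∧ z * a * z⁻¹ = a := by
    unfold Nd at h
    by_cases ha : a = 1
    · rw [ha]
      simp
    · have h1 : Commute a y ∧ Commute a z := by
        by_contra hc
        exact h ⟨ha, hc⟩
      refine ⟨?_, ?_⟩
      · rw [← h1.1.eq, mul_inv_cancel_right]
      · rw [← h1.2.eq, mul_inv_cancel_right]
  obtain ⟨hy, hz⟩ := key
  have hcm : ∀ u v : G, v * u * v⁻¹ = u → cm u v = 1 := by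
    intro u v huv
    unfold cm
    rw [huv]
    group
  have hN : ∀ v : G, v * a * v⁻¹ = a → v * a ^ P.N * v⁻¹ = a ^ P.N := by
    intro v hv
    rw [← conj_pow, hv]
  have hmk : mkr P a y z = 1 := by
    unfold mkr
    rw [hcm a y hy, hcm a z hz, hcm _ y (hN y hy), hcm _ z (hN z hz)]
    simp
  have hh1 : hh a y z 1 = ![a, a, a, a, a, a, a, a, a, a, (a ^ 10)⁻¹] := by
    unfold hh
    rw [one_mul, inv_one, mul_one, hy, hz]
  unfold Wt wprod
  rw [hmk, hh1]
  simp only [one_pow, one_mul]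
  simp [List.ofFn_succ, ← mul_assoc, ← sq]
  group

/-- PV-G1b.  Exponent `d` in `BB d`. PROOF. `QuotientGroup.induction_on`, `x ^ d ∈ Fd d`. -/
theorem BB_pow (d : ℕ) (x : BB d) : x ^ d = 1 := by
  obtain ⟨g, rfl⟩ := QuotientGroup.mk_surjective x
  rw [← QuotientGroup.mk_pow]
  exact (QuotientGroup.eq_one_iff _).2 (Subgroup.subset_closure ⟨g, rfl⟩)

/-- PV-G1c.  Only the identity commutes with a good frame.
PROOF. If `h ≠ 1` then `a, b ∈ zpowers h` by `cent`, so they commute. -/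
theorem eq_one_of_frame (hG : Geo d P) {a b h : BB d} (hab : ¬ Commute a b) (ha : Commute h a)
    (hb : Commute h b) : h = 1 := by
  by_contra hh
  obtain ⟨m, hm⟩ := Subgroup.mem_zpowers_iff.1 (hG.cent h a hh ha.symm)
  obtain ⟨n, hn⟩ := Subgroup.mem_zpowers_iff.1 (hG.cent h b hh hb.symm)
  apply hab
  rw [← hm, ← hn]
  exact Commute.zpow_zpow_self h m n

/-- PV-G1d. PROOF. `a ≠ 1` since `1` commutes with `b`. -/
theorem Nd_frame {a b : BB d} (hab : ¬ Commute a b) (z : BB d) : Nd a b z := by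
  refine ⟨?_, fun h => hab h.1⟩
  rintro rfl
  exact hab (Commute.one_left b)

theorem G1_not_dvd_one (hd : 2 ≤ d) : ¬ (d : ℤ) ∣ 1 := by
  intro h
  have := Int.le_of_dvd one_pos h
  omega

/-- PV-G1e.  With the same `a` the test word determines `y` and `z`.
PROOF. `inj` with `k = 1`, `g = 1` gives `h` commuting with `a` and with `x := Wt P a y z`
(`h * Wt P a y z * h⁻¹ = Wt P a y' z' = x`, G0f); `x` does not commute with `a` (`ncomm`): G1c for the
frame `(x, a)`: `h = 1`.  `1 - 1 = 0`, `d ∤ 1`: needs `2 ≤ d`. -/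
theorem Wt_inj (hG : Geo d P) (hd : 2 ≤ d) {a y z y' z' : BB d} (h : Nd a y z)
    (he : Wt P a y z = Wt P a y' z') : y = y' ∧ z = z' := by
  obtain ⟨-, h0, h1, h2, h3⟩ := hG.inj a y z a y' z' 1 1 h (G1_not_dvd_one hd) (by
    rw [zpow_one, one_mul, inv_one, mul_one]
    exact he.symm)
  have hc1 : Commute h0 a := by
    have : h0 * a * h0⁻¹ = a := h1.symm
    exact mul_inv_eq_iff_eq_mul.1 this
  have hc2 : Commute h0 (Wt P a y z) := by
    have h4 := conj_Wt P h0 a y z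
    rw [← h1, ← h2, ← h3, ← he] at h4
    exact mul_inv_eq_iff_eq_mul.1 h4
  have h5 := eq_one_of_frame hG (hG.ncomm a y z h) hc2 hc1
  rw [h5] at h2 h3
  simp only [one_mul, inv_one, mul_one] at h2 h3
  exact ⟨h2.symm, h3.symm⟩

/-- PV-G1f.  The operations of a good frame are free.
PROOF. `inj`: `nd x y = Wt a (Wt a b x) y`; `Wt a b x` does not commute with `a` (`ncomm`, G1d), so
`Nd a (Wt a b x) y`; G1e twice.  `Z_ne` and `sz`: `M` from `rank` (`a ≠ 1`):
`M b, M x < M (Wt a b x) < M (nd x y)`, `M y < M (nd x y)`. -/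
theorem G1_Nd2 (hG : Geo d P) {a b : BB d} (hab : ¬ Commute a b) (x y : BB d) :
    Nd a (Wt P a b x) y :=
  ⟨(Nd_frame hab x).1, fun h => hG.ncomm a b x (Nd_frame hab x) h.1.symm⟩

theorem free_ops (hG : Geo d P) (hd : 2 ≤ d) {a b : BB d} (hab : ¬ Commute a b) : Free (ops P a b) := by
  obtain ⟨M, hM⟩ := hG.rank a (Nd_frame hab b).1
  have h1 : ∀ x, M b < M (Wt P a b x) ∧ M x < M (Wt P a b x) := fun x => hM b x (Nd_frame hab x)
  have h2 : ∀ x y, M (Wt P a b x) < M (Wt P a (Wt P a b x) y) ∧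
      M y < M (Wt P a (Wt P a b x) y) := fun x y => hM _ y (G1_Nd2 hG hab x y)
  refine ⟨?_, ?_, M, ?_, ?_⟩
  · intro x y x' y' h
    obtain ⟨h3, h4⟩ := Wt_inj hG hd (G1_Nd2 hG hab x y) h
    exact ⟨(Wt_inj hG hd (Nd_frame hab x) h3).2, h4⟩
  · intro x y h
    have h3 : M (Wt P a (Wt P a b x) y) = M b := congrArg M h
    have h4 := (h1 x).1
    have h5 := (h2 x y).1
    omega
  · intro x y
    exact (h1 x).2.trans (h2 x y).1
  · intro x y
    exact (h2 x y).2

/-- PV-G1g.  Power conjugacy of configurations.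
PROOF. `d ∤ k` since otherwise `Wt P a b Y ^ k = 1` (G1b), but `Wt P a' b' Y' ≠ 1` does not commute...;
`inj`; `h` as in `inj`. -/
theorem cfg_inj (hG : Geo d P) (hd : 2 ≤ d) {a b Y a' b' Y' g : BB d} {k : ℕ} (hab : ¬ Commute a b)
    (hab' : ¬ Commute a' b') (h : Wt P a' b' Y' = g * Wt P a b Y ^ k * g⁻¹) :
    (k : ZMod d) = 1 ∧ ∃ h, a' = h * a * h⁻¹ ∧ b' = h * b * h⁻¹ ∧ Y' = h * Y * h⁻¹ := by
  have hk : ¬ (d : ℤ) ∣ (k : ℤ) := by
    intro hk
    obtain ⟨t, rfl⟩ := Int.natCast_dvd_natCast.1 hk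
    rw [pow_mul, BB_pow, one_pow, mul_one, mul_inv_cancel] at h
    apply hG.ncomm a' b' Y' (Nd_frame hab' Y')
    rw [h]
    exact Commute.one_left a'
  obtain ⟨h1, h2⟩ := hG.inj a b Y a' b' Y' g k (Nd_frame hab Y) hk (by
    rw [zpow_natCast]
    exact h)
  refine ⟨?_, h2⟩
  have h3 := (ZMod.intCast_eq_intCast_iff_dvd_sub 1 (k : ℤ) d).2 h1
  rw [Int.cast_one, Int.cast_natCast] at h3
  exact h3.symm

theorem G1_pow_one {x : BB d} {n : ℕ} (hn : (n : ZMod d) = 1) : x ^ n = x := by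
  have h1 : n ≡ 1 [MOD d] := by
    rw [← ZMod.natCast_eq_natCast_iff, hn, Nat.cast_one]
  rw [pow_eq_pow_mod n (BB_pow d x), h1, ← pow_eq_pow_mod 1 (BB_pow d x), pow_one]

theorem G1_inv (hd : d.Prime) {k : ℕ} (hk : ¬ d ∣ k) : ∃ k' : ℕ, (k : ZMod d) * (k' : ZMod d) = 1 := by
  have : Fact d.Prime := ⟨hd⟩
  have h0 : (k : ZMod d) ≠ 0 := fun h => hk ((ZMod.natCast_eq_zero_iff k d).1 h)
  refine ⟨((k : ZMod d)⁻¹).val, ?_⟩
  rw [ZMod.natCast_zmod_val, mul_inv_cancel₀ h0]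

/-- PV-G1h.  An element conjugate to a power of itself.
PROOF. If `d ∣ k` then `x ^ l = 1` and `d ∣ l` (and conversely).  Otherwise raise to the power `k'` with
`k * k' ≡ 1`: `x = g * x ^ m * g⁻¹` with `m = l * k'`; show `m = 1` in `ZMod d`.  It gives `x = g^j x^(m^j) g^(-j)` for all `j`; `j = d`: `x = x^(m^d)` (G1b);
`orderOf x = d` (`x ≠ 1`, `d` prime, `orderOf_eq_prime`), so `m^d ≡ 1`, and `m^d = m` in `ZMod d`
(`ZMod.pow_card`). -/
theorem pow_conj_self (hd : d.Prime) {x g : BB d} (hx : x ≠ 1) {k l : ℕ}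
    (h : x ^ k = g * x ^ l * g⁻¹) : (k : ZMod d) = l := by
  have : Fact d.Prime := ⟨hd⟩
  have hord : orderOf x = d := orderOf_eq_prime (BB_pow d x) hx
  by_cases hk : d ∣ k
  · have h1 : x ^ k = 1 := by
      rw [← hord] at hk
      exact orderOf_dvd_iff_pow_eq_one.1 hk
    rw [h1] at h
    have h2 : x ^ l = 1 := conj_eq_one_iff.1 h.symm
    have h3 : d ∣ l := by
      rw [← hord]
      exact orderOf_dvd_iff_pow_eq_one.2 h2
    rw [(ZMod.natCast_eq_zero_iff k d).2 hk, (ZMod.natCast_eq_zero_iff l d).2 h3]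
  · obtain ⟨k', hk'⟩ := G1_inv hd hk
    have h1 : x = g * x ^ (l * k') * g⁻¹ := by
      have h2 : (x ^ k) ^ k' = x := by
        rw [← pow_mul]
        exact G1_pow_one (by rw [Nat.cast_mul]; exact hk')
      rw [pow_mul, ← conj_pow, ← h, h2]
    have h2 : ∀ j : ℕ, x = g ^ j * x ^ ((l * k') ^ j) * (g ^ j)⁻¹ := by
      intro j
      induction j with
      | zero => simp
      | succ j ih =>
        have h3 : x ^ ((l * k') ^ (j + 1)) = (x ^ (l * k')) ^ ((l * k') ^ j) := by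
          rw [← pow_mul, pow_succ, mul_comm]
        have h4 : x ^ ((l * k') ^ j) = g * x ^ ((l * k') ^ (j + 1)) * g⁻¹ := by
          rw [h3, ← conj_pow, ← h1]
        rw [h4] at ih
        rw [pow_succ, mul_inv_rev]
        calc x = g ^ j * (g * x ^ (l * k') ^ (j + 1) * g⁻¹) * (g ^ j)⁻¹ := ih
          _ = _ := by simp only [mul_assoc]
    have h3 := h2 d
    rw [BB_pow, one_mul, inv_one, mul_one] at h3
    have h4 : x ^ 1 = x ^ ((l * k') ^ d) := by rw [pow_one]; exact h3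
    rw [pow_eq_pow_iff_modEq, hord, ← ZMod.natCast_eq_natCast_iff, Nat.cast_one, Nat.cast_pow,
      ZMod.pow_card, Nat.cast_mul] at h4
    calc (k : ZMod d) = k * (l * k') := by rw [← h4, mul_one]
      _ = l * (k * k') := by ring
      _ = l := by rw [hk', mul_one]

/-- PV-G1i.  Powers of test words are `IsWt`.
PROOF. `k' ` with `k * k' ≡ 1 mod d`: `x^k' = g * Wt P a y z * g⁻¹`, G0f, `Nd` is conjugation invariant. -/
theorem isWt_of_eq (hd : d.Prime) {x g a y z : BB d} {k : ℕ} (hx : x ≠ 1) (h : Nd a y z)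
    (he : x = g * Wt P a y z ^ k * g⁻¹) : IsWt P d x := by
  have hk : ¬ d ∣ k := by
    rintro ⟨t, rfl⟩
    rw [pow_mul, BB_pow, one_pow, mul_one, mul_inv_cancel] at he
    exact hx he
  obtain ⟨k', hk'⟩ := G1_inv hd hk
  refine ⟨k', g * a * g⁻¹, g * y * g⁻¹, g * z * g⁻¹, ⟨?_, ?_⟩, ?_⟩
  · intro h1
    exact h.1 (conj_eq_one_iff.1 h1)
  · rintro ⟨h1, h2⟩
    exact h.2 ⟨(Commute.conj_iff g).1 h1, (Commute.conj_iff g).1 h2⟩
  · rw [← conj_Wt, he, conj_pow, ← pow_mul, G1_pow_one (by rw [Nat.cast_mul]; exact hk')]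

end Pool.Agent.helper24.PV
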