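import Pool.Agent.helper24.PV.G0
/-! PV-G3: the laws and the rules. -/
set_option autoImplicit false
namespace Pool.Agent.helper24.PV
open Pool.Agent.helper4.PV Pool.Agent.helper50.BW Pool.Agent.helper47.PV
variable {P : Par} {T : RM} {d : ℕ} {G : Type} [Group G]

/-- evaluation of the word of a configuration -/
theorem G3_ev (φ : FreeGroup ℕ →* G) (Y : FreeGroup ℕ) :
    φ (cfW P Y) = Wt P (φ (X 0)) (φ (X 1)) (φ Y) := map_Wt φ P _ _ _

theorem G3_hom (P : Par) (φ : FreeGroup ℕ →* G) :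
    Ops.Hom (o01 P) (ops P (φ (X 0)) (φ (X 1))) φ := ops_hom P φ (X 0) (X 1)

theorem G3_lift (f : ℕ → G) (i : ℕ) : (FreeGroup.lift f) (X i) = f i := FreeGroup.lift_apply_of

/-- membership of the simple laws -/
theorem G3_memA {p : FreeGroup ℕ × FreeGroup ℕ} (h : p ∈ lawA P T) : p ∈ lawSet P T d := by
  unfold lawSet
  simp only [Finset.mem_union]
  exact Or.inl (Or.inl (Or.inl (Or.inl h)))

theorem G3_memS (i : Fin T.nQ × (Fin T.K → Bool)) : lawS P T i ∈ lawSet P T d := by
  unfold lawSet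
  simp only [Finset.mem_union]
  exact Or.inl (Or.inl (Or.inl (Or.inr (Finset.mem_image_of_mem _ (Finset.mem_univ _)))))

theorem G3_memK : lawK P ∈ lawSet P T d := by
  unfold lawSet
  simp only [Finset.mem_union]
  exact Or.inl (Or.inl (Or.inr (Finset.mem_singleton_self _)))

theorem G3_memH (q : Fin T.nQ) : lawH P T q ∈ lawSet P T d := by
  unfold lawSet
  simp only [Finset.mem_union]
  exact Or.inl (Or.inr (Finset.mem_image_of_mem _ (Finset.mem_univ _)))

/-- PV-G3a.  Every rule instance is an instance of a law.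
PROOF. cases on `h`; the homomorphism is `FreeGroup.lift` of the function with the values `0 ↦ a`, `1 ↦ b`,
and the variables of the rule (for `sim`: `2 ↦ N`, `3 ↦ t`, `4 ↦ s`, `5 + j ↦ v j`).  Evaluate with
`map_Wt` and the lemmas `Ops.Hom.*` for `ops_hom P φ (X 0) (X 1)`. -/
theorem law_of_RS {a b Y Y' : G} (h : (ops P a b).RS T cmG Y Y') :
    ∃ p ∈ lawSet P T d, ∃ φ : FreeGroup ℕ →* G, φ p.1 = Wt P a b Y ∧ φ p.2 = Wt P a b Y' := by
  cases h with
  | nm N N' D hN =>
    cases hN with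
    | shift y L a' R b' =>
      let f : ℕ → G := fun n => [a, b, y, L, a', R, b', D].getD n 1
      have H := G3_hom P (FreeGroup.lift f)
      refine ⟨_, G3_memA (T := T) (by unfold lawA; exact Finset.mem_insert_self _ _),
        FreeGroup.lift f, ?_, ?_⟩
      · simp only [G3_ev, H.nd, H.zip, H.O, G3_lift]; rfl
      · simp only [G3_ev, H.nd, H.zip, H.O, G3_lift]; rfl
    | swap y y' L a' R b' =>
      let f : ℕ → G := fun n => [a, b, y, L, a', R, b', D, y'].getD n 1
      have H := G3_hom P (FreeGroup.lift f)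
      refine ⟨_, G3_memA (T := T) (by
        unfold lawA; exact Finset.mem_insert_of_mem (Finset.mem_insert_self _ _)),
        FreeGroup.lift f, ?_, ?_⟩
      · simp only [G3_ev, H.nd, H.zip, H.O, G3_lift]; rfl
      · simp only [G3_ev, H.nd, H.zip, H.O, G3_lift]; rfl
    | comm y y' L a' R b' hc =>
      obtain ⟨u, v, rfl⟩ := hc
      let f : ℕ → G := fun n => [a, b, y, L, a', R, b', D, u, v].getD n 1
      have H := G3_hom P (FreeGroup.lift f)
      refine ⟨_, G3_memA (T := T) (by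
        unfold lawA; exact Finset.mem_insert_of_mem (Finset.mem_insert_of_mem
          (Finset.mem_insert_self _ _))),
        FreeGroup.lift f, ?_, ?_⟩
      · simp only [G3_ev, H.nd, H.zip, H.O, G3_lift]; rfl
      · simp only [G3_ev, H.nd, H.zip, H.O, G3_lift, map_mul, map_inv]; rfl
  | v1 L R b' t =>
    let f : ℕ → G := fun n => [a, b, L, R, b', t].getD n 1
    have H := G3_hom P (FreeGroup.lift f)
    refine ⟨_, G3_memA (T := T) (by
      unfold lawA; exact Finset.mem_insert_of_mem (Finset.mem_insert_of_mem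
        (Finset.mem_insert_of_mem (Finset.mem_insert_self _ _)))),
      FreeGroup.lift f, ?_, ?_⟩
    · simp only [G3_ev, H.nd, H.zip, H.O, H.Z, H.c1, G3_lift]; rfl
    · simp only [G3_ev, H.nd, H.zip, H.O, H.Z, H.c2, G3_lift]; rfl
  | v2 L a' R t =>
    let f : ℕ → G := fun n => [a, b, L, R, a', t].getD n 1
    have H := G3_hom P (FreeGroup.lift f)
    refine ⟨_, G3_memA (T := T) (by
      unfold lawA; exact Finset.mem_insert_of_mem (Finset.mem_insert_of_mem
        (Finset.mem_insert_of_mem (Finset.mem_insert_of_mem (Finset.mem_insert_self _ _))))),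
      FreeGroup.lift f, ?_, ?_⟩
    · simp only [G3_ev, H.nd, H.zip, H.O, H.Z, H.c2, G3_lift]; rfl
    · simp only [G3_ev, H.nd, H.zip, H.O, H.Z, H.st, H.init, G3_lift]; rfl
  | sim N q z v t s hq =>
    let f : ℕ → G := fun n => if h : 5 ≤ n ∧ n - 5 < T.K then v ⟨n - 5, h.2⟩
      else [a, b, N, t, s].getD n 1
    have hf : ∀ j : Fin T.K, f (5 + j) = v j := by
      intro j
      have h5 : 5 ≤ 5 + (j : ℕ) ∧ 5 + (j : ℕ) - 5 < T.K := ⟨by omega, by omega⟩
      show (if h : 5 ≤ 5 + (j : ℕ) ∧ 5 + (j : ℕ) - 5 < T.K then v ⟨5 + (j : ℕ) - 5, h.2⟩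
        else [a, b, N, t, s].getD (5 + j) 1) = v j
      rw [dif_pos h5]
      congr 1
      apply Fin.ext
      show 5 + (j : ℕ) - 5 = j
      omega
    have hs : ∀ n : ℕ, n < 5 → f n = [a, b, N, t, s].getD n 1 := by
      intro n hn
      exact dif_neg (by omega)
    have H := G3_hom P (FreeGroup.lift f)
    refine ⟨_, G3_memS (q, z), FreeGroup.lift f, ?_, ?_⟩
    · unfold lawS
      simp only [hq, if_true]
      simp only [G3_ev, H.nd, H.O, H.Z, H.st, H.sc, H.lhs, G3_lift, hf]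
      rw [hs 0 (by omega), hs 1 (by omega), hs 2 (by omega), hs 3 (by omega), hs 4 (by omega)]
      rfl
    · unfold lawS
      simp only [hq, if_true]
      simp only [G3_ev, H.nd, H.O, H.Z, H.st, H.sc, H.rhs, G3_lift, hf]
      rw [hs 0 (by omega), hs 1 (by omega), hs 2 (by omega), hs 3 (by omega), hs 4 (by omega)]
      rfl
  | rst N t x =>
    let f : ℕ → G := fun n => [a, b, N, t, x].getD n 1
    have H := G3_hom P (FreeGroup.lift f)
    refine ⟨_, G3_memA (T := T) (by
      unfold lawA; exact Finset.mem_insert_of_mem (Finset.mem_insert_of_mem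
        (Finset.mem_insert_of_mem (Finset.mem_insert_of_mem (Finset.mem_insert_of_mem
          (Finset.mem_singleton_self _)))))),
      FreeGroup.lift f, ?_, ?_⟩
    · simp only [G3_ev, H.nd, H.O, H.Z, H.st, G3_lift]; rfl
    · simp only [G3_ev, H.nd, H.O, H.Z, H.c1, G3_lift]; rfl

/-- PV-G3b.  Every killed instance is an instance of a law. -/
theorem law_of_RK {a b Y : G} (h : (ops P a b).RK T Y) :
    ∃ p ∈ lawSet P T d, ∃ φ : FreeGroup ℕ →* G, φ p.1 = Wt P a b Y ∧ φ p.2 = 1 := by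
  cases h with
  | nk N D hN =>
    cases hN with
    | kill y L a' R b' =>
      let f : ℕ → G := fun n => [a, b, y, L, a', R, b', D].getD n 1
      have H := G3_hom P (FreeGroup.lift f)
      refine ⟨_, G3_memK, FreeGroup.lift f, ?_, ?_⟩
      · unfold lawK
        simp only [G3_ev, H.nd, H.zip, H.O, G3_lift]; rfl
      · unfold lawK
        exact map_one _
  | dk N D hD =>
    cases hD with
    | halt q hq r t s =>
      let f : ℕ → G := fun n => [a, b, N, t, s, r].getD n 1
      have H := G3_hom P (FreeGroup.lift f)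
      refine ⟨_, G3_memH q, FreeGroup.lift f, ?_, ?_⟩
      · unfold lawH
        rw [if_pos hq]
        simp only [G3_ev, H.nd, H.st, H.num, H.O, G3_lift]; rfl
      · unfold lawH
        rw [if_pos hq]
        exact map_one _

/-- PV-G3c.  Every instance of a law is a rule instance, a killed instance, a bad frame or trivial.
PROOF. Unfold `lawSet`, cases; `a = φ (X 0)`, `b = φ (X 1)`; `map_Wt`, `Ops.Hom.*`; for the pairs `(1, 1)`
the last alternative. -/
theorem law_cases {p : FreeGroup ℕ × FreeGroup ℕ} (hp : p ∈ lawSet P T d) (φ : FreeGroup ℕ →* G) :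
    (∃ a b Y Y', (ops P a b).RS T cmG Y Y' ∧ φ p.1 = Wt P a b Y ∧ φ p.2 = Wt P a b Y') ∨
    (∃ a b Y, (ops P a b).RK T Y ∧ φ p.1 = Wt P a b Y ∧ φ p.2 = 1) ∨
    (∃ (a : G) (j : ℕ) (z : G), φ p.1 = Wt P a (a ^ j) z ∧ φ p.2 = 1) ∨
    (φ p.1 = 1 ∧ φ p.2 = 1) := by
  have H := G3_hom P φ
  unfold lawSet at hp
  simp only [Finset.mem_union] at hp
  rcases hp with (((hp | hp) | hp) | hp) | hp
  · left
    refine ⟨φ (X 0), φ (X 1), ?_⟩
    unfold lawA at hp
    simp only [Finset.mem_insert, Finset.mem_singleton] at hp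
    rcases hp with rfl | rfl | rfl | rfl | rfl | rfl
    · refine ⟨_, _, Ops.RS.nm _ _ (φ (X 7)) (Ops.NS.shift (φ (X 2)) (φ (X 3)) (φ (X 4)) (φ (X 5))
        (φ (X 6))), ?_, ?_⟩ <;> simp only [G3_ev, H.nd, H.zip, H.O]
    · refine ⟨_, _, Ops.RS.nm _ _ (φ (X 7)) (Ops.NS.swap (φ (X 2)) (φ (X 8)) (φ (X 3)) (φ (X 4))
        (φ (X 5)) (φ (X 6))), ?_, ?_⟩ <;> simp only [G3_ev, H.nd, H.zip, H.O]
    · refine ⟨_, _, Ops.RS.nm _ _ (φ (X 7)) (Ops.NS.comm (φ (X 2))
        (φ (X 2 * (X 8 * X 9 * (X 8)⁻¹ * (X 9)⁻¹))) (φ (X 3)) (φ (X 4))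
        (φ (X 5)) (φ (X 6)) ⟨φ (X 8), φ (X 9), by simp only [map_mul, map_inv]⟩), ?_, ?_⟩ <;>
        simp only [G3_ev, H.nd, H.zip, H.O]
    · refine ⟨_, _, Ops.RS.v1 (φ (X 2)) (φ (X 3)) (φ (X 4)) (φ (X 5)), ?_, ?_⟩ <;>
        simp only [G3_ev, H.nd, H.zip, H.Z, H.c1, H.c2]
    · refine ⟨_, _, Ops.RS.v2 (φ (X 2)) (φ (X 4)) (φ (X 3)) (φ (X 5)), ?_, ?_⟩ <;>
        simp only [G3_ev, H.nd, H.zip, H.Z, H.c2, H.st, H.init]
    · refine ⟨_, _, Ops.RS.rst (φ (X 2)) (φ (X 3)) (φ (X 4)), ?_, ?_⟩ <;>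
        simp only [G3_ev, H.nd, H.O, H.Z, H.c1, H.st]
  · rw [Finset.mem_image] at hp
    obtain ⟨⟨q, z⟩, -, rfl⟩ := hp
    unfold lawS
    by_cases hq : T.halt q = false
    · left
      refine ⟨φ (X 0), φ (X 1), _, _, Ops.RS.sim (φ (X 2)) q z (fun j => φ (X (5 + j))) (φ (X 3))
        (φ (X 4)) hq, ?_, ?_⟩
      · simp only [hq, if_true]
        simp only [G3_ev, H.nd, H.O, H.st, H.sc, H.lhs]
      · simp only [hq, if_true]
        simp only [G3_ev, H.nd, H.O, H.st, H.sc, H.rhs]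
    · right; right; right
      simp only [if_neg hq, map_one, and_self]
  · rw [Finset.mem_singleton] at hp
    subst hp
    right; left
    refine ⟨φ (X 0), φ (X 1), _, Ops.RK.nk _ (φ (X 7)) (Ops.NK.kill (φ (X 2)) (φ (X 3)) (φ (X 4))
        (φ (X 5)) (φ (X 6))), ?_, ?_⟩
    · unfold lawK
      simp only [G3_ev, H.nd, H.zip, H.O]
    · unfold lawK
      exact map_one _
  · rw [Finset.mem_image] at hp
    obtain ⟨q, -, rfl⟩ := hp
    unfold lawH
    by_cases hq : T.halt q = true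
    · right; left
      refine ⟨φ (X 0), φ (X 1), _, Ops.RK.dk (φ (X 2)) _ (Ops.DK.halt q hq (φ (X 5)) (φ (X 3))
        (φ (X 4))), ?_, ?_⟩
      · simp only [hq, if_true]
        simp only [G3_ev, H.nd, H.O, H.st, H.num]
      · simp only [hq, if_true, map_one]
    · right; right; right
      simp only [if_neg hq, map_one, and_self]
  · rw [Finset.mem_image] at hp
    obtain ⟨j, -, rfl⟩ := hp
    right; right; left
    refine ⟨φ (X 0), j, φ (X 1), ?_, ?_⟩
    · unfold lawB
      rw [map_Wt, map_pow]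
    · unfold lawB
      exact map_one _

end Pool.Agent.helper24.PV
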