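import Pool.Agent.helper24.PV.GDefs
/-! PV-G4: the criterion for membership in the verbal subgroup. -/
set_option autoImplicit false
namespace Pool.Agent.helper24.PV
open Pool.Agent.helper4.PV Pool.Agent.helper50.BW Pool.Agent.helper47.PV
variable {P : Par} {T : RM} {d : ℕ}

private theorem G4_pow_mem (g : FreeGroup ℕ) : g ^ d ∈ Fd d :=
  Subgroup.subset_closure ⟨g, rfl⟩

/-- PV-G4a.  `Vb ≤ Fd`. PROOF. All laws are products of `d`-th powers and their inverses and conjugates;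
`Fd` is normal and fully invariant (`f (x ^ d) = f x ^ d`). `x^(d*d) = (x^d)^d`. -/
theorem Vb_le_Fd : Vb P T d ≤ Fd d := by
  change Subgroup.closure (lawVals (Laws P T d) ℕ) ≤ Fd d
  rw [Subgroup.closure_le]
  rintro _ ⟨w, hw, f, rfl⟩
  change f w ∈ Fd d
  unfold Laws at hw
  rw [Finset.mem_union, Finset.mem_insert, Finset.mem_singleton, Finset.mem_image] at hw
  rcases hw with (rfl | rfl) | ⟨p, -, rfl⟩
  · rw [map_mul, map_mul, map_mul, map_inv, map_inv, map_pow, mul_assoc, mul_assoc, ← mul_assoc (f (X 1))]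
    exact mul_mem (G4_pow_mem _) ((Fd_normal d).conj_mem _ (inv_mem (G4_pow_mem _)) _)
  · rw [map_pow, pow_mul]
    exact G4_pow_mem _
  · rw [map_mul, map_inv, map_pow, map_pow]
    exact mul_mem (G4_pow_mem _) (inv_mem (G4_pow_mem _))

private theorem G4_two (g f : FreeGroup ℕ) :
    ∃ φ : FreeGroup ℕ →* FreeGroup ℕ, φ (X 0) = g ∧ φ (X 1) = f :=
  ⟨FreeGroup.lift fun i => if i = 0 then g else f, by simp [X], by simp [X]⟩

private theorem G4_law1 (g f : FreeGroup ℕ) : g ^ d * f * (g ^ d)⁻¹ * f⁻¹ ∈ Vb P T d := by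
  obtain ⟨φ, h0, h1⟩ := G4_two g f
  have h := VV_law (Laws P T d) (w := X 0 ^ d * X 1 * (X 0 ^ d)⁻¹ * (X 1)⁻¹)
    (Finset.mem_union_left _ (Finset.mem_insert_self _ _)) φ
  rw [map_mul, map_mul, map_mul, map_inv, map_inv, map_pow, h0, h1] at h
  exact h

private theorem G4_law2 (g : FreeGroup ℕ) : (g ^ d) ^ d ∈ Vb P T d := by
  obtain ⟨φ, h0, -⟩ := G4_two g g
  have h := VV_law (Laws P T d) (w := X 0 ^ (d * d))
    (Finset.mem_union_left _ (Finset.mem_insert_of_mem (Finset.mem_singleton_self _))) φ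
  rw [map_pow, h0, pow_mul] at h
  exact h

private theorem G4_center {z : FreeGroup ℕ} (hz : z ∈ Fd d) :
    (QuotientGroup.mk' (Vb P T d)) z ∈ Subgroup.center (FreeGroup ℕ ⧸ Vb P T d) := by
  have h : Fd d ≤ (Subgroup.center (FreeGroup ℕ ⧸ Vb P T d)).comap (QuotientGroup.mk' (Vb P T d)) := by
    unfold Fd
    rw [Subgroup.closure_le]
    rintro _ ⟨g, rfl⟩
    change (QuotientGroup.mk' (Vb P T d)) (g ^ d) ∈ Subgroup.center _
    rw [Subgroup.mem_center_iff]
    intro q
    obtain ⟨f, rfl⟩ := QuotientGroup.mk'_surjective (Vb P T d) q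
    have h1 : (QuotientGroup.mk' (Vb P T d)) (g ^ d * f * (g ^ d)⁻¹ * f⁻¹) = 1 :=
      (QuotientGroup.eq_one_iff _).2 (G4_law1 g f)
    rw [map_mul, map_mul, map_mul, map_inv, map_inv, mul_inv_eq_one, mul_inv_eq_iff_eq_mul] at h1
    exact h1.symm
  exact h hz

private theorem G4_pow {z : FreeGroup ℕ} (hz : z ∈ Fd d) :
    ((QuotientGroup.mk' (Vb P T d)) z) ^ d = 1 := by
  unfold Fd at hz
  induction hz using Subgroup.closure_induction with
  | mem x hx =>
    obtain ⟨g, rfl⟩ := hx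
    rw [← map_pow]
    exact (QuotientGroup.eq_one_iff _).2 (G4_law2 g)
  | one => rw [map_one, one_pow]
  | mul x y hx hy ihx ihy =>
    have hc : Commute ((QuotientGroup.mk' (Vb P T d)) x) ((QuotientGroup.mk' (Vb P T d)) y) :=
      (Subgroup.mem_center_iff.1 (G4_center (P := P) (T := T) hx) _).symm
    rw [map_mul, hc.mul_pow, ihx, ihy, one_mul]
  | inv x hx ih => rw [map_inv, inv_pow, ih, inv_one]

/-- PV-G4b.  `Fd` is central modulo `Vb` and of exponent `d`.
PROOF. The laws `[x^d, y]`, `x^(d*d)`; closure induction for `Fd` (products of `d`-th powers; first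
centrality, then `(z z')^d ≡ z^d z'^d`). -/
theorem Fd_central {z f : FreeGroup ℕ} (hz : z ∈ Fd d) :
    z * f * z⁻¹ * f⁻¹ ∈ Vb P T d ∧ z ^ d ∈ Vb P T d := by
  constructor
  · have h := Subgroup.mem_center_iff.1 (G4_center (P := P) (T := T) hz) ((QuotientGroup.mk' (Vb P T d)) f)
    apply (QuotientGroup.eq_one_iff _).1
    change (QuotientGroup.mk' (Vb P T d)) (z * f * z⁻¹ * f⁻¹) = 1
    rw [map_mul, map_mul, map_mul, map_inv, map_inv, ← h, mul_inv_cancel_right, mul_inv_cancel]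
  · apply (QuotientGroup.eq_one_iff _).1
    change (QuotientGroup.mk' (Vb P T d)) (z ^ d) = 1
    rw [map_pow]
    exact G4_pow hz

/-- product of powers of `d`-th powers -/
def pr (d : ℕ) (c : List (FreeGroup ℕ × ℤ)) : FreeGroup ℕ := (c.map fun p => (p.1 ^ d) ^ p.2).prod

/-- PV-G4c. PROOF. Closure induction (`Fd` is generated by the `d`-th powers). -/
theorem exists_pr {w : FreeGroup ℕ} (hw : w ∈ Fd d) : ∃ c, w = pr d c := by
  unfold Fd at hw
  induction hw using Subgroup.closure_induction with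
  | mem x hx =>
    obtain ⟨g, rfl⟩ := hx
    exact ⟨[(g, 1)], by simp [pr]⟩
  | one => exact ⟨[], rfl⟩
  | mul x y _ _ ihx ihy =>
    obtain ⟨c, rfl⟩ := ihx
    obtain ⟨c', rfl⟩ := ihy
    exact ⟨c ++ c', by simp [pr]⟩
  | inv x _ ih =>
    obtain ⟨c, rfl⟩ := ih
    refine ⟨(c.map fun p => (p.1, -p.2)).reverse, ?_⟩
    unfold pr
    rw [List.prod_inv_reverse, List.map_reverse, List.map_map, List.map_map]
    congr 2
    apply List.map_congr_left
    intro p _
    simp

theorem pr_mem (c : List (FreeGroup ℕ × ℤ)) : pr d c ∈ Fd d := by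
  unfold pr
  apply list_prod_mem
  intro x hx
  obtain ⟨p, -, rfl⟩ := List.mem_map.1 hx
  exact zpow_mem (G4_pow_mem _) _

private theorem G4_dual' {d : ℕ} [Fact d.Prime] {M : Type} [AddCommGroup M] [Module (ZMod d) M]
    {v : M} (hv : v ≠ 0) : ∃ θ : M →+ ZMod d, θ v ≠ 0 := by
  by_contra hcon
  push Not at hcon
  exact hv ((Module.forall_dual_apply_eq_zero_iff (ZMod d) v).1 fun φ => hcon φ.toAddMonoidHom)

private theorem G4_dual {d : ℕ} (hd : d.Prime) {Q : Type} [Group Q] (K : Subgroup Q)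
    (hc : ∀ x ∈ K, ∀ y ∈ K, x * y = y * x) (hp : ∀ x ∈ K, x ^ d = 1) {w : Q} (hw : w ∈ K)
    (hne : w ≠ 1) : ∃ θ : Q → ZMod d, (∀ x ∈ K, ∀ y ∈ K, θ (x * y) = θ x + θ y) ∧ θ 1 = 0 ∧
      θ w ≠ 0 := by
  classical
  have : Fact d.Prime := ⟨hd⟩
  letI : CommGroup K := { (inferInstance : Group K) with
    mul_comm := fun a b => Subtype.ext (hc a a.2 b b.2) }
  letI : Module (ZMod d) (Additive K) := AddCommGroup.zmodModule (n := d) (by
    intro x
    have hx : (Additive.toMul x) ^ d = 1 := Subtype.ext (hp _ (Additive.toMul x).2)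
    exact congrArg Additive.ofMul hx)
  have hne' : (Additive.ofMul (⟨w, hw⟩ : K)) ≠ 0 := by
    intro h
    have h1 : (⟨w, hw⟩ : K) = 1 := congrArg Additive.toMul h
    exact hne (congrArg Subtype.val h1)
  obtain ⟨φ, hφ⟩ := G4_dual' (d := d) hne'
  refine ⟨fun x => if h : x ∈ K then φ (Additive.ofMul (⟨x, h⟩ : K)) else 0, ?_, ?_, ?_⟩
  · intro x hx y hy
    have hxy : x * y ∈ K := mul_mem hx hy
    simp only [dif_pos hx, dif_pos hy, dif_pos hxy]
    rw [← map_add]
    rfl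
  · simp only [dif_pos K.one_mem]
    exact map_zero φ
  · simp only [dif_pos hw]
    exact hφ

/-- PV-G4d.  Functionals: an element of `Fd` outside of `Vb` is detected by a homomorphism.
PROOF. `Fd / (Vb ∩ Fd)` is an abelian group of exponent `d` (G4b), hence a vector space over `ZMod d`
(`AddCommGroup.zmodModule`, `Additive`), and a nonzero vector has a functional which is not `0` on it
(`Module.exists_dual_...`, `exists_linearMap_..`; `Basis`/`Submodule.exists_le_ker_of_lt_top`...).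
It is enough to produce a function `θ : FreeGroup ℕ → ZMod d` additive on `Fd`, zero on `Vb`,
`θ w ≠ 0`. -/
theorem exists_functional (hd : d.Prime) {w : FreeGroup ℕ} (hw : w ∈ Fd d) (hw' : w ∉ Vb P T d) :
    ∃ θ : FreeGroup ℕ → ZMod d, (∀ x ∈ Fd d, ∀ y ∈ Fd d, θ (x * y) = θ x + θ y) ∧
      (∀ x ∈ Vb P T d, θ x = 0) ∧ θ w ≠ 0 := by
  have hK : ∀ x ∈ (Fd d).map (QuotientGroup.mk' (Vb P T d)), ∃ z ∈ Fd d,
      (QuotientGroup.mk' (Vb P T d)) z = x := fun x hx => hx
  obtain ⟨θ, h1, h2, h3⟩ := G4_dual hd ((Fd d).map (QuotientGroup.mk' (Vb P T d)))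
    (by
      intro x hx y _
      obtain ⟨z, hz, rfl⟩ := hK x hx
      exact (Subgroup.mem_center_iff.1 (G4_center hz) y).symm)
    (by
      intro x hx
      obtain ⟨z, hz, rfl⟩ := hK x hx
      exact G4_pow hz)
    (Subgroup.mem_map_of_mem _ hw) (fun h => hw' ((QuotientGroup.eq_one_iff _).1 h))
  refine ⟨fun x => θ ((QuotientGroup.mk' (Vb P T d)) x), ?_, ?_, h3⟩
  · intro x hx y hy
    simp only [map_mul]
    exact h1 _ (Subgroup.mem_map_of_mem _ hx) _ (Subgroup.mem_map_of_mem _ hy)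
  · intro x hx
    have : (QuotientGroup.mk' (Vb P T d)) x = 1 := (QuotientGroup.eq_one_iff _).2 hx
    simp only [this]
    exact h2

end Pool.Agent.helper24.PV
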