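import Pool.Agent.helper24.PV.G1
import Pool.Agent.helper24.PV.G3d
/-! PV-G5: admissible functions that separate normal forms. -/
set_option autoImplicit false
namespace Pool.Agent.helper24.PV
open Pool.Agent.helper4.PV Pool.Agent.helper50.BW Pool.Agent.helper47.PV
variable {P : Par} {T : RM} {d : ℕ}

/-- nondegenerate triples are closed under conjugation -/
theorem G5a_Nd {G : Type} [Group G] {a y z : G} (g : G) (h : Nd a y z) :
    Nd (g * a * g⁻¹) (g * y * g⁻¹) (g * z * g⁻¹) := by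
  have key : ∀ u v : G, Commute (g * u * g⁻¹) (g * v * g⁻¹) → Commute u v := by
    intro u v h1
    have h2 : g * (u * v) * g⁻¹ = g * (v * u) * g⁻¹ := by
      calc g * (u * v) * g⁻¹ = g * u * g⁻¹ * (g * v * g⁻¹) := by group
        _ = g * v * g⁻¹ * (g * u * g⁻¹) := h1
        _ = _ := by group
    exact mul_left_cancel (mul_right_cancel h2)
  refine ⟨fun h1 => h.1 ?_, fun h1 => h.2 ⟨key _ _ h1.1, key _ _ h1.2⟩⟩
  have h2 : a = g⁻¹ * (g * a * g⁻¹) * g := by group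
  rw [h2, h1]
  group

/-- PV-G5a.  Isolated elements.
PROOF. `μ y := k` if `y = g * x ^ k * g⁻¹` for some `g`, `k`, otherwise `0`; well-defined by `pow_conj_self`.
`conj` clear.  `pow`: if `y = g x^k g⁻¹` then `y^l = g x^(kl) g⁻¹`; if `y` is not conjugate to a power of `x`
but `y^l` is, then `d ∣ l` or `y` is a power of `y^l`: contradiction; if `d ∣ l` then `y^l = 1 = x^0`,
`μ = 0 = l * μ y`.  Rules: by `adm_of` it is enough that `μ (Wt P a b z) = 0` for all `a b z`: if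
`Wt P a b z = g x^k g⁻¹` and it is not `1` then `Nd a b z` (G1a) and `x ^ k = Wt ..` conjugate, so `IsWt x`
(definition): contradiction; if it is `1` then `x^k = 1`, `d ∣ k` (order `d`). -/
theorem sep_iso (hd : d.Prime) {x : BB d} (hx : x ≠ 1) (h : ¬ IsWt P d x) :
    ∃ μ, Adm P T d μ ∧ μ x = 1 ∧ (∀ y, (¬ ∃ (g : BB d) (k : ℕ), y = g * x ^ k * g⁻¹) → μ y = 0) := by
  classical
  obtain ⟨μ, hμ0, hμ1⟩ : ∃ μ : BB d → ZMod d,
      (∀ (g : BB d) (k : ℕ), μ (g * x ^ k * g⁻¹) = k) ∧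
      (∀ y, (¬ ∃ (g : BB d) (k : ℕ), y = g * x ^ k * g⁻¹) → μ y = 0) := by
    refine ⟨fun y => if hy : ∃ (k : ℕ) (g : BB d), y = g * x ^ k * g⁻¹ then (hy.choose : ZMod d) else 0,
      ?_, ?_⟩
    · intro g k
      have hy : ∃ (k' : ℕ) (g' : BB d), g * x ^ k * g⁻¹ = g' * x ^ k' * g'⁻¹ := ⟨k, g, rfl⟩
      dsimp only
      rw [dif_pos hy]
      obtain ⟨g', hg'⟩ := hy.choose_spec
      refine pow_conj_self hd hx (g := g'⁻¹ * g) ?_
      calc x ^ hy.choose = g'⁻¹ * (g' * x ^ hy.choose * g'⁻¹) * g' := by group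
        _ = g'⁻¹ * (g * x ^ k * g⁻¹) * g' := by rw [← hg']
        _ = _ := by group
    · intro y hy
      dsimp only
      rw [dif_neg]
      rintro ⟨k, g, e⟩
      exact hy ⟨g, k, e⟩
  have h1 : μ 1 = 0 := by
    have := hμ0 1 0
    simpa using this
  have hc : ∀ g y, μ (g * y * g⁻¹) = μ y := by
    intro g y
    by_cases hy : ∃ (g' : BB d) (k : ℕ), y = g' * x ^ k * g'⁻¹
    · obtain ⟨g', k, rfl⟩ := hy
      have e : g * (g' * x ^ k * g'⁻¹) * g⁻¹ = (g * g') * x ^ k * (g * g')⁻¹ := by group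
      rw [e, hμ0, hμ0]
    · rw [hμ1 y hy, hμ1]
      rintro ⟨g', k, e⟩
      apply hy
      refine ⟨g⁻¹ * g', k, ?_⟩
      calc y = g⁻¹ * (g * y * g⁻¹) * g := by group
        _ = g⁻¹ * (g' * x ^ k * g'⁻¹) * g := by rw [e]
        _ = _ := by group
  have hp : ∀ y (l : ℕ), μ (y ^ l) = l * μ y := by
    intro y l
    by_cases hy : ∃ (g' : BB d) (k : ℕ), y = g' * x ^ k * g'⁻¹
    · obtain ⟨g', k, rfl⟩ := hy
      rw [conj_pow, ← pow_mul, hμ0, hμ0]
      push_cast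
      ring
    · rw [hμ1 y hy, mul_zero]
      by_cases hl : d ∣ l
      · obtain ⟨t, rfl⟩ := hl
        rw [pow_mul, BB_pow, one_pow, h1]
      · apply hμ1
        rintro ⟨g', k, e⟩
        obtain ⟨l', hl'⟩ := G1_inv hd hl
        apply hy
        refine ⟨g', k * l', ?_⟩
        have e2 : y ^ (l * l') = y := G1_pow_one (by push_cast; exact hl')
        rw [pow_mul, ← conj_pow, ← e, ← pow_mul, e2]
  have hW : ∀ a b z : BB d, μ (Wt P a b z) = 0 := by
    intro a b z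
    by_cases hW1 : Wt P a b z = 1
    · rw [hW1, h1]
    · have hN : Nd a b z := by
        by_contra hN
        exact hW1 (Pool.Agent.helper24.PV.Wt_of_not_Nd P hN)
      apply hμ1
      rintro ⟨g, k, e⟩
      apply h
      refine ⟨k, g⁻¹ * a * g⁻¹⁻¹, g⁻¹ * b * g⁻¹⁻¹, g⁻¹ * z * g⁻¹⁻¹, G5a_Nd g⁻¹ hN, ?_⟩
      rw [← conj_Wt, e]
      group
  refine ⟨μ, adm_of hc hp (fun a j z => hW _ _ _) (fun a b Y Y' _ => by rw [hW, hW])
    (fun a b Y _ => hW _ _ _), ?_, hμ1⟩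
  have := hμ0 1 1
  simpa using this

end Pool.Agent.helper24.PV
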