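import Pool.Agent.helper24.PV.G5a
import Pool.Agent.helper24.PV.G5b
import Pool.Agent.helper24.PV.G2
import Pool.Agent.helper24.PV.G3d
import Pool.Agent.helper24.PV.C2
/-! PV-G5: admissible functions that separate normal forms. -/
set_option autoImplicit false
namespace Pool.Agent.helper24.PV
open Pool.Agent.helper4.PV Pool.Agent.helper50.BW Pool.Agent.helper47.PV
variable {P : Par} {T : RM} {d : ℕ}

/-- PV-G5c.  Separation of normal forms.
PROOF. `NF x` iso: G5a; `y` a normal form with `¬ SameB x y` is not conjugate to a power of `x`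
(`SameB.iso`).  `x = Wt P a b Y`: `nrm_alive` (with `free_ops`, `abG_of_cm`), G5b.  Let `y` be a normal form,
`y = g * Wt P a b Y' ^ k * g⁻¹` with `REq Y Y'` (otherwise `μ y = 0`).  `y` iso: `y ≠ 1`, `isWt_of_eq`: contradiction.
`y = Wt P a' b' Y''`: `cfg_inj`: `k = 1`, `a' = h a h⁻¹`, `b' = h b h⁻¹`, `Y'' = h Y' h⁻¹`; by `nrm_conj` with `h⁻¹`
`Nrm Y'` for the frame `(a, b)`; `same_of_REq`: `Same Y Y'`, so `SameB x y` by `SameB.cfg` (with `conj_Wt`). -/
theorem sep (hG : Geo d P) (hd : d.Prime) {x : BB d} (hx : NF P T d x) :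
    ∃ μ, Adm P T d μ ∧ μ x = 1 ∧ ∀ y, NF P T d y → ¬ SameB P d x y → μ y = 0 := by
  cases hx with
  | iso _ h h' =>
    obtain ⟨μ, h1, h2, h3⟩ := sep_iso (P := P) (T := T) hd h h'
    refine ⟨μ, h1, h2, fun y _ hy => h3 y ?_⟩
    rintro ⟨g, k, rfl⟩
    exact hy (SameB.iso x g k)
  | cfg a b Y hab hY =>
    have hA : Free (ops P a b) := free_ops hG hd.two_le hab
    have hdead : ¬ (ops P a b).Dead T cmG Y := nrm_alive hA (fun y y' => abG_of_cm) hY
    obtain ⟨μ, h1, h2, h3⟩ := sep_cfg hG hd hab hdead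
    refine ⟨μ, h1, h2, fun y hy hxy => h3 y ?_⟩
    rintro ⟨g, Y', k, hR, he⟩
    cases hy with
    | iso _ h h' => exact h' (isWt_of_eq hd h (Nd_frame hab Y') he)
    | cfg a' b' Y'' hab' hY'' =>
      obtain ⟨-, t, rfl, rfl, rfl⟩ := cfg_inj hG hd.two_le hab hab' he
      have hN := nrm_conj P t⁻¹ _ _ hY''
      have e : ∀ z : BB d, t⁻¹ * (t * z * t⁻¹) * t⁻¹⁻¹ = z := fun z => by group
      rw [e a, e b, e Y'] at hN
      have hS : (ops P a b).Same abG Y Y' := same_of_REq hA (fun y y' => abG_of_cm) hY hN hR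
      have := SameB.cfg (P := P) (d := d) a b Y Y' t hS
      rw [conj_Wt] at this
      exact hxy this

/-- PV-G5d.  The same normal forms are proportional.
PROOF. `iso`: `conj`, `pow`.  `cfg`: `REq_of_same`, `adm_REq`, `conj`. -/
theorem same_prop {x y : BB d} (h : SameB P d x y) :
    ∃ m : ZMod d, ∀ μ, Adm P T d μ → μ y = m * μ x := by
  cases h with
  | iso _ g k => exact ⟨k, fun μ hμ => by rw [hμ.conj, hμ.pow]⟩
  | cfg a b Y Y' g h =>
    refine ⟨1, fun μ hμ => ?_⟩
    rw [hμ.conj, one_mul]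
    exact (adm_REq hμ (REq_of_same (fun y y' => eqvGen_of_ab) h)).symm

end Pool.Agent.helper24.PV
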