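import Pool.Agent.helper24.PV.Defs
import Pool.Agent.helper47.PV.ToolB
import Pool.Agent.helper47.PV.ToolV
/-! PV project (MP_c0bc55_al, S02951), block LAWS: definitions of the group part.

For a frame `a, b` in a group: `nd x y := Wt a (Wt a b x) y`, `Z := b`, `O := a`.  The configuration `Y`
is represented by the group element `Wt a b Y`.  `lawSet` is the finite set of pairs `(u, v)`; the
laws of the variety are `[x^d, y]`, `x^(d^2)` and `u^d = v^d`. -/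
set_option autoImplicit false
namespace Pool.Agent.helper24.PV
open Pool.Agent.helper4.PV Pool.Agent.helper50.BW Pool.Agent.helper47.PV

/-- the pairing operation of a frame `a`, `b` in a group -/
def ops (P : Par) {G : Type} [Group G] (a b : G) : Ops G := ⟨fun x y => Wt P a (Wt P a b x) y, b, a⟩

/-- names may be multiplied by commutators -/
def cmG {G : Type} [Group G] (y y' : G) : Prop := ∃ u v : G, y' = y * (u * v * u⁻¹ * v⁻¹)

/-- the class of a name -/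
def abG {G : Type} [Group G] : G → Abelianization G := Abelianization.of

/-- variables -/
abbrev X (i : ℕ) : FreeGroup ℕ := FreeGroup.of i

/-- the word of a configuration `Y` over the frame `x0, x1` -/
def cfW (P : Par) (Y : FreeGroup ℕ) : FreeGroup ℕ := Wt P (X 0) (X 1) Y

/-- the operations on words of the frame `x0, x1` -/
def o01 (P : Par) : Ops (FreeGroup ℕ) := ops P (X 0) (X 1)

/-- the laws of the six simple rules -/
def lawA (P : Par) (T : RM) : Finset (FreeGroup ℕ × FreeGroup ℕ) :=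
  let o := o01 P
  { -- shift
    (cfW P (o.nd (o.zip (o.nd (X 2) (X 3)) (o.nd o.O (X 4)) (X 5) (X 6)) (X 7)),
      cfW P (o.nd (o.zip (X 3) (X 4) (o.nd (X 2) (X 5)) (o.nd o.O (X 6))) (X 7))),
    -- swap
    (cfW P (o.nd (o.zip (o.nd (X 2) (X 3)) (o.nd o.O (X 4)) (o.nd (X 8) (X 5)) (o.nd o.O (X 6))) (X 7)),
      cfW P (o.nd (o.zip (o.nd (X 8) (X 3)) (o.nd o.O (X 4)) (o.nd (X 2) (X 5)) (o.nd o.O (X 6))) (X 7))),
    -- comm
    (cfW P (o.nd (o.zip (o.nd (X 2) (X 3)) (o.nd o.O (X 4)) (X 5) (X 6)) (X 7)),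
      cfW P (o.nd (o.zip (o.nd (X 2 * (X 8 * X 9 * (X 8)⁻¹ * (X 9)⁻¹)) (X 3)) (o.nd o.O (X 4)) (X 5) (X 6)) (X 7))),
    -- v1
    (cfW P (o.nd (o.zip (X 2) o.Z (X 3) (X 4)) (o.c1 (X 5))),
      cfW P (o.nd (o.zip (X 2) o.Z (X 3) (X 4)) (o.c2 (X 5)))),
    -- v2
    (cfW P (o.nd (o.zip (X 2) (X 4) (X 3) o.Z) (o.c2 (X 5))),
      cfW P (o.nd (o.zip (X 2) (X 4) (X 3) o.Z) (o.st (X 5) (X 5) (o.init T (X 4))))),
    -- rst
    (cfW P (o.nd (X 2) (o.st (X 3) o.Z (X 4))), cfW P (o.nd (X 2) (o.c1 (o.nd o.O (X 3))))) }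

/-- the law of a machine step -/
def lawS (P : Par) (T : RM) (i : Fin T.nQ × (Fin T.K → Bool)) : FreeGroup ℕ × FreeGroup ℕ :=
  let o := o01 P
  let v : Fin T.K → FreeGroup ℕ := fun j => X (5 + j)
  if T.halt i.1 = false then
    (cfW P (o.nd (X 2) (o.st (X 3) (o.nd o.O (X 4)) (o.sc T i.1 (o.lhs i.2 v)))),
      cfW P (o.nd (X 2) (o.st (X 3) (X 4) (o.sc T (T.nxt i.1 i.2) (fun j => o.rhs (T.upd i.1 j) i.2 v)))))
  else (1, 1)

/-- the kill law of two equal names -/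
def lawK (P : Par) : FreeGroup ℕ × FreeGroup ℕ :=
  let o := o01 P
  (cfW P (o.nd (o.zip (o.nd (X 2) (X 3)) (o.nd o.O (X 4)) (o.nd (X 2) (X 5)) (o.nd o.O (X 6))) (X 7)), 1)

/-- the kill law of a halting state -/
def lawH (P : Par) (T : RM) (q : Fin T.nQ) : FreeGroup ℕ × FreeGroup ℕ :=
  let o := o01 P
  if T.halt q = true then
    (cfW P (o.nd (X 2) (o.st (X 3) (o.nd o.O (X 4)) (o.nd (o.num q) (X 5)))), 1)
  else (1, 1)

/-- the kill laws of the bad frames -/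
def lawB (P : Par) (d : ℕ) (j : Fin d) : FreeGroup ℕ × FreeGroup ℕ :=
  (Wt P (X 0) (X 0 ^ (j : ℕ)) (X 1), 1)

/-- all pairs `(u, v)` -/
def lawSet (P : Par) (T : RM) (d : ℕ) : Finset (FreeGroup ℕ × FreeGroup ℕ) :=
  lawA P T ∪ Finset.univ.image (lawS P T) ∪ {lawK P} ∪ Finset.univ.image (lawH P T) ∪
    Finset.univ.image (lawB P d)

/-- the laws of the variety -/
def Laws (P : Par) (T : RM) (d : ℕ) : Finset (FreeGroup ℕ) :=
  {X 0 ^ d * X 1 * (X 0 ^ d)⁻¹ * (X 1)⁻¹, X 0 ^ (d * d)} ∪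
    (lawSet P T d).image fun p => p.1 ^ d * (p.2 ^ d)⁻¹

/-- the verbal subgroup of the free group of infinite rank -/
abbrev Vb (P : Par) (T : RM) (d : ℕ) : Subgroup (FreeGroup ℕ) := VV (Laws P T d) ℕ

/-- class functions on the free Burnside group that respect the laws -/
structure Adm (P : Par) (T : RM) (d : ℕ) (μ : BB d → ZMod d) : Prop where
  conj : ∀ g x, μ (g * x * g⁻¹) = μ x
  pow : ∀ x (k : ℕ), μ (x ^ k) = k * μ x
  law : ∀ p ∈ lawSet P T d, ∀ φ : FreeGroup ℕ →* BB d, μ (φ p.1) = μ (φ p.2)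

/-- some power of `x` is a test word -/
def IsWt (P : Par) (d : ℕ) (x : BB d) : Prop := ∃ (k : ℕ) (a y z : BB d), Nd a y z ∧ x ^ k = Wt P a y z

/-- normal forms in the free Burnside group -/
inductive NF (P : Par) (T : RM) (d : ℕ) : BB d → Prop
  | iso (x : BB d) (h : x ≠ 1) (h' : ¬ IsWt P d x) : NF P T d x
  | cfg (a b Y : BB d) (h : ¬ Commute a b) (hY : (ops P a b).Nrm T abG Y) : NF P T d (Wt P a b Y)

/-- two normal forms are the same -/
inductive SameB (P : Par) (d : ℕ) : BB d → BB d → Prop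
  | iso (x g : BB d) (k : ℕ) : SameB P d x (g * x ^ k * g⁻¹)
  | cfg (a b Y Y' g : BB d) (h : (ops P a b).Same abG Y Y') :
      SameB P d (Wt P a b Y) (g * Wt P a b Y' * g⁻¹)

/-- the elements of rank `n` -/
def Bn (n d : ℕ) : Subgroup (BB d) := Subgroup.closure {x | ∃ i < n, x = QuotientGroup.mk (X i)}

/-- homomorphisms of operations -/
structure Ops.Hom {M M' : Type} (A : Ops M) (A' : Ops M') (f : M → M') : Prop where
  nd : ∀ x y, f (A.nd x y) = A'.nd (f x) (f y)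
  Z : f A.Z = A'.Z
  O : f A.O = A'.O

/-! ### Words -/

/-- the operations on words -/
def opsW (P : Par) (a b : W) : Ops W := ⟨fun x y => wWt P a (wWt P a b x) y, b, a⟩

/-- Data of a normal form: kind, frame `(a, b)`, `(L0, a0)`, `(R0, b0)`, `(l1, l2)`, `D`. -/
abbrev Dt : Type := ℕ × (W × W) × (W × W) × (W × W) × (List W × List W) × W

namespace Dt
variable (P : Par) (t : Dt)
/-- kind: 0 = isolated, 1 = no pair, 2 = no zipper, 3 = zipper -/
def kind : ℕ := t.1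
def a : W := t.2.1.1
def b : W := t.2.1.2
def L0 : W := t.2.2.1.1
def a0 : W := t.2.2.1.2
def R0 : W := t.2.2.2.1.1
def b0 : W := t.2.2.2.1.2
def l1 : List W := t.2.2.2.2.1.1
def l2 : List W := t.2.2.2.2.1.2
def D : W := t.2.2.2.2.2
/-- the word of the zipper -/
def N : W := (opsW P t.a t.b).zip ((opsW P t.a t.b).enc t.l1 t.L0) ((opsW P t.a t.b).marks t.l1.length t.a0)
  ((opsW P t.a t.b).enc t.l2 t.R0) ((opsW P t.a t.b).marks t.l2.length t.b0)
/-- the word of the configuration -/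
def Y : W := if t.kind = 1 then t.D else if t.kind = 2 then (opsW P t.a t.b).nd t.L0 t.D
  else (opsW P t.a t.b).nd (t.N P) t.D
/-- the word of the element -/
def x : W := if t.kind = 0 then t.a else wWt P t.a t.b (t.Y P)
end Dt

/-- The data `t` describe a normal form.  `adv`: the allowed numbers of names of canonical states. -/
def NrmD (P : Par) (T : RM) (d : ℕ) (adv : Finset ℕ) (t : Dt) : Prop :=
  let o := ops P (wl d t.a) (wl d t.b)
  (t.kind = 0 ∧ ¬ Triv d t.a ∧ ¬ IsWt P d (wl d t.a)) ∨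
  (t.kind = 1 ∧ ¬ Commute (wl d t.a) (wl d t.b) ∧ ∀ x y, wl d t.D ≠ o.nd x y) ∨
  (t.kind = 2 ∧ ¬ Commute (wl d t.a) (wl d t.b) ∧ ¬ o.IsZip (wl d t.L0) ∧
    o.Stuck T False (fun _ => False) (wl d t.D)) ∨
  (t.kind = 3 ∧ ¬ Commute (wl d t.a) (wl d t.b) ∧ ¬ o.Pop (wl d t.L0) (wl d t.a0) ∧
    ¬ o.Pop (wl d t.R0) (wl d t.b0) ∧ ((t.l1 ++ t.l2).map fun y => abG (wl d y)).Nodup ∧
    (o.Stuck T (wl d t.a0 = o.Z)
        (fun a => wl d t.b0 = o.Z ∧ a = o.marks (t.l1 ++ t.l2).length (wl d t.a0)) (wl d t.D) ∨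
      (wl d t.a0 = o.Z ∧ wl d t.b0 = o.Z ∧ wl d t.D = o.c1 o.Z ∧ (t.l1 ++ t.l2).length ∈ adv)))

/-- The data `t`, `t'` describe the same normal form. -/
def SameD (d : ℕ) (t t' : Dt) : Prop :=
  (t.kind = 0 ∧ t'.kind = 0 ∧ ∃ (g : BB d) (k : ℕ), wl d t'.a = g * wl d t.a ^ k * g⁻¹) ∨
  (t.kind ≠ 0 ∧ t'.kind = t.kind ∧ ∃ g : BB d, wl d t'.a = g * wl d t.a * g⁻¹ ∧
    wl d t'.b = g * wl d t.b * g⁻¹ ∧ wl d t'.D = g * wl d t.D * g⁻¹ ∧
    (t.kind = 2 → wl d t'.L0 = g * wl d t.L0 * g⁻¹) ∧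
    (t.kind = 3 → wl d t'.L0 = g * wl d t.L0 * g⁻¹ ∧ wl d t'.a0 = g * wl d t.a0 * g⁻¹ ∧
      wl d t'.R0 = g * wl d t.R0 * g⁻¹ ∧ wl d t'.b0 = g * wl d t.b0 * g⁻¹ ∧
      ((t'.l1 ++ t'.l2).map fun y => abG (wl d y)).Perm ((t.l1 ++ t.l2).map fun y => abG (wl d y))))

end Pool.Agent.helper24.PV
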