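import Pool.Agent.helper24.PV.Defs
/-! PV-N1: windows exist and are unique.

author: helper6 -/
set_option autoImplicit false
namespace Pool.Agent.helper24.PV
variable {M V : Type} {A : Ops M}

private lemma exists_dec {sz : M → ℕ} (h2 : ∀ x y, sz y < sz (A.nd x y)) (n : ℕ) :
    ∀ L a : M, sz L ≤ n → ∃ (l : List M) (L0 a0 : M), L = A.enc l L0 ∧
      a = A.marks l.length a0 ∧ ¬ A.Pop L0 a0 := by
  induction n with
  | zero =>
    intro L a hL
    refine ⟨[], L, a, rfl, rfl, ?_⟩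
    rintro ⟨⟨y, L', rfl⟩, -⟩
    have := h2 y L'
    omega
  | succ n ih =>
    intro L a hL
    by_cases hp : A.Pop L a
    · obtain ⟨⟨y, L', rfl⟩, a', rfl⟩ := hp
      have := h2 y L'
      obtain ⟨l, L0, a0, rfl, rfl, h0⟩ := ih L' a' (by omega)
      exact ⟨y :: l, L0, a0, rfl, rfl, h0⟩
    · exact ⟨[], L, a, rfl, rfl, hp⟩

/-- PV-N1a.  Every zipper has a window.
PROOF. `N = zip L a R b`.  Claim: for all `L a` there are `l L0 a0` with `L = enc l L0`,
`a = marks l.length a0`, `¬ Pop L0 a0` (strong induction on `sz L`, `sz` from `hA.sz`): if `¬ Pop L a`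
take `l = []`; otherwise `L = nd y L'`, `a = nd O a'`, apply the induction hypothesis to `L', a'` and
take `y :: l`.  Apply the claim to `L, a` and to `R, b`. -/
theorem exists_win (hA : Free A) (ab : M → V) {N : M} (h : A.IsZip N) : ∃ W, A.HasWin ab N W := by
  obtain ⟨L, a, R, b, rfl⟩ := h
  obtain ⟨sz, -, h2⟩ := hA.sz
  obtain ⟨l1, L0, a0, rfl, rfl, hp1⟩ := exists_dec h2 (sz L) L a le_rfl
  obtain ⟨l2, R0, b0, rfl, rfl, hp2⟩ := exists_dec h2 (sz R) R b le_rfl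
  exact ⟨⟨L0, a0, R0, b0, ((l1 ++ l2).map ab : List V)⟩, l1, l2, rfl, hp1, hp2, rfl⟩

private lemma dec_unique (hA : Free A) (l : List M) : ∀ (l' : List M) (L0 L0' a0 a0' : M),
    A.enc l L0 = A.enc l' L0' → A.marks l.length a0 = A.marks l'.length a0' →
      ¬ A.Pop L0 a0 → ¬ A.Pop L0' a0' → l = l' ∧ L0 = L0' ∧ a0 = a0' := by
  induction l with
  | nil =>
    intro l' L0 L0' a0 a0' h1 h2 h3 h4
    cases l' with
    | nil => exact ⟨rfl, h1, h2⟩
    | cons y l' => exact absurd ⟨⟨y, _, h1⟩, _, h2⟩ h3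
  | cons y l ih =>
    intro l' L0 L0' a0 a0' h1 h2 h3 h4
    cases l' with
    | nil => exact absurd ⟨⟨y, _, h1.symm⟩, _, h2.symm⟩ h4
    | cons y' l' =>
      obtain ⟨e1, e2⟩ := hA.inj (show A.nd y (A.enc l L0) = A.nd y' (A.enc l' L0') from h1)
      obtain ⟨-, e3⟩ := hA.inj (show A.nd A.O (A.marks l.length a0) =
        A.nd A.O (A.marks l'.length a0') from h2)
      obtain ⟨rfl, rfl, rfl⟩ := ih l' L0 L0' a0 a0' e2 e3 h3 h4
      exact ⟨by rw [e1], rfl, rfl⟩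

/-- PV-N1b.  The window is unique.
PROOF. By `hA.inj` the four components `enc l1 L0`, `marks l1.length a0`, ... are determined.  Lemma:
if `enc l L0 = enc l' L0'`, `marks l.length a0 = marks l'.length a0'`, `¬ Pop L0 a0`, `¬ Pop L0' a0'`
then `l = l'`, `L0 = L0'`, `a0 = a0'`: induction on `l` for all `l'`: both nonempty: `hA.inj` and the
induction hypothesis; exactly one empty: contradicts the `¬ Pop` of the side with the empty list. -/
theorem win_unique (hA : Free A) {ab : M → V} {N : M} {W W' : Win M V} (h : A.HasWin ab N W)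
    (h' : A.HasWin ab N W') : W = W' := by
  obtain ⟨L0, a0, R0, b0, S⟩ := W
  obtain ⟨L0', a0', R0', b0', S'⟩ := W'
  obtain ⟨l1, l2, e, hp1, hp2, hS⟩ := h
  obtain ⟨l1', l2', e', hp1', hp2', hS'⟩ := h'
  simp only at e e' hp1 hp2 hp1' hp2' hS hS'
  rw [e] at e'
  obtain ⟨h1, h2⟩ := hA.inj e'
  obtain ⟨h3, h4⟩ := hA.inj h1
  obtain ⟨h5, h6⟩ := hA.inj h2
  obtain ⟨rfl, rfl, rfl⟩ := dec_unique hA l1 l1' L0 L0' a0 a0' h3 h4 hp1 hp1'
  obtain ⟨rfl, rfl, rfl⟩ := dec_unique hA l2 l2' R0 R0' b0 b0' h5 h6 hp2 hp2'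
  rw [hS, hS']

end Pool.Agent.helper24.PV
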