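import Pool.Agent.helper24.PV.Defs
/-! PV-N2: names moves preserve the window.  (author: helper74) -/
set_option autoImplicit false
namespace Pool.Agent.helper24.PV
variable {M V : Type} {A : Ops M}

private theorem N2_zip_inj (hA : Free A) {L a R b L' a' R' b' : M}
    (h : A.zip L a R b = A.zip L' a' R' b') : L = L' ∧ a = a' ∧ R = R' ∧ b = b' := by
  obtain ⟨h1, h2⟩ := hA.inj h
  obtain ⟨h3, h4⟩ := hA.inj h1
  obtain ⟨h5, h6⟩ := hA.inj h2
  exact ⟨h3, h4, h5, h6⟩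

private theorem N2_split (hA : Free A) {y L L0 a a0 : M} {l : List M}
    (h1 : A.nd y L = A.enc l L0) (h2 : A.nd A.O a = A.marks l.length a0) (hp : ¬ A.Pop L0 a0) :
    ∃ l', l = y :: l' ∧ L = A.enc l' L0 ∧ a = A.marks l'.length a0 := by
  cases l with
  | nil => exact absurd ⟨⟨y, L, h1.symm⟩, ⟨a, h2.symm⟩⟩ hp
  | cons x l' =>
    obtain ⟨h3, h4⟩ := hA.inj (h1 : A.nd y L = A.nd x (A.enc l' L0))
    obtain ⟨-, h5⟩ := hA.inj (h2 : A.nd A.O a = A.nd A.O (A.marks l'.length a0))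
    exact ⟨l', by rw [h3], h4, h5⟩

private theorem N2_fwd (hA : Free A) {ab : M → V} {y L a R b : M} {W : Win M V}
    (h : A.HasWin ab (A.zip (A.nd y L) (A.nd A.O a) R b) W) :
    A.HasWin ab (A.zip L a (A.nd y R) (A.nd A.O b)) W := by
  obtain ⟨l1, l2, hN, hp1, hp2, hS⟩ := h
  obtain ⟨h1, h2, h3, h4⟩ := N2_zip_inj hA hN
  obtain ⟨l1', rfl, h5, h6⟩ := N2_split hA h1 h2 hp1
  refine ⟨l1', y :: l2, ?_, hp1, hp2, ?_⟩
  · rw [h5, h6, h3, h4]
    rfl
  · rw [hS]
    exact Multiset.coe_eq_coe.2 (List.Perm.map ab List.perm_middle.symm)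

private theorem N2_bwd (hA : Free A) {ab : M → V} {y L a R b : M} {W : Win M V}
    (h : A.HasWin ab (A.zip L a (A.nd y R) (A.nd A.O b)) W) :
    A.HasWin ab (A.zip (A.nd y L) (A.nd A.O a) R b) W := by
  obtain ⟨l1, l2, hN, hp1, hp2, hS⟩ := h
  obtain ⟨h1, h2, h3, h4⟩ := N2_zip_inj hA hN
  obtain ⟨l2', rfl, h5, h6⟩ := N2_split hA h3 h4 hp2
  refine ⟨y :: l1, l2', ?_, hp1, hp2, ?_⟩
  · rw [h5, h6, h1, h2]
    rfl
  · rw [hS]
    exact Multiset.coe_eq_coe.2 (List.Perm.map ab List.perm_middle)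

private theorem N2_swap (hA : Free A) {ab : M → V} {y y' L a R b : M} {W : Win M V}
    (h : A.HasWin ab (A.zip (A.nd y L) (A.nd A.O a) (A.nd y' R) (A.nd A.O b)) W) :
    A.HasWin ab (A.zip (A.nd y' L) (A.nd A.O a) (A.nd y R) (A.nd A.O b)) W := by
  obtain ⟨l1, l2, hN, hp1, hp2, hS⟩ := h
  obtain ⟨h1, h2, h3, h4⟩ := N2_zip_inj hA hN
  obtain ⟨l1', rfl, h5, h6⟩ := N2_split hA h1 h2 hp1
  obtain ⟨l2', rfl, h7, h8⟩ := N2_split hA h3 h4 hp2
  refine ⟨y' :: l1', y :: l2', ?_, hp1, hp2, ?_⟩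
  · rw [h5, h6, h7, h8]
    rfl
  · rw [hS]
    refine Multiset.coe_eq_coe.2 (List.Perm.map ab ?_)
    have e1 : ((y :: l1') ++ y' :: l2').Perm (y' :: (y :: l1' ++ l2')) := List.perm_middle
    have e2 : ((y' :: l1') ++ y :: l2').Perm (y :: (y' :: l1' ++ l2')) := List.perm_middle
    exact e1.trans ((List.Perm.swap y y' (l1' ++ l2')).trans e2.symm)

private theorem N2_comm (hA : Free A) {ab : M → V} {y y' L a R b : M} {W : Win M V}
    (hy : ab y = ab y') (h : A.HasWin ab (A.zip (A.nd y L) (A.nd A.O a) R b) W) :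
    A.HasWin ab (A.zip (A.nd y' L) (A.nd A.O a) R b) W := by
  obtain ⟨l1, l2, hN, hp1, hp2, hS⟩ := h
  obtain ⟨h1, h2, h3, h4⟩ := N2_zip_inj hA hN
  obtain ⟨l1', rfl, h5, h6⟩ := N2_split hA h1 h2 hp1
  refine ⟨y' :: l1', l2, ?_, hp1, hp2, ?_⟩
  · rw [h5, h6, h3, h4]
    rfl
  · rw [hS, List.cons_append, List.cons_append, List.map_cons, List.map_cons, hy]


/-- PV-N2a.  One step preserves the window.
PROOF. `A.HasWin ab N W` with the lists `l1, l2`.  Auxiliary lemma (both directions): if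
`nd y L = enc l L0` and `nd O a = marks l.length a0` and `¬ Pop L0 a0` then `l = y :: l'` with
`L = enc l' L0`, `a = marks l'.length a0` (if `l = []` then `Pop L0 a0`; otherwise `hA.inj`).
* shift: by `hA.inj` and the lemma `l1 = y :: l1'`; the new lists are `l1'` and `y :: l2`; the
  multisets of `(y :: l1') ++ l2` and `l1' ++ y :: l2` agree (`List.perm_middle`).  Backwards the same.
* swap: `l1 = y :: l1'`, `l2 = y' :: l2'`; new lists `y' :: l1'`, `y :: l2'`; a permutation.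
* comm: `l1 = y :: l1'`, new list `y' :: l1'`, and `ab y = ab y'` by `hcm`. -/
theorem win_of_NS (hA : Free A) {ab : M → V} {cm : M → M → Prop}
    (hcm : ∀ y y', cm y y' → ab y = ab y') {N N' : M} (h : A.NS cm N N') (W : Win M V) :
    A.HasWin ab N W ↔ A.HasWin ab N' W := by
  cases h with
  | shift y L a R b => exact ⟨N2_fwd hA, N2_bwd hA⟩
  | swap y y' L a R b => exact ⟨N2_swap hA, N2_swap hA⟩
  | comm y y' L a R b h =>
    exact ⟨N2_comm hA (hcm y y' h), N2_comm hA (hcm y y' h).symm⟩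

/-- PV-N2b.  PROOF. Induction on `EqvGen`. -/
theorem win_of_NEq (hA : Free A) {ab : M → V} {cm : M → M → Prop}
    (hcm : ∀ y y', cm y y' → ab y = ab y') {N N' : M} (h : A.NEq cm N N') (W : Win M V) :
    A.HasWin ab N W ↔ A.HasWin ab N' W := by
  induction h with
  | rel x y h => exact win_of_NS hA hcm h W
  | refl x => exact Iff.rfl
  | symm x y _ ih => exact ih.symm
  | trans x y z _ _ ih1 ih2 => exact ih1.trans ih2

/-- PV-N2c.  A killed zipper has a repeated name.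
PROOF. With the auxiliary lemma of N2a `l1 = y :: l1'` and `l2 = y :: l2'`, so the multiset
of `(y :: l1') ++ (y :: l2')` mapped by `ab` contains `ab y` twice. -/
theorem not_nodup_of_NK (hA : Free A) {ab : M → V} {N : M} (h : A.NK N) {W : Win M V}
    (hW : A.HasWin ab N W) : ¬ W.S.Nodup := by
  intro hn
  cases h with
  | kill y L a R b =>
    obtain ⟨l1, l2, hN, hp1, hp2, hS⟩ := hW
    obtain ⟨h1, h2, h3, h4⟩ := N2_zip_inj hA hN
    obtain ⟨l1', rfl, h5, h6⟩ := N2_split hA h1 h2 hp1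
    obtain ⟨l2', rfl, h7, h8⟩ := N2_split hA h3 h4 hp2
    rw [hS, Multiset.coe_nodup, List.map_append, List.map_cons, List.map_cons] at hn
    have h9 := List.nodup_append.1 hn
    exact h9.2.2 (ab y) List.mem_cons_self (ab y) List.mem_cons_self rfl

/-- PV-N2d.  A zipper stays a zipper. PROOF. Cases. -/
theorem isZip_of_NS {cm : M → M → Prop} {N N' : M} (h : A.NS cm N N') : A.IsZip N ∧ A.IsZip N' := by
  cases h with
  | shift y L a R b => exact ⟨⟨_, _, _, _, rfl⟩, ⟨_, _, _, _, rfl⟩⟩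
  | swap y y' L a R b => exact ⟨⟨_, _, _, _, rfl⟩, ⟨_, _, _, _, rfl⟩⟩
  | comm y y' L a R b h => exact ⟨⟨_, _, _, _, rfl⟩, ⟨_, _, _, _, rfl⟩⟩

/-- PV-N2e. PROOF. Induction on `EqvGen`, with N2d. -/
theorem eq_of_not_isZip {cm : M → M → Prop} {N N' : M} (h : A.NEq cm N N') (hN : ¬ A.IsZip N) :
    N = N' := by
  have key : (A.IsZip N ↔ A.IsZip N') ∧ (¬ A.IsZip N → N = N') := by
    clear hN
    induction h with
    | rel x y h =>
      have h1 := isZip_of_NS h
      exact ⟨⟨fun _ => h1.2, fun _ => h1.1⟩, fun h2 => absurd h1.1 h2⟩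
    | refl x => exact ⟨Iff.rfl, fun _ => rfl⟩
    | symm x y _ ih => exact ⟨ih.1.symm, fun h2 => (ih.2 (fun h3 => h2 (ih.1.1 h3))).symm⟩
    | trans x y z _ _ ih1 ih2 =>
      exact ⟨ih1.1.trans ih2.1, fun h2 => (ih1.2 h2).trans (ih2.2 (fun h3 => h2 (ih1.1.2 h3)))⟩
  exact key.2 hN

/-- PV-N2f. PROOF. Cases. -/
theorem isZip_of_NK {N : M} (h : A.NK N) : A.IsZip N := by
  cases h with
  | kill y L a R b => exact ⟨_, _, _, _, rfl⟩

end Pool.Agent.helper24.PV
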