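import Pool.Agent.helper24.PV.Defs
/-! PV-N3: zippers with the same window are equivalent; repeated names are killed. -/
set_option autoImplicit false
namespace Pool.Agent.helper24.PV
variable {M V : Type} {A : Ops M}

/-- the zipper with the lists `l1`, `l2` around the outer parts of `W` -/
def zs (A : Ops M) (L0 a0 R0 b0 : M) (l1 l2 : List M) : M :=
  A.zip (A.enc l1 L0) (A.marks l1.length a0) (A.enc l2 R0) (A.marks l2.length b0)

/-- PV-N3a.  Shifts: `zs (y :: l1) l2 ~ zs l1 (y :: l2)` is `NS.shift`; induction on `l1`. -/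
theorem zs_shift (cm : M → M → Prop) (L0 a0 R0 b0 : M) (l1 l2 : List M) :
    A.NEq cm (zs A L0 a0 R0 b0 l1 l2) (zs A L0 a0 R0 b0 [] (l1.reverse ++ l2)) := by
  induction l1 generalizing l2 with
  | nil => exact Relation.EqvGen.refl _
  | cons y l1 ih =>
    have h1 : A.NEq cm (zs A L0 a0 R0 b0 (y :: l1) l2) (zs A L0 a0 R0 b0 l1 (y :: l2)) :=
      Relation.EqvGen.rel _ _ (Ops.NS.shift y _ _ _ _)
    have h2 := ih (y :: l2)
    have h3 : (y :: l1).reverse ++ l2 = l1.reverse ++ (y :: l2) := by simp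
    rw [h3]
    exact Relation.EqvGen.trans _ _ _ h1 h2

/-- shift the first part of the right list to the left -/
private theorem N3_to (cm : M → M → Prop) (L0 a0 R0 b0 : M) (p l : List M) :
    A.NEq cm (zs A L0 a0 R0 b0 [] (p ++ l)) (zs A L0 a0 R0 b0 p.reverse l) := by
  have h := zs_shift (A := A) cm L0 a0 R0 b0 p.reverse l
  rw [List.reverse_reverse] at h
  exact Relation.EqvGen.symm _ _ h

/-- `R (y :: y' :: l) (y' :: y :: l)` -/
private theorem N3_swap (cm : M → M → Prop) (L0 a0 R0 b0 : M) (p l : List M) (y y' : M) :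
    A.NEq cm (zs A L0 a0 R0 b0 [] (p ++ y :: y' :: l)) (zs A L0 a0 R0 b0 [] (p ++ y' :: y :: l)) := by
  have h1 := N3_to (A := A) cm L0 a0 R0 b0 (p ++ [y]) (y' :: l)
  have h3 := N3_to (A := A) cm L0 a0 R0 b0 (p ++ [y']) (y :: l)
  have h2 : A.NEq cm (zs A L0 a0 R0 b0 (y :: p.reverse) (y' :: l))
      (zs A L0 a0 R0 b0 (y' :: p.reverse) (y :: l)) :=
    Relation.EqvGen.rel _ _ (Ops.NS.swap y y' _ _ _ _)
  simp only [List.reverse_append, List.reverse_cons, List.reverse_nil, List.nil_append,
    List.cons_append, List.append_assoc] at h1 h3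
  exact Relation.EqvGen.trans _ _ _ (Relation.EqvGen.trans _ _ _ h1 h2) (Relation.EqvGen.symm _ _ h3)

/-- change of one name at the pointer -/
private theorem N3_comm0 (cm : M → M → Prop) (L0 a0 R0 b0 : M) (q l : List M) {y y' : M}
    (h : Relation.EqvGen cm y y') :
    A.NEq cm (zs A L0 a0 R0 b0 (y :: q) l) (zs A L0 a0 R0 b0 (y' :: q) l) := by
  induction h with
  | rel x z hxz => exact Relation.EqvGen.rel _ _ (Ops.NS.comm x z _ _ _ _ hxz)
  | refl x => exact Relation.EqvGen.refl _
  | symm x z _ ih => exact Relation.EqvGen.symm _ _ ih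
  | trans x z w _ _ ih1 ih2 => exact Relation.EqvGen.trans _ _ _ ih1 ih2

/-- change of one name -/
private theorem N3_comm (cm : M → M → Prop) (L0 a0 R0 b0 : M) (p l : List M) {y y' : M}
    (h : Relation.EqvGen cm y y') :
    A.NEq cm (zs A L0 a0 R0 b0 [] (p ++ y :: l)) (zs A L0 a0 R0 b0 [] (p ++ y' :: l)) := by
  have h1 := N3_to (A := A) cm L0 a0 R0 b0 (p ++ [y]) l
  have h3 := N3_to (A := A) cm L0 a0 R0 b0 (p ++ [y']) l
  have h2 := N3_comm0 (A := A) cm L0 a0 R0 b0 p.reverse l h
  simp only [List.reverse_append, List.reverse_cons, List.reverse_nil, List.nil_append,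
    List.cons_append, List.append_assoc] at h1 h3
  exact Relation.EqvGen.trans _ _ _ (Relation.EqvGen.trans _ _ _ h1 h2) (Relation.EqvGen.symm _ _ h3)

/-- permutations -/
private theorem N3_perm (cm : M → M → Prop) (L0 a0 R0 b0 : M) {l l' : List M} (h : l.Perm l') :
    ∀ p : List M, A.NEq cm (zs A L0 a0 R0 b0 [] (p ++ l)) (zs A L0 a0 R0 b0 [] (p ++ l')) := by
  induction h with
  | nil => exact fun p => Relation.EqvGen.refl _
  | cons x _ ih =>
    intro p
    have := ih (p ++ [x])
    simpa only [List.append_assoc, List.cons_append, List.nil_append] using this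
  | swap x z l => exact fun p => N3_swap (A := A) cm L0 a0 R0 b0 p l z x
  | trans _ _ ih1 ih2 => exact fun p => Relation.EqvGen.trans _ _ _ (ih1 p) (ih2 p)

/-- permutations of the classes -/
private theorem N3_permMap {ab : M → V} {cm : M → M → Prop}
    (hcm : ∀ y y', ab y = ab y' → Relation.EqvGen cm y y')
    (L0 a0 R0 b0 : M) (l : List M) : ∀ (l' : List M), (l.map ab).Perm (l'.map ab) →
    ∀ p : List M, A.NEq cm (zs A L0 a0 R0 b0 [] (p ++ l)) (zs A L0 a0 R0 b0 [] (p ++ l')) := by
  induction l with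
  | nil =>
    intro l' h p
    have : l' = [] := by
      have h1 := h.length_eq
      simp only [List.map_nil, List.length_nil, List.length_map] at h1
      exact List.length_eq_zero_iff.mp h1.symm
    subst this
    exact Relation.EqvGen.refl _
  | cons y l ih =>
    intro l' h p
    have hy : ab y ∈ l'.map ab := h.subset (by simp)
    obtain ⟨y', hy', hab⟩ := List.mem_map.mp hy
    obtain ⟨s, t, rfl⟩ := List.append_of_mem hy'
    have h1 : (l.map ab).Perm ((s ++ t).map ab) := by
      have h2 : ((s ++ y' :: t).map ab).Perm ((y' :: (s ++ t)).map ab) :=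
        List.Perm.map ab List.perm_middle
      have h3 := h.trans h2
      simp only [List.map_cons, hab] at h3
      exact List.Perm.cons_inv h3
    have h4 := ih (s ++ t) h1 (p ++ [y])
    simp only [List.append_assoc, List.cons_append, List.nil_append] at h4
    have h5 := N3_comm (A := A) cm L0 a0 R0 b0 p (s ++ t) (hcm y y' hab.symm)
    have h6 := N3_perm (A := A) cm L0 a0 R0 b0 (List.perm_middle (a := y') (l₁ := s) (l₂ := t)).symm p
    exact Relation.EqvGen.trans _ _ _ h4 (Relation.EqvGen.trans _ _ _ h5 h6)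

/-- a list whose classes are not distinct -/
private theorem N3_dup {ab : M → V} (l : List M) (h : ¬ (l.map ab).Nodup) :
    ∃ y y' t, l.Perm (y :: y' :: t) ∧ ab y = ab y' := by
  induction l with
  | nil => exact absurd List.nodup_nil h
  | cons x l ih =>
    by_cases hx : ab x ∈ l.map ab
    · obtain ⟨y', hy', hab⟩ := List.mem_map.mp hx
      obtain ⟨s, t, rfl⟩ := List.append_of_mem hy'
      exact ⟨x, y', s ++ t, List.Perm.cons x List.perm_middle, hab.symm⟩
    · have h1 : ¬ (l.map ab).Nodup := fun h1 => h (by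
        rw [List.map_cons]; exact List.nodup_cons.mpr ⟨hx, h1⟩)
      obtain ⟨y, y', t, hp, hab⟩ := ih h1
      refine ⟨y, y', x :: t, ?_, hab⟩
      refine (List.Perm.cons x hp).trans ?_
      refine (List.Perm.swap y x (y' :: t)).trans ?_
      exact List.Perm.cons y (List.Perm.swap y' x t)

/-- PV-N3b.  Permutations and changes of names: lists with `l.map ab ~ l'.map ab` give equivalent zippers.
PROOF. Relation `R l l' := ∀ p, zs [] (p ++ l) ~ zs [] (p ++ l')`.
(i) `R (y :: y' :: l) (y' :: y :: l)`: shift `p` and `y` to the left (`zs_shift` backwards: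
`zs (y :: p.reverse) (y' :: l)`), `NS.swap`, shift back.
(ii) if `EqvGen cm y y'` then `R (y :: l) (y' :: l)`: shift `p` and `y` to the left, induction on
`EqvGen cm` with `NS.comm`, shift back.
(iii) `R l l'` implies `R (y :: l) (y :: l')` (take `p ++ [y]`).
(iv) hence `R l l'` for permutations (`List.Perm` induction) and for `List.Forall₂ (ab · = ab ·) l l'`.
If `l.map ab ~ l'.map ab` then there is a permutation `l''` of `l'` with `l''.map ab = l.map ab`
(e.g. `List.Perm` lifting: `Multiset`/`List.perm_map_...`; or induction on `l`: `ab y` occurs in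
`l'.map ab` at some `y'`, `l' ~ y' :: l'.erase`...; use `List.append_of_mem`). -/
theorem zs_perm {ab : M → V} {cm : M → M → Prop} (hcm : ∀ y y', ab y = ab y' → Relation.EqvGen cm y y')
    (L0 a0 R0 b0 : M) {l l' : List M} (h : (l.map ab).Perm (l'.map ab)) :
    A.NEq cm (zs A L0 a0 R0 b0 [] l) (zs A L0 a0 R0 b0 [] l') :=
  N3_permMap (A := A) hcm L0 a0 R0 b0 l l' h []

/-- PV-N3c.  PROOF. `N = zs l1 l2 ~ zs [] (l1.reverse ++ l2)` (N3a), the same for `N'`; the two lists have
permuted classes (`W.S`), N3b. -/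
theorem NEq_of_win {ab : M → V} {cm : M → M → Prop} (hcm : ∀ y y', ab y = ab y' → Relation.EqvGen cm y y')
    {N N' : M} {W : Win M V} (h : A.HasWin ab N W) (h' : A.HasWin ab N' W) : A.NEq cm N N' := by
  obtain ⟨l1, l2, rfl, -, -, hS⟩ := h
  obtain ⟨l1', l2', rfl, -, -, hS'⟩ := h'
  have hp : ((l1.reverse ++ l2).map ab).Perm ((l1'.reverse ++ l2').map ab) := by
    have h1 : ((l1 ++ l2).map ab).Perm ((l1' ++ l2').map ab) :=
      Multiset.coe_eq_coe.mp (hS.symm.trans hS')
    have h2 : ((l1.reverse ++ l2).map ab).Perm ((l1 ++ l2).map ab) :=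
      List.Perm.map ab (List.Perm.append_right l2 (List.reverse_perm l1))
    have h3 : ((l1'.reverse ++ l2').map ab).Perm ((l1' ++ l2').map ab) :=
      List.Perm.map ab (List.Perm.append_right l2' (List.reverse_perm l1'))
    exact (h2.trans h1).trans h3.symm
  exact Relation.EqvGen.trans _ _ _ (zs_shift (A := A) cm W.L0 W.a0 W.R0 W.b0 l1 l2)
    (Relation.EqvGen.trans _ _ _ (zs_perm (A := A) hcm W.L0 W.a0 W.R0 W.b0 hp)
      (Relation.EqvGen.symm _ _ (zs_shift (A := A) cm W.L0 W.a0 W.R0 W.b0 l1' l2')))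

/-- PV-N3d.  A repeated name is killed.
PROOF. The list `l1 ++ l2` mapped by `ab` is not `Nodup`, so `l1 ++ l2 ~ y :: y' :: l` (a permutation)
with `ab y = ab y'` (`List.duplicate`, or `List.not_nodup...`).  By N3a, N3b (with `y :: y :: l`, whose
classes are the same up to a permutation) `N ~ zs [] (y :: y :: l) ~ zs [y] (y :: l)` and this is
killed by `NK.kill`. -/
theorem killed_of_win {ab : M → V} {cm : M → M → Prop}
    (hcm : ∀ y y', ab y = ab y' → Relation.EqvGen cm y y')
    {N : M} {W : Win M V} (h : A.HasWin ab N W) (hS : ¬ W.S.Nodup) : ∃ N', A.NEq cm N N' ∧ A.NK N' := by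
  obtain ⟨l1, l2, rfl, -, -, hW⟩ := h
  rw [hW, Multiset.coe_nodup] at hS
  obtain ⟨y, y', t, hp, hab⟩ := N3_dup (ab := ab) (l1 ++ l2) hS
  have hq : ((l1.reverse ++ l2).map ab).Perm ((y :: y :: t).map ab) := by
    have h2 : ((l1.reverse ++ l2).map ab).Perm ((l1 ++ l2).map ab) :=
      List.Perm.map ab (List.Perm.append_right l2 (List.reverse_perm l1))
    have h3 : ((l1 ++ l2).map ab).Perm ((y :: y' :: t).map ab) := List.Perm.map ab hp
    have h4 : (y :: y' :: t).map ab = (y :: y :: t).map ab := by simp [hab]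
    rw [← h4]
    exact h2.trans h3
  refine ⟨zs A W.L0 W.a0 W.R0 W.b0 [y] (y :: t), ?_, ?_⟩
  · refine Relation.EqvGen.trans _ _ _ (zs_shift (A := A) cm W.L0 W.a0 W.R0 W.b0 l1 l2)
      (Relation.EqvGen.trans _ _ _ (zs_perm (A := A) hcm W.L0 W.a0 W.R0 W.b0 hq) ?_)
    exact N3_to (A := A) cm W.L0 W.a0 W.R0 W.b0 [y] (y :: t)
  · exact Ops.NK.kill y _ _ _ _

end Pool.Agent.helper24.PV
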