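import Pool.Agent.helper24.PV.N1
import Pool.Agent.helper24.PV.N2
import Pool.Agent.helper24.PV.N3
/-! PV-N4: the two end conditions in terms of the window.  (author: helper92) -/
set_option autoImplicit false
namespace Pool.Agent.helper24.PV
variable {M V : Type} {A : Ops M}

private theorem N4_zip_inj (hA : Free A) {L a R b L' a' R' b' : M}
    (h : A.zip L a R b = A.zip L' a' R' b') : L = L' ∧ a = a' ∧ R = R' ∧ b = b' := by
  obtain ⟨h1, h2⟩ := hA.inj h
  obtain ⟨h3, h4⟩ := hA.inj h1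
  obtain ⟨h5, h6⟩ := hA.inj h2
  exact ⟨h3, h4, h5, h6⟩

private theorem N4_marks_Z (hA : Free A) {l : List M} {a0 : M} (h : A.Z = A.marks l.length a0) :
    l = [] ∧ a0 = A.Z := by
  cases l with
  | nil => exact ⟨rfl, h.symm⟩
  | cons y l => exact absurd h.symm (hA.Z_ne A.O (A.marks l.length a0))

/-- PV-N4a.  `P1 N ↔ a0 = Z`.
PROOF. (⇒) `N ~ zip L Z R b`, so `zip L Z R b` has the window `W` (N2b): `Z = marks l1.length a0`;
`Z` is not a pair, so `l1 = []` and `a0 = Z`.  (⇐) by N3a `N ~ zip L0 a0 (enc ..) (marks ..)`. -/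
theorem P1_iff (hA : Free A) {ab : M → V} {cm : M → M → Prop} (hcm : ∀ y y', cm y y' → ab y = ab y')
    {N : M} {W : Win M V} (hW : A.HasWin ab N W) : A.P1 cm N ↔ W.a0 = A.Z := by
  constructor
  · rintro ⟨L, R, b, h⟩
    obtain ⟨l1, l2, hN, -, -, -⟩ := (win_of_NEq hA hcm h W).1 hW
    exact (N4_marks_Z hA (N4_zip_inj hA hN).2.1).2
  · intro ha
    obtain ⟨l1, l2, hN, -, -, -⟩ := hW
    have h1 := zs_shift (A := A) cm W.L0 W.a0 W.R0 W.b0 l1 l2
    refine ⟨W.L0, A.enc (l1.reverse ++ l2) W.R0, A.marks (l1.reverse ++ l2).length W.b0, ?_⟩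
    rw [hN]
    have h2 : zs A W.L0 W.a0 W.R0 W.b0 [] (l1.reverse ++ l2) =
        A.zip W.L0 A.Z (A.enc (l1.reverse ++ l2) W.R0) (A.marks (l1.reverse ++ l2).length W.b0) := by
      rw [← ha]
      rfl
    rw [h2] at h1
    exact h1

/-- PV-N4b.  `A2 N a ↔ b0 = Z ∧ a = marks (card S) a0`.
PROOF. (⇒) `N ~ zip L a R Z`, which has the window `W` (N2b): `Z = marks l2.length b0`, so `l2 = []`,
`b0 = Z`, `a = marks l1.length a0` and `card S = l1.length`.  (⇐) shift everything to the left: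
`zs l1 l2 ~ zs (l2.reverse ++ l1) []` (induction on `l2` with `NS.shift` backwards; or N3a twice). -/
theorem A2_iff (hA : Free A) {ab : M → V} {cm : M → M → Prop} (hcm : ∀ y y', cm y y' → ab y = ab y')
    {N : M} {W : Win M V} (hW : A.HasWin ab N W) (a : M) :
    A.A2 cm N a ↔ W.b0 = A.Z ∧ a = A.marks W.S.card W.a0 := by
  constructor
  · rintro ⟨L, R, h⟩
    obtain ⟨l1, l2, hN, -, -, hS⟩ := (win_of_NEq hA hcm h W).1 hW
    obtain ⟨-, h2, -, h4⟩ := N4_zip_inj hA hN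
    obtain ⟨rfl, hb⟩ := N4_marks_Z hA h4
    refine ⟨hb, ?_⟩
    rw [h2, hS, Multiset.coe_card, List.length_map, List.append_nil]
  · rintro ⟨hb, ha⟩
    obtain ⟨l1, l2, hN, -, -, hS⟩ := hW
    have h1 := zs_shift (A := A) cm W.L0 W.a0 W.R0 W.b0 l1 l2
    have h2 := zs_shift (A := A) cm W.L0 W.a0 W.R0 W.b0 (l1.reverse ++ l2).reverse []
    rw [List.reverse_reverse, List.append_nil] at h2
    have hl : (l1.reverse ++ l2).reverse.length = W.S.card := by
      rw [hS, Multiset.coe_card, List.length_map, List.length_reverse, List.length_append,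
        List.length_append, List.length_reverse]
    refine ⟨A.enc (l1.reverse ++ l2).reverse W.L0, W.R0, ?_⟩
    rw [hN]
    have h3 : zs A W.L0 W.a0 W.R0 W.b0 (l1.reverse ++ l2).reverse [] =
        A.zip (A.enc (l1.reverse ++ l2).reverse W.L0) a W.R0 A.Z := by
      rw [ha, ← hl, ← hb]
      rfl
    rw [h3] at h2
    exact Relation.EqvGen.trans _ _ _ h1 (Relation.EqvGen.symm _ _ h2)

/-- PV-N4c. PROOF. N2e; `zip` is a zipper. -/
theorem P1_A2_of_not_isZip {cm : M → M → Prop} {N : M} (hN : ¬ A.IsZip N) :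
    ¬ A.P1 cm N ∧ ∀ a, ¬ A.A2 cm N a := by
  refine ⟨?_, ?_⟩
  · rintro ⟨L, R, b, h⟩
    exact hN ⟨L, A.Z, R, b, eq_of_not_isZip h hN⟩
  · rintro a ⟨L, R, h⟩
    exact hN ⟨L, a, R, A.Z, eq_of_not_isZip h hN⟩

/-- PV-N4d.  `a` in `A2 N a` is unique, and a numeral if also `P1 N`.
PROOF. If `N` is no zipper: N4c.  Otherwise N1a and N4a, N4b. -/
theorem A2_unique (hA : Free A) {ab : M → V} {cm : M → M → Prop} (hcm : ∀ y y', cm y y' → ab y = ab y')
    {N a a' : M} (h : A.A2 cm N a) (h' : A.A2 cm N a') : a = a' := by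
  by_cases hN : A.IsZip N
  · obtain ⟨W, hW⟩ := exists_win hA ab hN
    rw [((A2_iff hA hcm hW a).1 h).2, ((A2_iff hA hcm hW a').1 h').2]
  · exact absurd h ((P1_A2_of_not_isZip hN).2 a)

/-- PV-N4e. see N4d -/
theorem A2_num (hA : Free A) {ab : M → V} {cm : M → M → Prop} (hcm : ∀ y y', cm y y' → ab y = ab y')
    {N a : M} (h1 : A.P1 cm N) (h : A.A2 cm N a) : ∃ k, a = A.num k := by
  by_cases hN : A.IsZip N
  · obtain ⟨W, hW⟩ := exists_win hA ab hN
    refine ⟨W.S.card, ?_⟩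
    rw [((A2_iff hA hcm hW a).1 h).2, (P1_iff hA hcm hW).1 h1]
    rfl
  · exact absurd h1 (P1_A2_of_not_isZip hN).1

end Pool.Agent.helper24.PV
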